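import Pool.Agent.Helper38.SP.Count
import Pool.Agent.Helper38.Dml.Box

/-!
# Project SP: almost all tuples of integral polynomials are good at some prime

BLUEPRINT. `κ, p₀` from `exists_good`. Infinitely many primes `p ≡ 1 mod d`
(`Nat.setOf_prime_and_eq_mod_infinite` or the like, or `Nat.exists_prime_gt_modEq_one`), so for
each `K` there are `K` distinct primes `p_i ≥ p₀`, `d ∣ p_i - 1`. For such a prime the set `B_i` of
the `c : Fin N → Fin (d+1) → ZMod p_i` which are not good (`¬ ∀ l, Good p_i d (pol (c l))`) has at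
most `(1 - κ ^ N) p_i ^ (N (d+1))` elements (the good ones are a product set with at least
`(κ p_i^(d+1))^N` elements; note `κ ≤ 1` follows, or replace `κ` by `min κ 1`). By
`Dml.card_box_filter_le_real` (`Pool/Agent/Helper38/Dml/Box.lean`) with `δ = 1 - κ^N`, `ι = Fin K`,
the proportion of the `c` in the box bad at all `p_i` is at most `2 δ^K < ε` for `K` large, `H`
large. Convert `Dml.box` to the set with absolute values (`abs_le`, `Fintype.mem_piFinset`,
`Set.ncard_coe_finset`; see `Pool/Agent/Helper38/Dml/Count.lean`, `UniformMain.lean` or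
`Pool/Agent/Results/MP_b15c9e_ag/AlmostAllDegree.lean` for the same conversion).
-/

set_option autoImplicit false

open Polynomial Finset

namespace Pool.Agent.Helper38.SP

/-- the tuples which are not good at `p` are few -/
theorem card_bad_le (N d : ℕ) (κ : ℝ) (hκ : 0 < κ) (p : ℕ) [Fact p.Prime]
    (h : κ * (p : ℝ) ^ (d + 1) ≤ ({c : Fin (d + 1) → ZMod p | Good p d (pol c)}.ncard : ℝ)) :
    ∃ B : Finset (Fin N → Fin (d + 1) → ZMod p),
      (∀ c, c ∈ B ↔ ¬ ∀ l, Good p d (pol (c l))) ∧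
      (B.card : ℝ) ≤ (1 - κ ^ N) * (p : ℝ) ^ (N * (d + 1)) := by
  classical
  haveI : NeZero p := ⟨(Fact.out : p.Prime).ne_zero⟩
  refine ⟨Finset.univ.filter (fun c => ¬ ∀ l, Good p d (pol (c l))), ?_, ?_⟩
  · intro c
    simp only [Finset.mem_filter, Finset.mem_univ, true_and]
  · set G : Finset (Fin (d + 1) → ZMod p) := Finset.univ.filter (fun c => Good p d (pol c)) with hG
    have h1 : ({c : Fin (d + 1) → ZMod p | Good p d (pol c)}.ncard) = G.card := by
      rw [← Set.ncard_coe_finset]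
      congr 1
      ext c
      simp [hG]
    rw [h1] at h
    have h2 : (Finset.univ.filter (fun c : Fin N → Fin (d + 1) → ZMod p =>
        ∀ l, Good p d (pol (c l)))).card = G.card ^ N := by
      have h3 : (Finset.univ.filter (fun c : Fin N → Fin (d + 1) → ZMod p =>
          ∀ l, Good p d (pol (c l)))) = Fintype.piFinset (fun _ : Fin N => G) := by
        ext c
        simp only [Finset.mem_filter, Finset.mem_univ, true_and, Fintype.mem_piFinset, hG]
      rw [h3, Fintype.card_piFinset, Finset.prod_const, Finset.card_univ, Fintype.card_fin]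
    have h4 := Finset.card_filter_add_card_filter_not (s := (Finset.univ : Finset (Fin N → Fin (d + 1) → ZMod p)))
      (fun c => ∀ l, Good p d (pol (c l)))
    have h5 : (Finset.univ : Finset (Fin N → Fin (d + 1) → ZMod p)).card = p ^ (N * (d + 1)) := by
      rw [Finset.card_univ, Fintype.card_fun, Fintype.card_fun, ZMod.card, Fintype.card_fin,
        Fintype.card_fin, ← pow_mul, mul_comm]
    rw [h5, h2] at h4
    have h6 : ((G.card : ℝ)) ^ N + ((Finset.univ.filter (fun c : Fin N → Fin (d + 1) → ZMod p =>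
        ¬ ∀ l, Good p d (pol (c l)))).card : ℝ) = (p : ℝ) ^ (N * (d + 1)) := by
      exact_mod_cast h4
    have h7 : (κ * (p : ℝ) ^ (d + 1)) ^ N ≤ (G.card : ℝ) ^ N :=
      pow_le_pow_left₀ (by positivity) h N
    have h8 : (κ * (p : ℝ) ^ (d + 1)) ^ N = κ ^ N * (p : ℝ) ^ (N * (d + 1)) := by
      rw [mul_pow, ← pow_mul, mul_comm (d + 1)]
    rw [h8] at h7
    linarith

/-- almost all tuples of integral polynomials of degree at most `d` are good at some prime -/
theorem density (N d : ℕ) (hd : 2 ≤ d) (ε : ℝ) (hε : 0 < ε) :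
    ∃ H₀ : ℕ, ∀ H : ℕ, H₀ ≤ H →
      ({c : Fin N → Fin (d + 1) → ℤ | (∀ i j, |c i j| ≤ (H : ℤ)) ∧
          ¬ ∃ p : ℕ, p.Prime ∧ ∀ i, Good p d (pol (fun j => (c i j : ZMod p)))}.ncard : ℝ)
        ≤ ε * ({c : Fin N → Fin (d + 1) → ℤ | ∀ i j, |c i j| ≤ (H : ℤ)}.ncard : ℝ) := by
  classical
  obtain ⟨κ₀, hκ₀, p₀, hgood⟩ := exists_good d hd
  have hκ : 0 < min κ₀ 1 := lt_min hκ₀ one_pos
  have hκ1 : min κ₀ 1 ≤ 1 := min_le_right _ _
  have hκle : min κ₀ 1 ≤ κ₀ := min_le_left _ _
  generalize min κ₀ 1 = κ at hκ hκ1 hκle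
  have hδ0 : 0 ≤ 1 - κ ^ N := by
    have := pow_le_one₀ (n := N) hκ.le hκ1
    linarith
  have hδ1 : 1 - κ ^ N < 1 := by
    have := pow_pos hκ N
    linarith
  obtain ⟨K, hK⟩ := exists_pow_lt_of_lt_one (show 0 < ε / 2 by positivity) hδ1
  -- primes
  have hinf : ({p : ℕ | p.Prime ∧ p ≡ 1 [MOD d]} \ Set.Iio p₀).Infinite :=
    (Nat.infinite_setOf_prime_modEq_one (k := d) (by omega)).diff (Set.finite_Iio p₀)
  set e := hinf.natEmbedding with he
  set P : Fin K → ℕ := fun i => (e i.1).1 with hP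
  have hPp : ∀ i, (P i).Prime := fun i => (e i.1).2.1.1
  have hPm : ∀ i, P i ≡ 1 [MOD d] := fun i => (e i.1).2.1.2
  have hP0 : ∀ i, p₀ ≤ P i := fun i => not_lt.1 (e i.1).2.2
  have hinj : Function.Injective P := by
    intro i j hij
    have h1 : e i.1 = e j.1 := Subtype.ext hij
    exact Fin.ext (e.injective h1)
  have hB : ∀ i, ∃ B : Finset (Fin N → Fin (d + 1) → ZMod (P i)),
      (∀ c, c ∈ B ↔ ¬ ∀ l, Good (P i) d (pol (c l))) ∧
      (B.card : ℝ) ≤ (1 - κ ^ N) * (P i : ℝ) ^ (N * (d + 1)) := by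
    intro i
    haveI : Fact (P i).Prime := ⟨hPp i⟩
    apply card_bad_le N d κ hκ (P i)
    have hdvd : d ∣ P i - 1 := (Nat.modEq_iff_dvd' (hPp i).one_lt.le).1 (hPm i).symm
    refine le_trans ?_ (hgood (P i) (hP0 i) hdvd)
    exact mul_le_mul_of_nonneg_right hκle (by positivity)
  choose B hBmem hBcard using hB
  refine ⟨(N * (d + 1)) * (∏ i, P i), fun H hH => ?_⟩
  have hmain := Dml.card_box_filter_le_real (α := Fin N) (β := Fin (d + 1)) P hPp hinj B
    (1 - κ ^ N) hδ0 (by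
      intro i
      rw [Fintype.card_fin, Fintype.card_fin]
      exact hBcard i) H (by
      rw [Fintype.card_fin, Fintype.card_fin]
      have := Nat.mul_le_mul_left 2 hH
      calc 2 * (N * (d + 1)) * (∏ i, P i) = 2 * ((N * (d + 1)) * (∏ i, P i)) := by ring
        _ ≤ 2 * H := this
        _ ≤ 2 * H + 1 := Nat.le_succ _)
  rw [Fintype.card_fin] at hmain
  have hbox : {c : Fin N → Fin (d + 1) → ℤ | ∀ i j, |c i j| ≤ (H : ℤ)}
      = ((Dml.box (Fin N) (Fin (d + 1)) H : Finset _) : Set (Fin N → Fin (d + 1) → ℤ)) := by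
    ext c
    simp only [Set.mem_setOf_eq, Finset.mem_coe, Dml.box, Fintype.mem_piFinset, Finset.mem_Icc,
      abs_le]
  rw [hbox, Set.ncard_coe_finset]
  have hsub : {c : Fin N → Fin (d + 1) → ℤ | (∀ i j, |c i j| ≤ (H : ℤ)) ∧
      ¬ ∃ p : ℕ, p.Prime ∧ ∀ i, Good p d (pol (fun j => (c i j : ZMod p)))}
      ⊆ (((Dml.box (Fin N) (Fin (d + 1)) H).filter
        (fun c => ∀ i, (fun a b => (c a b : ZMod (P i))) ∈ B i) : Finset _) :
          Set (Fin N → Fin (d + 1) → ℤ)) := by
    rintro c ⟨hc1, hc2⟩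
    rw [Finset.mem_coe, Finset.mem_filter]
    constructor
    · have h1 : c ∈ {c : Fin N → Fin (d + 1) → ℤ | ∀ i j, |c i j| ≤ (H : ℤ)} := hc1
      rw [hbox] at h1
      exact h1
    · intro i
      rw [hBmem]
      intro h3
      exact hc2 ⟨P i, hPp i, h3⟩
  have h1 := Set.ncard_le_ncard hsub (Finset.finite_toSet _)
  rw [Set.ncard_coe_finset] at h1
  have h2 : (({c : Fin N → Fin (d + 1) → ℤ | (∀ i j, |c i j| ≤ (H : ℤ)) ∧
      ¬ ∃ p : ℕ, p.Prime ∧ ∀ i, Good p d (pol (fun j => (c i j : ZMod p)))}.ncard : ℕ) : ℝ)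
      ≤ (((Dml.box (Fin N) (Fin (d + 1)) H).filter
        (fun c => ∀ i, (fun a b => (c a b : ZMod (P i))) ∈ B i)).card : ℝ) := by
    exact_mod_cast h1
  refine h2.trans (hmain.trans ?_)
  apply mul_le_mul_of_nonneg_right _ (by positivity)
  linarith

end Pool.Agent.Helper38.SP
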