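import Pool.Agent.Helper38.SP.Defs

/-!
# Project SP: the definition of good polynomials in terms of coefficients
-/

set_option autoImplicit false

open Polynomial Finset

namespace Pool.Agent.Helper38.SP

theorem pol_derivative_eval {R : Type*} [CommRing R] {d : ℕ} (c : Fin (d + 1) → R) (z : R) :
    (derivative (pol c)).eval z = ∑ j : Fin (d + 1), ((j : ℕ) : R) * c j * z ^ ((j : ℕ) - 1) := by
  rw [pol, derivative_sum, eval_finsetSum]
  refine Finset.sum_congr rfl fun j _ => ?_
  rw [derivative_C_mul_X_pow, eval_mul, eval_C, eval_pow, eval_X]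
  ring

theorem pol_natDegree {R : Type*} [CommRing R] {d : ℕ} (c : Fin (d + 1) → R)
    (hc : c (Fin.last d) ≠ 0) : (pol c).natDegree = d := by
  refine le_antisymm (pol_natDegree_le c) (le_natDegree_of_ne_zero ?_)
  have h2 := pol_coeff c (Fin.last d)
  rw [Fin.val_last] at h2
  rwa [h2]

theorem good_of_explicit {p d : ℕ} [Fact p.Prime] (hd : 2 ≤ d) (c : Fin (d + 1) → ZMod p)
    (hpd : ¬ p ∣ d) (hl : c (Fin.last d) ≠ 0) (Z : Finset (ZMod p)) (hZ : Z.card = d - 1)
    (hZ0 : ∀ z ∈ Z, ∑ j : Fin (d + 1), ((j : ℕ) : ZMod p) * c j * z ^ ((j : ℕ) - 1) = 0)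
    (hZv : ∀ x : ZMod p, ∑ j : Fin (d + 1), c j * x ^ (j : ℕ) ∉ Z) : Good p d (pol c) := by
  have hroot : ∀ z ∈ Z, (derivative (pol c)).eval z = 0 := by
    intro z hz
    rw [pol_derivative_eval]
    exact hZ0 z hz
  have h0 : derivative (pol c) ≠ 0 := by
    intro h
    have h1 := coeff_derivative (pol c) (d - 1)
    have h2 := pol_coeff c (Fin.last d)
    rw [Fin.val_last] at h2
    have h3 : d - 1 + 1 = d := by omega
    rw [h, coeff_zero, h3, h2] at h1
    rcases mul_eq_zero.1 h1.symm with h4 | h4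
    · exact hl h4
    · apply hpd
      rw [← ZMod.natCast_eq_zero_iff]
      have h5 : ((d - 1 : ℕ) : ZMod p) + 1 = ((d - 1 + 1 : ℕ) : ZMod p) := by push_cast; ring
      rw [h5, h3] at h4
      exact h4
  refine ⟨pol_natDegree c hl, ⟨Z, hZ, hroot⟩, fun x hx => ?_⟩
  have h1 : Z.val ≤ (derivative (pol c)).roots := by
    rw [Multiset.le_iff_subset Z.nodup]
    intro z hz
    exact (mem_roots h0).2 (hroot z hz)
  have h2 : (derivative (pol c)).roots.card ≤ (derivative (pol c)).natDegree := card_roots' _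
  have h3 := natDegree_derivative_le (pol c)
  have h4 := pol_natDegree_le c
  have h5 : Z.val.card = d - 1 := hZ
  have h6 : (derivative (pol c)).roots = Z.val :=
    (Multiset.eq_of_le_of_card_le h1 (by omega)).symm
  have h7 : (pol c).eval x ∈ (derivative (pol c)).roots := (mem_roots h0).2 hx
  rw [h6, pol_eval] at h7
  exact hZv x h7

end Pool.Agent.Helper38.SP
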