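import Pool.Agent.Helper15.SZ.DHJ

/-!
# Project SP: homothetic copies of a pattern in dense subsets of `F_p`

BLUEPRINT. Use the density Hales-Jewett theorem `Pool.Agent.Helper52.SZ.dhj (Fin k)` with
`δ = β / 2`; it gives `n` (use `ι = Fin n` with the `n0` of `Good`; we may take `1 ≤ n`).
Look at `Pool/Agent/Helper12/SZ/MainA.lean` for the use of `av`, `dn`, `av_comm`, `dn_ge_of_av_ge`.
For `h ∈ F_p` nonzero and a word `w : Fin n → Fin k` put
`P h w = h * ∑ j, 2 ^ j * v (w j)`. For fixed `h, w` the density of `{u | u + P h w ∈ B}` is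
`|B| / p ≥ β`. So the average over `u` of `dn {w | u + P h w ∈ B}` is at least `β`
and for at least `(β / 2) p` values of `u` this density is `≥ β / 2`; for these `u` there is a
combinatorial line `l` with `u + P h (l i) ∈ B` for all letters `i : Fin k`. With
`s = h * ∑_{star positions j} 2 ^ j` (nonzero in `F_p` if `p > 2 ^ n`) and
`u' = u + h * ∑_{j not a star} 2 ^ j * v (letter j)` one has `u + P h (l i) = u' + s * v i`.
So `(u, h) ↦ (u', s)` maps at least `(β/2) p (p - 1)` pairs into the good pairs, and each fibre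
has at most (number of lines of `Fin n` over `Fin k`) `≤ (k + 1) ^ n` elements, since a line and
`(u', s)` determine `h` and then `u`. So `c = (β / 2) / (2 (k+1)^n)` (use `p - 1 ≥ p / 2`).
If `k = 0` the statement is trivial too (all pairs); the alphabet `Fin 0` needs no special care if
you treat `n` with `1 ≤ n`, but feel free to handle it separately.
-/

set_option autoImplicit false

open Finset

namespace Pool.Agent.Helper38.SP

namespace PatternMod

open Pool.Agent.Helper52.SZ Combinatorics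

/-- the weight of the star positions -/
def sg {k n : ℕ} (g : Fin n → Option (Fin k)) : ℕ :=
  ∑ j : Fin n, if g j = none then 2 ^ (j : ℕ) else 0

/-- the contribution of the fixed letters -/
def tau {p k n : ℕ} (v : Fin k → ZMod p) (g : Fin n → Option (Fin k)) : ZMod p :=
  ∑ j : Fin n, (2 : ZMod p) ^ (j : ℕ) * (g j).elim 0 v

/-- the digit map -/
def dig {p k n : ℕ} (v : Fin k → ZMod p) (w : Fin n → Fin k) : ZMod p :=
  ∑ j : Fin n, (2 : ZMod p) ^ (j : ℕ) * v (w j)

theorem dig_line {p k n : ℕ} (v : Fin k → ZMod p) (l : Line (Fin k) (Fin n)) (x : Fin k) :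
    dig v (l x) = tau v l.idxFun + (sg l.idxFun : ZMod p) * v x := by
  unfold dig tau sg
  push_cast
  rw [Finset.sum_mul, ← Finset.sum_add_distrib]
  refine Finset.sum_congr rfl fun j _ => ?_
  rw [Line.coe_apply]
  cases l.idxFun j with
  | none => simp
  | some y => simp

theorem sg_pos {k n : ℕ} (l : Line (Fin k) (Fin n)) : 0 < sg l.idxFun := by
  obtain ⟨q, hq⟩ := l.proper
  refine Finset.sum_pos' (fun _ _ => Nat.zero_le _) ⟨q, Finset.mem_univ q, ?_⟩
  rw [if_pos hq]
  positivity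

theorem sg_lt {k n : ℕ} (g : Fin n → Option (Fin k)) : sg g < 2 ^ n := by
  have h1 : sg g ≤ ∑ j : Fin n, 2 ^ (j : ℕ) := by
    refine Finset.sum_le_sum fun j _ => ?_
    split_ifs
    · exact le_rfl
    · exact Nat.zero_le _
  refine h1.trans_lt ?_
  rw [Fin.sum_univ_eq_sum_range (fun j => 2 ^ j) n]
  exact Nat.geomSum_lt le_rfl fun j hj => Finset.mem_range.1 hj

theorem sg_ne_zero {p k n : ℕ} (hp : 2 ^ n ≤ p) (l : Line (Fin k) (Fin n)) :
    (sg l.idxFun : ZMod p) ≠ 0 := by
  intro h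
  rw [ZMod.natCast_eq_zero_iff] at h
  have h1 := Nat.le_of_dvd (sg_pos l) h
  have h2 := sg_lt l.idxFun
  omega

theorem av_shift {p : ℕ} [Fact p.Prime] (B : Finset (ZMod p)) (t : ZMod p) :
    av (fun u : ZMod p => {b : ZMod p | b ∈ B}.indicator (fun _ => (1 : ℝ)) (u + t))
      = (B.card : ℝ) / (p : ℝ) := by
  have h1 := av_equiv (Equiv.addRight t)
    ({b : ZMod p | b ∈ B}.indicator (fun _ => (1 : ℝ)))
  simp only [Equiv.coe_addRight] at h1
  rw [h1]
  have h2 : av ({b : ZMod p | b ∈ B}.indicator (fun _ => (1 : ℝ))) = dn {b : ZMod p | b ∈ B} := rfl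
  rw [h2, dn_eq, Nat.card_eq_fintype_card (α := ZMod p), ZMod.card]
  congr 2
  rw [Nat.card_eq_fintype_card]
  exact Fintype.card_of_subtype B fun x => Iff.rfl

open scoped Classical in
theorem count_h {p k n : ℕ} [Fact p.Prime] (hk : 0 < k) {β : ℝ} (hβ : 0 < β)
    (hn : ∀ A : Set (Fin n → Fin k), β / 2 ≤ dn A → ∃ l : Line (Fin k) (Fin n), ∀ x, l x ∈ A)
    (B : Finset (ZMod p)) (hB : β * (p : ℝ) ≤ (B.card : ℝ)) (v : Fin k → ZMod p) (h : ZMod p) :
    β / 2 * (p : ℝ) ≤ ((univ.filter (fun u : ZMod p =>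
      ∃ l : Line (Fin k) (Fin n), ∀ x, u + h * dig v (l x) ∈ B)).card : ℝ) := by
  classical
  have hk' : NeZero k := ⟨hk.ne'⟩
  have hp0 : (0 : ℝ) < p := by
    exact_mod_cast (Fact.out : p.Prime).pos
  let F : ZMod p → (Fin n → Fin k) → ℝ := fun u w =>
    {b : ZMod p | b ∈ B}.indicator (fun _ => (1 : ℝ)) (u + h * dig v w)
  have hF : ∀ w, β ≤ av (fun u => F u w) := by
    intro w
    show β ≤ av (fun u : ZMod p =>
      {b : ZMod p | b ∈ B}.indicator (fun _ => (1 : ℝ)) (u + h * dig v w))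
    rw [av_shift, le_div_iff₀ hp0]
    exact hB
  have hG : β ≤ av (fun u => av (fun w => F u w)) := by
    rw [av_comm]
    exact le_av_of_le hF
  have hle : ∀ u, av (fun w => F u w) ≤ 1 := by
    intro u
    refine av_le_of_le fun w => ?_
    exact Set.indicator_le_self' (fun _ _ => zero_le_one) _ |>.trans le_rfl
  have hM := dn_ge_of_av_ge (f := fun u => av (fun w => F u w)) (c := β / 2) (by linarith) hle
    (by linarith)
  rw [dn_eq, Nat.card_eq_fintype_card (α := ZMod p), ZMod.card, le_div_iff₀ hp0] at hM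
  refine hM.trans ?_
  rw [Nat.card_eq_fintype_card, Fintype.card_subtype]
  refine Nat.cast_le.2 (Finset.card_le_card ?_)
  intro u hu
  rw [Finset.mem_filter] at hu ⊢
  refine ⟨Finset.mem_univ _, ?_⟩
  have h2 : β / 2 ≤ dn {w : Fin n → Fin k | u + h * dig v w ∈ B} := hu.2
  obtain ⟨l, hl⟩ := hn _ h2
  exact ⟨l, fun x => hl x⟩

end PatternMod

/-- dense subsets of `F_p` contain many homothetic copies of every pattern with `k` points -/
theorem exists_pattern (k : ℕ) (β : ℝ) (hβ : 0 < β) :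
    ∃ c : ℝ, 0 < c ∧ ∃ p₀ : ℕ, ∀ (p : ℕ) [Fact p.Prime], p₀ ≤ p →
      ∀ (B : Finset (ZMod p)), β * (p : ℝ) ≤ (B.card : ℝ) → ∀ v : Fin k → ZMod p,
        c * (p : ℝ) ^ 2 ≤ ((univ.filter (fun q : ZMod p × ZMod p =>
          q.2 ≠ 0 ∧ ∀ i, q.1 + q.2 * v i ∈ B)).card : ℝ) := by
  classical
  rcases Nat.eq_zero_or_pos k with rfl | hk
  · refine ⟨1 / 2, by norm_num, 0, fun p hp _ B hB v => ?_⟩
    have h1 : (univ.filter (fun q : ZMod p × ZMod p =>
          q.2 ≠ 0 ∧ ∀ i : Fin 0, q.1 + q.2 * v i ∈ B)) =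
        (univ : Finset (ZMod p)) ×ˢ (univ.erase (0 : ZMod p)) := by
      ext q
      simp
    rw [h1, Finset.card_product, Finset.card_univ, ZMod.card,
      Finset.card_erase_of_mem (Finset.mem_univ _), Finset.card_univ, ZMod.card]
    have h2 : 2 ≤ p := (Fact.out : p.Prime).two_le
    rw [Nat.cast_mul, Nat.cast_sub (by omega)]
    have h3 : (2 : ℝ) ≤ p := by exact_mod_cast h2
    push_cast
    nlinarith
  · obtain ⟨n, hn⟩ := Pool.Agent.Helper52.SZ.dhj (Fin k) (β / 2) (by linarith)
    have hn' := hn (Fin n) (by simp)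
    have hK : (0 : ℝ) < ((k : ℝ) + 1) ^ n := by positivity
    refine ⟨β / 4 / ((k : ℝ) + 1) ^ n, by positivity, 2 ^ n, fun p hp hpn B hB v => ?_⟩
    have h2 : 2 ≤ p := (Fact.out : p.Prime).two_le
    have h3 : (2 : ℝ) ≤ p := by exact_mod_cast h2
    set good : Finset (ZMod p × ZMod p) := univ.filter (fun q : ZMod p × ZMod p =>
          q.2 ≠ 0 ∧ ∀ i, q.1 + q.2 * v i ∈ B) with hgood
    -- the pairs with a line
    let U : ZMod p → Finset (ZMod p) := fun h => univ.filter (fun u : ZMod p =>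
      ∃ l : Combinatorics.Line (Fin k) (Fin n), ∀ x, u + h * PatternMod.dig v (l x) ∈ B)
    let S : Finset (Σ _ : ZMod p, ZMod p) := (univ.erase (0 : ZMod p)).sigma U
    have hS : (p - 1 : ℝ) * (β / 2 * p) ≤ (S.card : ℝ) := by
      rw [Finset.card_sigma]
      push_cast
      have h4 : ∑ _h ∈ (univ.erase (0 : ZMod p)), (β / 2 * (p : ℝ))
          ≤ ∑ h ∈ (univ.erase (0 : ZMod p)), ((U h).card : ℝ) :=
        Finset.sum_le_sum fun h _ => PatternMod.count_h hk hβ hn' B hB v h
      rw [Finset.sum_const, Finset.card_erase_of_mem (Finset.mem_univ _), Finset.card_univ,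
        ZMod.card, nsmul_eq_mul, Nat.cast_sub (by omega)] at h4
      push_cast at h4
      exact h4
    have hl : ∀ q : (Σ _ : ZMod p, ZMod p), ∃ g : Fin n → Option (Fin k), q ∈ S →
        ∃ l : Combinatorics.Line (Fin k) (Fin n), l.idxFun = g ∧
          ∀ x, q.2 + q.1 * PatternMod.dig v (l x) ∈ B := by
      intro q
      by_cases hq : q ∈ S
      · obtain ⟨l, hl⟩ := (Finset.mem_filter.1 (Finset.mem_sigma.1 hq).2).2
        exact ⟨l.idxFun, fun _ => ⟨l, rfl, hl⟩⟩
      · exact ⟨fun _ => none, fun h => absurd h hq⟩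
    choose L hL using hl
    let Φ : (Σ _ : ZMod p, ZMod p) → (Fin n → Option (Fin k)) × (ZMod p × ZMod p) := fun q =>
      (L q, (q.2 + q.1 * PatternMod.tau v (L q), q.1 * (PatternMod.sg (L q) : ZMod p)))
    have hmaps : ∀ q ∈ S, Φ q ∈ (univ : Finset (Fin n → Option (Fin k))) ×ˢ good := by
      intro q hq
      obtain ⟨l, hlg, hlB⟩ := hL q hq
      rw [Finset.mem_product]
      refine ⟨Finset.mem_univ _, ?_⟩
      rw [hgood, Finset.mem_filter]
      refine ⟨Finset.mem_univ _, ?_, fun i => ?_⟩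
      · have h5 : q.1 ≠ 0 := Finset.ne_of_mem_erase (Finset.mem_sigma.1 hq).1
        have h6 := PatternMod.sg_ne_zero hpn l
        rw [hlg] at h6
        exact mul_ne_zero h5 h6
      · have h7 := hlB i
        rw [PatternMod.dig_line, hlg] at h7
        have h8 : (Φ q).2.1 + (Φ q).2.2 * v i
            = q.2 + q.1 * (PatternMod.tau v (L q) + (PatternMod.sg (L q) : ZMod p) * v i) := by
          show (q.2 + q.1 * PatternMod.tau v (L q)) + (q.1 * (PatternMod.sg (L q) : ZMod p)) * v i
            = _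
          ring
        rw [h8]
        exact h7
    have hinj : Set.InjOn Φ S := by
      intro q hq q' hq' heq
      have hq1 : q ∈ S := hq
      have hL1 : L q = L q' := congrArg Prod.fst heq
      have hL2 : q.2 + q.1 * PatternMod.tau v (L q) = q'.2 + q'.1 * PatternMod.tau v (L q') :=
        congrArg (fun z => z.2.1) heq
      have hL3 : q.1 * (PatternMod.sg (L q) : ZMod p) = q'.1 * (PatternMod.sg (L q') : ZMod p) :=
        congrArg (fun z => z.2.2) heq
      obtain ⟨l, hlg, -⟩ := hL q hq1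
      have h6 := PatternMod.sg_ne_zero hpn l
      rw [hlg] at h6
      rw [← hL1] at hL3 hL2
      have h9 : q.1 = q'.1 := mul_right_cancel₀ h6 hL3
      rw [h9] at hL2
      have h10 : q.2 = q'.2 := add_right_cancel hL2
      exact Sigma.ext h9 (heq_of_eq h10)
    have hcard := Finset.card_le_card_of_injOn Φ hmaps hinj
    rw [Finset.card_product, Finset.card_univ, Fintype.card_fun, Fintype.card_option,
      Fintype.card_fin, Fintype.card_fin] at hcard
    have hcard' : (S.card : ℝ) ≤ ((k : ℝ) + 1) ^ n * (good.card : ℝ) := by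
      exact_mod_cast hcard
    have h11 : (p - 1 : ℝ) * (β / 2 * p) ≤ ((k : ℝ) + 1) ^ n * (good.card : ℝ) := hS.trans hcard'
    rw [div_mul_eq_mul_div, div_le_iff₀ hK]
    have h12 : β / 4 * (p : ℝ) ^ 2 ≤ (p - 1 : ℝ) * (β / 2 * p) := by
      have : 0 ≤ β * (p : ℝ) * ((p : ℝ) - 2) := by
        have : 0 ≤ (p : ℝ) - 2 := by linarith
        positivity
      nlinarith
    linarith

end Pool.Agent.Helper38.SP
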