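import Mathlib

/-!
# Project SP: the value set of a polynomial whose degree divides `p - 1`

BLUEPRINT. Put `E(y) = #{x | M(x) = y} - 1` (an integer). For every polynomial `g` over `F_p` with
`d * deg g < p - 1` one has `∑_y E(y) g(y) = ∑_x g(M(x)) - ∑_y g(y) = 0` in `F_p` (power sums
`∑_x x ^ i` vanish for `i < p - 1`: `FiniteField.sum_pow_lt_card_sub_one`). Let
`T = {y | E(y) ≠ 0 in F_p}`. If `T` is nonempty then `|T| ≥ (p - 1)/d + 1`: otherwise take
`g = ∏_{y ∈ T, y ≠ y0} (X - y)` of degree `|T| - 1 ≤ (p-1)/d - 1`. And `T` is nonempty: take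
`g = X ^ ((p-1)/d)`: `∑_y y ^ ((p-1)/d) = 0` as `(p-1)/d < p - 1`, and
`∑_x M(x) ^ ((p-1)/d) = - lc(M) ^ ((p-1)/d) ≠ 0` (degree exactly `p - 1`;
`∑_x x^(p-1) = p - 1 = -1`). Finally `T ⊆ B ∪ {y | 2 ≤ #M⁻¹(y)}`, `B` = non-values, and
`∑_y E(y) = 0` gives `#{y | 2 ≤ #M⁻¹(y)} ≤ |B|`. So `(p-1)/d + 1 ≤ |T| ≤ 2 |B|`.
-/

set_option autoImplicit false

open Polynomial Finset

namespace Pool.Agent.Helper38.SP

theorem val_sum_low (p : ℕ) [Fact p.Prime] (f : (ZMod p)[X]) (hf : f.natDegree < p - 1) :
    ∑ x : ZMod p, f.eval x = 0 := by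
  simp only [eval_eq_sum_range]
  rw [Finset.sum_comm]
  refine Finset.sum_eq_zero fun i hi => ?_
  rw [← Finset.mul_sum, FiniteField.sum_pow_lt_card_sub_one, mul_zero]
  rw [ZMod.card]
  have := Finset.mem_range.1 hi
  omega

theorem val_sum_top (p : ℕ) [Fact p.Prime] (f : (ZMod p)[X]) (hf : f.natDegree = p - 1) :
    ∑ x : ZMod p, f.eval x = - f.leadingCoeff := by
  have hp : 1 < p := (Fact.out : p.Prime).one_lt
  simp only [eval_eq_sum_range]
  rw [Finset.sum_comm, Finset.sum_range_succ]
  have h1 : ∑ i ∈ range f.natDegree, ∑ x : ZMod p, f.coeff i * x ^ i = 0 := by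
    refine Finset.sum_eq_zero fun i hi => ?_
    rw [← Finset.mul_sum, FiniteField.sum_pow_lt_card_sub_one, mul_zero]
    rw [ZMod.card]
    have := Finset.mem_range.1 hi
    omega
  rw [h1, zero_add, ← Finset.mul_sum]
  have h2 : ∑ x : ZMod p, x ^ f.natDegree = -1 := by
    rw [hf, ← Finset.sum_erase_add _ _ (Finset.mem_univ (0 : ZMod p)), zero_pow (by omega),
      add_zero]
    have h3 : ∀ x ∈ (univ : Finset (ZMod p)).erase 0, x ^ (p - 1) = 1 := by
      intro x hx
      exact ZMod.pow_card_sub_one_eq_one (Finset.ne_of_mem_erase hx)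
    rw [Finset.sum_congr rfl h3, Finset.sum_const, Finset.card_erase_of_mem (Finset.mem_univ _),
      Finset.card_univ, ZMod.card, nsmul_eq_mul, mul_one, Nat.cast_sub hp.le, CharP.cast_eq_zero]
    simp
  rw [h2, leadingCoeff]
  ring

/-- a polynomial of degree `d ≥ 2`, `d ∣ p - 1`, omits at least `(p - 1) / (2 d)` values -/
theorem card_values (p d : ℕ) [Fact p.Prime] (hd : 2 ≤ d) (hdp : d ∣ p - 1) (M : (ZMod p)[X])
    (hM : M.natDegree = d) :
    p - 1 ≤ 2 * d * (univ.filter (fun y : ZMod p => ∀ x : ZMod p, M.eval x ≠ y)).card := by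
  classical
  have hp : 1 < p := (Fact.out : p.Prime).one_lt
  obtain ⟨m, hm⟩ := hdp
  have hm1 : 1 ≤ m := by
    rcases Nat.eq_zero_or_pos m with h | h
    · rw [h, mul_zero] at hm
      omega
    · exact h
  have hM0 : M ≠ 0 := by
    rintro rfl
    rw [natDegree_zero] at hM
    omega
  set n : ZMod p → ℕ := fun y => (univ.filter (fun x : ZMod p => M.eval x = y)).card with hn
  have hnd : ∀ y, n y ≤ d := by
    intro y
    have h0 : M - C y ≠ 0 := by
      intro h
      have h1 := congrArg natDegree h
      rw [natDegree_sub_C, hM, natDegree_zero] at h1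
      omega
    have h1 : (univ.filter (fun x : ZMod p => M.eval x = y)) ⊆ (M - C y).roots.toFinset := by
      intro x hx
      rw [Multiset.mem_toFinset, mem_roots h0, IsRoot.def, eval_sub, eval_C,
        (Finset.mem_filter.1 hx).2, sub_self]
    calc n y ≤ (M - C y).roots.toFinset.card := Finset.card_le_card h1
      _ ≤ (M - C y).roots.card := Multiset.toFinset_card_le _
      _ ≤ (M - C y).natDegree := card_roots' _
      _ = d := by rw [natDegree_sub_C, hM]
  set E : ZMod p → ZMod p := fun y => (n y : ZMod p) - 1 with hE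
  have hsumE : ∀ g : (ZMod p)[X], g.natDegree < p - 1 →
      ∑ y, E y * g.eval y = ∑ x, (g.comp M).eval x := by
    intro g hg
    simp only [hE, sub_mul, one_mul, Finset.sum_sub_distrib]
    rw [val_sum_low p g hg, sub_zero]
    simp only [eval_comp]
    rw [← Finset.sum_fiberwise (s := univ) (g := fun x : ZMod p => M.eval x)
      (f := fun x => g.eval (M.eval x))]
    refine Finset.sum_congr rfl fun y _ => ?_
    rw [Finset.sum_congr rfl (g := fun _ => g.eval y) (fun x hx => by
      rw [(Finset.mem_filter.1 hx).2]), Finset.sum_const, nsmul_eq_mul]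
  have horth : ∀ g : (ZMod p)[X], d * g.natDegree < p - 1 → ∑ y, E y * g.eval y = 0 := by
    intro g hg
    have h1 : g.natDegree ≤ d * g.natDegree := Nat.le_mul_of_pos_left _ (by omega)
    rw [hsumE g (by omega)]
    apply val_sum_low
    rw [natDegree_comp, hM, mul_comm]
    exact hg
  set T : Finset (ZMod p) := univ.filter (fun y => E y ≠ 0) with hT
  have hTcard : m + 1 ≤ T.card := by
    by_contra hlt
    rcases T.eq_empty_or_nonempty with h0 | ⟨y₀, hy₀⟩
    · have hE0 : ∀ y, E y = 0 := by
        intro y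
        by_contra h
        have h1 : y ∈ T := Finset.mem_filter.2 ⟨Finset.mem_univ _, h⟩
        rw [h0] at h1
        exact absurd h1 (Finset.notMem_empty y)
      have hm2 : m < p - 1 := by
        rw [hm]
        nlinarith
      have h1 := hsumE (X ^ m) (by rw [natDegree_X_pow]; exact hm2)
      simp only [hE0, zero_mul, Finset.sum_const_zero] at h1
      have h2 : ((X ^ m : (ZMod p)[X]).comp M) = M ^ m := by rw [X_pow_comp]
      rw [h2, val_sum_top p (M ^ m) (by rw [natDegree_pow, hM, hm, mul_comm])] at h1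
      rw [leadingCoeff_pow] at h1
      have h3 : M.leadingCoeff ^ m ≠ 0 := pow_ne_zero _ (leadingCoeff_ne_zero.2 hM0)
      exact h3 (neg_eq_zero.1 h1.symm)
    · set g : (ZMod p)[X] := ∏ y ∈ T.erase y₀, (X - C y) with hg
      have hgdeg : g.natDegree = T.card - 1 := by
        rw [hg, natDegree_prod_of_monic _ _ (fun y _ => monic_X_sub_C y)]
        simp [Finset.card_erase_of_mem hy₀]
      have hlt2 : d * g.natDegree < p - 1 := by
        rw [hgdeg, hm]
        have h1 : T.card - 1 ≤ m - 1 := by omega
        calc d * (T.card - 1) ≤ d * (m - 1) := Nat.mul_le_mul_left _ h1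
          _ < d * m := by
            apply Nat.mul_lt_mul_of_pos_left
            · omega
            · omega
      have h1 := horth g hlt2
      rw [Finset.sum_eq_single y₀] at h1
      · rcases mul_eq_zero.1 h1 with h2 | h2
        · exact (Finset.mem_filter.1 hy₀).2 h2
        · rw [hg, eval_prod, Finset.prod_eq_zero_iff] at h2
          obtain ⟨y, hy, h3⟩ := h2
          rw [eval_sub, eval_X, eval_C, sub_eq_zero] at h3
          exact (Finset.ne_of_mem_erase hy) h3.symm
      · intro y _ hy
        by_cases hyT : y ∈ T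
        · have h3 : g.eval y = 0 := by
            rw [hg, eval_prod]
            exact Finset.prod_eq_zero (Finset.mem_erase.2 ⟨hy, hyT⟩) (by simp)
          rw [h3, mul_zero]
        · have h3 : E y = 0 := by
            by_contra h
            exact hyT (Finset.mem_filter.2 ⟨Finset.mem_univ _, h⟩)
          rw [h3, zero_mul]
      · intro h
        exact absurd (Finset.mem_univ _) h
  set B : Finset (ZMod p) := univ.filter (fun y : ZMod p => ∀ x : ZMod p, M.eval x ≠ y) with hB
  set A : Finset (ZMod p) := univ.filter (fun y : ZMod p => 2 ≤ n y) with hA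
  have hBn : ∀ y, y ∈ B ↔ n y = 0 := by
    intro y
    rw [hB, Finset.mem_filter, hn]
    simp only [Finset.mem_univ, true_and, Finset.card_eq_zero, Finset.filter_eq_empty_iff,
      forall_const]
  have hsub : T ⊆ B ∪ A := by
    intro y hy
    have h1 := (Finset.mem_filter.1 hy).2
    rw [Finset.mem_union, hBn, hA, Finset.mem_filter]
    by_cases h2 : n y = 0
    · exact Or.inl h2
    · by_cases h3 : n y = 1
      · exfalso
        apply h1
        simp only [hE]
        rw [h3]
        simp
      · exact Or.inr ⟨Finset.mem_univ _, by omega⟩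
  have hsum : ∑ y, n y = p := by
    have h1 := Finset.card_eq_sum_card_fiberwise (f := fun x : ZMod p => M.eval x)
      (s := univ) (t := univ) (fun x _ => Finset.mem_univ _)
    rw [Finset.card_univ, ZMod.card] at h1
    exact h1.symm
  have hAB : A.card ≤ B.card := by
    have h1 : ∀ y, 1 + (if y ∈ A then 1 else 0) ≤ n y + (if y ∈ B then 1 else 0) := by
      intro y
      by_cases hyA : y ∈ A
      · have h2 := (Finset.mem_filter.1 hyA).2
        rw [if_pos hyA]
        omega
      · rw [if_neg hyA]
        by_cases hyB : y ∈ B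
        · rw [if_pos hyB]
          omega
        · rw [if_neg hyB]
          rw [hBn] at hyB
          omega
    have h2 := Finset.sum_le_sum (s := univ) (fun y _ => h1 y)
    rw [Finset.sum_add_distrib, Finset.sum_add_distrib, hsum, Finset.sum_const,
      Finset.card_univ, ZMod.card, smul_eq_mul, mul_one] at h2
    simp only [Finset.sum_ite_mem, Finset.univ_inter, Finset.sum_const, smul_eq_mul, mul_one] at h2
    omega
  have h1 : T.card ≤ 2 * B.card := by
    have := (Finset.card_le_card hsub).trans (Finset.card_union_le _ _)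
    omega
  have h2 : m + 1 ≤ 2 * B.card := hTcard.trans h1
  calc p - 1 = d * m := hm
    _ ≤ d * (2 * B.card) := Nat.mul_le_mul_left _ (by omega)
    _ = 2 * d * B.card := by ring

end Pool.Agent.Helper38.SP
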