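import Pool.Agent.Helper38.SP.Defs
import Pool.Agent.Helper38.SP.Values
import Pool.Agent.Helper38.SP.Pattern

/-!
# Project SP: a positive proportion of the polynomials of degree `d` mod `p` is good

BLUEPRINT. For a set `Z` of `d - 1` elements of `F_p` (`d < p` since `d ∣ p - 1`, `2 ≤ d`; take
`p₀ > d + 1`) let `M_Z` be the antiderivative with `M_Z(0) = 0` of `∏_{z ∈ Z} (X - z)`
(coefficients `a_i / (i + 1)`); its degree is `d` and its leading coefficient is `1/d`. For `s ≠ 0`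
and `u` put `f = C s⁻¹ * (M_Z - C u)`; then `f' = C s⁻¹ * ∏ (X - z)`, and `f` is `Good p d` iff no
`z ∈ Z` is a value of `f`, i.e. iff `u + s z` is not a value of `M_Z` for `z ∈ Z`. By
`card_values` the set `B` of the non-values of `M_Z` has at least `(p-1)/(2d) ≥ p/(4d)` elements;
by `exists_pattern (d - 1) (1 / (4 d))` with `v` an enumeration of `Z` there are at least `c p^2`
pairs `(u, s)`. `f` determines `Z` (the zeros of `f'`), `s` (leading coefficient) and `u`
(constant term), so the map `(Z, u, s) ↦` (coefficients of `f`) is injective. Number of `Z`: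
`(p choose d-1) ≥ ((p + 2 - d)^(d-1)) / (d-1)!` (`Nat.pow_le_choose`) `≥ (p/2)^(d-1)/(d-1)!`.
So `κ = c / (2^(d-1) (d-1)!)`. Use `pol_of_coeff`, `pol_coeff` for the coefficient vectors.
-/

set_option autoImplicit false

open Polynomial Finset

namespace Pool.Agent.Helper38.SP

/-- antiderivatives -/
theorem exists_anti (p : ℕ) [Fact p.Prime] (P : (ZMod p)[X]) (hP0 : P ≠ 0)
    (hP : P.natDegree + 1 < p) :
    ∃ M : (ZMod p)[X], derivative M = P ∧ M.natDegree = P.natDegree + 1 ∧ M.coeff 0 = 0 := by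
  classical
  have hne : ∀ i : ℕ, i ≤ P.natDegree → ((i : ZMod p) + 1) ≠ 0 := by
    intro i hi h
    have h1 : ((i + 1 : ℕ) : ZMod p) = 0 := by push_cast; exact h
    rw [ZMod.natCast_eq_zero_iff] at h1
    have h2 := Nat.le_of_dvd (Nat.succ_pos i) h1
    omega
  set M : (ZMod p)[X] := ∑ i ∈ range (P.natDegree + 1),
    C (P.coeff i / ((i : ZMod p) + 1)) * X ^ (i + 1) with hM
  have hcoeff : ∀ n : ℕ, n ≤ P.natDegree → M.coeff (n + 1) = P.coeff n / ((n : ZMod p) + 1) := by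
    intro n hn
    rw [hM, finsetSum_coeff]
    rw [Finset.sum_eq_single n]
    · simp
    · intro i _ hin
      rw [coeff_C_mul, coeff_X_pow, if_neg, mul_zero]
      omega
    · intro h
      exact absurd (Finset.mem_range.2 (by omega)) h
  have hdeg : M.natDegree ≤ P.natDegree + 1 := by
    rw [hM]
    refine natDegree_sum_le_of_forall_le _ _ fun i hi => ?_
    have := Finset.mem_range.1 hi
    exact (natDegree_C_mul_X_pow_le _ _).trans (by omega)
  refine ⟨M, ?_, le_antisymm hdeg ?_, ?_⟩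
  · ext n
    rw [coeff_derivative]
    by_cases hn : n ≤ P.natDegree
    · rw [hcoeff n hn, div_mul_cancel₀ _ (hne n hn)]
    · rw [coeff_eq_zero_of_natDegree_lt (p := M) (by omega), zero_mul,
        coeff_eq_zero_of_natDegree_lt (by omega)]
  · refine le_natDegree_of_ne_zero ?_
    rw [hcoeff _ le_rfl]
    exact div_ne_zero (leadingCoeff_ne_zero.2 hP0) (hne _ le_rfl)
  · rw [hM, finsetSum_coeff]
    refine Finset.sum_eq_zero fun i _ => ?_
    rw [coeff_C_mul, coeff_X_pow, if_neg (by omega), mul_zero]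

/-- the polynomial attached to `(Z, u, s)` -/
noncomputable def polZ {p : ℕ} [Fact p.Prime] (M : Finset (ZMod p) → (ZMod p)[X])
    (q : Finset (ZMod p) × (ZMod p × ZMod p)) : (ZMod p)[X] :=
  C q.2.2⁻¹ * (M q.1 - C q.2.1)

theorem derivative_polZ {p : ℕ} [Fact p.Prime] (M : Finset (ZMod p) → (ZMod p)[X])
    (q : Finset (ZMod p) × (ZMod p × ZMod p)) (hM : derivative (M q.1) = ∏ z ∈ q.1, (X - C z)) :
    derivative (polZ M q) = C q.2.2⁻¹ * ∏ z ∈ q.1, (X - C z) := by
  rw [polZ, derivative_C_mul, derivative_sub, derivative_C, sub_zero, hM]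

theorem roots_prodZ {p : ℕ} [Fact p.Prime] (Z : Finset (ZMod p)) :
    (∏ z ∈ Z, (X - C z)).roots = Z.val := by
  have := roots_multiset_prod_X_sub_C Z.val
  exact this

theorem polZ_inj {p : ℕ} [Fact p.Prime] (M : Finset (ZMod p) → (ZMod p)[X])
    (hM0 : ∀ Z, (M Z).coeff 0 = 0)
    (q q' : Finset (ZMod p) × (ZMod p × ZMod p))
    (hM : derivative (M q.1) = ∏ z ∈ q.1, (X - C z))
    (hM' : derivative (M q'.1) = ∏ z ∈ q'.1, (X - C z))
    (hs : q.2.2 ≠ 0) (hs' : q'.2.2 ≠ 0) (h : polZ M q = polZ M q') : q = q' := by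
  have h1 := congrArg derivative h
  rw [derivative_polZ M q hM, derivative_polZ M q' hM'] at h1
  have hZ : q.1 = q'.1 := by
    have h2 := congrArg roots h1
    rw [roots_C_mul _ (inv_ne_zero hs), roots_C_mul _ (inv_ne_zero hs'), roots_prodZ,
      roots_prodZ] at h2
    exact Finset.val_injective h2
  have hmon : ∀ Z : Finset (ZMod p), (∏ z ∈ Z, (X - C z) : (ZMod p)[X]).Monic := fun Z =>
    monic_prod_of_monic _ _ fun z _ => monic_X_sub_C z
  have hs2 : q.2.2 = q'.2.2 := by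
    have h2 := congrArg leadingCoeff h1
    rw [leadingCoeff_mul, leadingCoeff_mul, leadingCoeff_C, leadingCoeff_C,
      (hmon _).leadingCoeff, (hmon _).leadingCoeff, mul_one, mul_one] at h2
    exact inv_injective h2
  have hu : q.2.1 = q'.2.1 := by
    have h2 := congrArg (fun f : (ZMod p)[X] => f.coeff 0) h
    simp only [polZ, coeff_C_mul, coeff_sub, hM0, coeff_C_zero, zero_sub] at h2
    rw [hs2] at h2
    have h3 := mul_left_cancel₀ (inv_ne_zero hs') h2
    exact neg_injective h3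
  exact Prod.ext hZ (Prod.ext hu hs2)

theorem good_polZ {p d : ℕ} [Fact p.Prime] (M : Finset (ZMod p) → (ZMod p)[X])
    (q : Finset (ZMod p) × (ZMod p × ZMod p)) (hcard : q.1.card = d - 1)
    (hM : derivative (M q.1) = ∏ z ∈ q.1, (X - C z)) (hdeg : (M q.1).natDegree = d)
    (hs : q.2.2 ≠ 0) (hB : ∀ z ∈ q.1, ∀ x : ZMod p, (M q.1).eval x ≠ q.2.1 + q.2.2 * z) :
    Good p d (polZ M q) := by
  refine ⟨?_, ⟨q.1, hcard, ?_⟩, ?_⟩
  · rw [polZ, natDegree_C_mul (inv_ne_zero hs), natDegree_sub_C, hdeg]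
  · intro z hz
    rw [derivative_polZ M q hM, eval_mul, eval_prod, Finset.prod_eq_zero hz (by simp), mul_zero]
  · intro x hx
    rw [derivative_polZ M q hM, eval_mul, eval_prod, eval_C, mul_eq_zero] at hx
    have h1 := hx.resolve_left (inv_ne_zero hs)
    obtain ⟨z, hz, h2⟩ := Finset.prod_eq_zero_iff.1 h1
    rw [eval_sub, eval_X, eval_C, sub_eq_zero] at h2
    apply hB z hz x
    rw [← h2, polZ, eval_mul, eval_C, eval_sub, eval_C, mul_inv_cancel_left₀ hs]
    ring

/-- a positive proportion of all polynomials of degree at most `d` is good -/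
theorem exists_good (d : ℕ) (hd : 2 ≤ d) :
    ∃ κ : ℝ, 0 < κ ∧ ∃ p₀ : ℕ, ∀ (p : ℕ) [Fact p.Prime], p₀ ≤ p → d ∣ p - 1 →
      κ * (p : ℝ) ^ (d + 1) ≤ ({c : Fin (d + 1) → ZMod p | Good p d (pol c)}.ncard : ℝ) := by
  classical
  have hd0 : (0 : ℝ) < d := by exact_mod_cast (by omega : 0 < d)
  obtain ⟨c, hc, p1, hp1⟩ := exists_pattern (d - 1) (1 / (4 * (d : ℝ))) (by positivity)
  have hfac : (0 : ℝ) < ((d - 1).factorial : ℝ) := by exact_mod_cast Nat.factorial_pos _
  refine ⟨c / (2 ^ (d - 1) * ((d - 1).factorial : ℝ)), by positivity, max p1 (2 * d), ?_⟩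
  intro p hpF hp hdp
  have hpp : p.Prime := hpF.out
  have hp1' : p1 ≤ p := le_trans (le_max_left _ _) hp
  have hp2 : 2 * d ≤ p := le_trans (le_max_right _ _) hp
  -- choice of the antiderivatives
  have hex : ∀ Z : Finset (ZMod p), ∃ M : (ZMod p)[X], M.coeff 0 = 0 ∧
      (Z.card = d - 1 → derivative M = ∏ z ∈ Z, (X - C z) ∧ M.natDegree = d) := by
    intro Z
    by_cases hZ : Z.card = d - 1
    · have hnd : (∏ z ∈ Z, (X - C z) : (ZMod p)[X]).natDegree = d - 1 := by
        rw [natDegree_prod_of_monic _ _ fun z _ => monic_X_sub_C z]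
        simp [hZ]
      have hne : (∏ z ∈ Z, (X - C z) : (ZMod p)[X]) ≠ 0 :=
        (monic_prod_of_monic _ _ fun z _ => monic_X_sub_C z).ne_zero
      obtain ⟨M, h1, h2, h3⟩ := exists_anti p (∏ z ∈ Z, (X - C z)) hne (by rw [hnd]; omega)
      exact ⟨M, h3, fun _ => ⟨h1, by rw [h2, hnd]; omega⟩⟩
    · exact ⟨0, by simp, fun h => absurd h hZ⟩
  choose M hM0 hM using hex
  -- the non-values
  set B : Finset (ZMod p) → Finset (ZMod p) := fun Z =>
    univ.filter (fun y : ZMod p => ∀ x : ZMod p, (M Z).eval x ≠ y) with hB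
  have hBcard : ∀ Z : Finset (ZMod p), Z.card = d - 1 →
      1 / (4 * (d : ℝ)) * (p : ℝ) ≤ ((B Z).card : ℝ) := by
    intro Z hZ
    have h1 := card_values p d hd hdp (M Z) (hM Z hZ).2
    have h2 : ((p : ℝ) - 1) ≤ 2 * d * ((B Z).card : ℝ) := by
      have h3 : ((p - 1 : ℕ) : ℝ) ≤ ((2 * d * (B Z).card : ℕ) : ℝ) := by exact_mod_cast h1
      rw [Nat.cast_sub hpp.one_lt.le] at h3
      push_cast at h3
      exact h3
    have h4 : (2 : ℝ) ≤ p := by exact_mod_cast hpp.two_le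
    rw [one_div, inv_mul_le_iff₀ (by positivity)]
    nlinarith
  set G : Finset (ZMod p) → Finset (ZMod p × ZMod p) := fun Z =>
    univ.filter (fun q : ZMod p × ZMod p => q.2 ≠ 0 ∧ ∀ z ∈ Z, q.1 + q.2 * z ∈ B Z) with hG
  have hGcard : ∀ Z : Finset (ZMod p), Z.card = d - 1 → c * (p : ℝ) ^ 2 ≤ ((G Z).card : ℝ) := by
    intro Z hZ
    have h1 := hp1 p hp1' (B Z) (hBcard Z hZ) (fun i => ((Z.equivFinOfCardEq hZ).symm i : ZMod p))
    refine h1.trans ?_
    rw [Nat.cast_le]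
    refine Finset.card_le_card ?_
    intro q hq
    rw [Finset.mem_filter] at hq
    rw [hG, Finset.mem_filter]
    refine ⟨Finset.mem_univ _, hq.2.1, fun z hz => ?_⟩
    have h2 := hq.2.2 (Z.equivFinOfCardEq hZ ⟨z, hz⟩)
    rw [Equiv.symm_apply_apply] at h2
    exact h2
  -- the big finite set
  set S : Finset (Σ _ : Finset (ZMod p), ZMod p × ZMod p) :=
    (powersetCard (d - 1) (univ : Finset (ZMod p))).sigma G with hS
  have hScard : c / (2 ^ (d - 1) * ((d - 1).factorial : ℝ)) * (p : ℝ) ^ (d + 1) ≤ (S.card : ℝ) := by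
    have h1 : (S.card : ℝ) = ∑ Z ∈ powersetCard (d - 1) (univ : Finset (ZMod p)),
        ((G Z).card : ℝ) := by
      rw [hS, Finset.card_sigma]
      push_cast
      rfl
    have h2 : ((p.choose (d - 1) : ℕ) : ℝ) * (c * (p : ℝ) ^ 2) ≤ (S.card : ℝ) := by
      rw [h1]
      have h3 : ∑ _Z ∈ powersetCard (d - 1) (univ : Finset (ZMod p)), (c * (p : ℝ) ^ 2) ≤
          ∑ Z ∈ powersetCard (d - 1) (univ : Finset (ZMod p)), ((G Z).card : ℝ) :=
        Finset.sum_le_sum fun Z hZ => hGcard Z (Finset.mem_powersetCard.1 hZ).2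
      rw [Finset.sum_const, nsmul_eq_mul, Finset.card_powersetCard, Finset.card_univ,
        ZMod.card] at h3
      exact h3
    have h4 := Nat.pow_le_choose (α := ℝ) (d - 1) p
    have h5 : ((p : ℝ) / 2) ^ (d - 1) ≤ ((p + 1 - (d - 1) : ℕ) : ℝ) ^ (d - 1) := by
      refine pow_le_pow_left₀ (by positivity) ?_ _
      have h6 : ((p : ℕ) : ℝ) ≤ ((2 * (p + 1 - (d - 1)) : ℕ) : ℝ) := by
        exact_mod_cast (by omega : p ≤ 2 * (p + 1 - (d - 1)))
      push_cast at h6 ⊢
      linarith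
    have h7 : ((p : ℝ) / 2) ^ (d - 1) / ((d - 1).factorial : ℝ) ≤ ((p.choose (d - 1) : ℕ) : ℝ) :=
      le_trans (div_le_div_of_nonneg_right h5 hfac.le) h4
    have h8 : c / (2 ^ (d - 1) * ((d - 1).factorial : ℝ)) * (p : ℝ) ^ (d + 1) =
        ((p : ℝ) / 2) ^ (d - 1) / ((d - 1).factorial : ℝ) * (c * (p : ℝ) ^ 2) := by
      have h9 : d + 1 = (d - 1) + 2 := by omega
      rw [h9, pow_add, div_pow]
      field_simp
    rw [h8]
    exact le_trans (mul_le_mul_of_nonneg_right h7 (by positivity)) h2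
  refine hScard.trans ?_
  have hfin : ({c : Fin (d + 1) → ZMod p | Good p d (pol c)}).Finite := Set.toFinite _
  rw [Set.ncard_eq_toFinset_card _ hfin, Nat.cast_le]
  have hmem : ∀ q ∈ S, q.1.card = d - 1 ∧ q.2.2 ≠ 0 ∧
      ∀ z ∈ q.1, ∀ x : ZMod p, (M q.1).eval x ≠ q.2.1 + q.2.2 * z := by
    intro q hq
    rw [hS, Finset.mem_sigma, Finset.mem_powersetCard] at hq
    have h1 := hq.2
    rw [hG, Finset.mem_filter] at h1
    refine ⟨hq.1.2, h1.2.1, fun z hz x => ?_⟩
    have h2 := h1.2.2 z hz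
    rw [hB, Finset.mem_filter] at h2
    exact h2.2 x
  refine Finset.card_le_card_of_injOn
    (fun q j => (polZ M (q.1, q.2)).coeff j) ?_ ?_
  · intro q hq
    obtain ⟨h1, h2, h3⟩ := hmem q (Finset.mem_coe.1 hq)
    have h4 : Good p d (polZ M (q.1, q.2)) :=
      good_polZ M (q.1, q.2) h1 (hM q.1 h1).1 (hM q.1 h1).2 h2 h3
    rw [Finset.mem_coe, Set.Finite.mem_toFinset]
    show Good p d (pol (fun j : Fin (d + 1) => (polZ M (q.1, q.2)).coeff j))
    rw [pol_of_coeff _ h4.1.le]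
    exact h4
  · intro q hq q' hq' h
    obtain ⟨h1, h2, h3⟩ := hmem q (Finset.mem_coe.1 hq)
    obtain ⟨h1', h2', h3'⟩ := hmem q' (Finset.mem_coe.1 hq')
    have h4 : Good p d (polZ M (q.1, q.2)) :=
      good_polZ M (q.1, q.2) h1 (hM q.1 h1).1 (hM q.1 h1).2 h2 h3
    have h4' : Good p d (polZ M (q'.1, q'.2)) :=
      good_polZ M (q'.1, q'.2) h1' (hM q'.1 h1').1 (hM q'.1 h1').2 h2' h3'
    have h5 : polZ M (q.1, q.2) = polZ M (q'.1, q'.2) := by
      rw [← pol_of_coeff _ h4.1.le, ← pol_of_coeff _ h4'.1.le]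
      exact congrArg pol h
    have h6 := polZ_inj M hM0 (q.1, q.2) (q'.1, q'.2) (hM q.1 h1).1 (hM q'.1 h1').1 h2 h2' h5
    rw [Prod.mk.injEq] at h6
    exact Sigma.ext h6.1 (heq_of_eq h6.2)

end Pool.Agent.Helper38.SP
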