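import Mathlib

/-!
# Project SP: coprimality modulo a prime implies coprimality over the rationals

BLUEPRINT. Lift a Bezout identity: there are `U V W : ℤ[X]` with `U A + V B = 1 + C p * W`. Suppose
`A, B` are not coprime over `ℚ`: a common zero `α` in `AlgebraicClosure ℚ` (`IsCoprime` over the
field is preserved and reflected by field extensions, e.g. `Polynomial.isCoprime_map`, and over an
algebraically closed field not coprime gives a common root: the gcd is not a unit). Then
`p W(α) = -1`. With `L = A.leadingCoeff`, `L α` is integral over `ℤ`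
(`isIntegral_leadingCoeff_smul`), so `L ^ m W(α)` is integral for `m = natDegree W`, hence
`L ^ m / p` is an integral rational number, so `p ∣ L ^ m`, contradiction.
-/

set_option autoImplicit false

open Polynomial

namespace Pool.Agent.Helper38.SP

private theorem sp_coprime_primitive_part (g : ℚ[X]) (hg : g ≠ 0) :
    ∃ D : ℤ[X], D.IsPrimitive ∧ D.natDegree = g.natDegree ∧
      D.map (Int.castRingHom ℚ) ∣ g := by
  obtain ⟨b, hb, hN⟩ := IsLocalization.integerNormalization_spec (nonZeroDivisors ℤ) g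
  have hb0 : b ≠ 0 := nonZeroDivisors.ne_zero hb
  set N := IsLocalization.integerNormalization (nonZeroDivisors ℤ) g with hNdef
  have hN0 : N ≠ 0 := by
    rw [hNdef, Ne, IsFractionRing.integerNormalization_eq_zero_iff]
    exact hg
  have hbQ : ((b : ℤ) : ℚ) ≠ 0 := by exact_mod_cast hb0
  have hN' : N.map (Int.castRingHom ℚ) = C ((b : ℤ) : ℚ) * g := by
    have h1 : N.map (Int.castRingHom ℚ) = b • g := hN
    rw [h1, ← Int.cast_smul_eq_zsmul ℚ, smul_eq_C_mul]
  refine ⟨N.primPart, N.isPrimitive_primPart, ?_, ?_⟩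
  · rw [N.natDegree_primPart]
    have h2 : (N.map (Int.castRingHom ℚ)).natDegree = N.natDegree :=
      natDegree_map_eq_of_injective (Int.castRingHom ℚ).injective_int N
    rw [← h2, hN', natDegree_C_mul hbQ]
  · have h3 : N.primPart.map (Int.castRingHom ℚ) ∣ N.map (Int.castRingHom ℚ) :=
      Polynomial.map_dvd _ N.primPart_dvd
    rw [hN'] at h3
    obtain ⟨r, hr⟩ := h3
    refine ⟨C (((b : ℤ) : ℚ)⁻¹) * r, ?_⟩
    calc g = C (((b : ℤ) : ℚ)⁻¹) * (C ((b : ℤ) : ℚ) * g) := by
            rw [← mul_assoc, ← C_mul, inv_mul_cancel₀ hbQ, C_1, one_mul]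
      _ = _ := by rw [hr]; ring

/-- coprimality modulo a prime not dividing the leading coefficient -/
theorem coprime_of_mod (p : ℕ) [Fact p.Prime] (A B : ℤ[X]) (hA : ¬ (p : ℤ) ∣ A.leadingCoeff)
    (h : IsCoprime (A.map (Int.castRingHom (ZMod p))) (B.map (Int.castRingHom (ZMod p)))) :
    IsCoprime (A.map (Int.castRingHom ℚ)) (B.map (Int.castRingHom ℚ)) := by
  have hA0 : A ≠ 0 := by
    rintro rfl
    exact hA (by simp)
  have hAQ : A.map (Int.castRingHom ℚ) ≠ 0 :=
    (Polynomial.map_ne_zero_iff (Int.castRingHom ℚ).injective_int).2 hA0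
  by_contra hnc
  set g := EuclideanDomain.gcd (A.map (Int.castRingHom ℚ)) (B.map (Int.castRingHom ℚ)) with hg
  have hgu : ¬ IsUnit g := fun hu => hnc (EuclideanDomain.gcd_isUnit_iff.1 hu)
  have hg0 : g ≠ 0 := fun h0 => hAQ (EuclideanDomain.gcd_eq_zero_iff.1 h0).1
  obtain ⟨D, hD, hdeg, hDg⟩ := sp_coprime_primitive_part g hg0
  have hDA : D ∣ A := by
    rw [IsPrimitive.Int.dvd_iff_map_cast_dvd_map_cast D A hD]
    exact hDg.trans (EuclideanDomain.gcd_dvd_left _ _)
  have hDB : D ∣ B := by
    rw [IsPrimitive.Int.dvd_iff_map_cast_dvd_map_cast D B hD]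
    exact hDg.trans (EuclideanDomain.gcd_dvd_right _ _)
  have hu : IsUnit (D.map (Int.castRingHom (ZMod p))) :=
    h.isUnit_of_dvd' (Polynomial.map_dvd _ hDA) (Polynomial.map_dvd _ hDB)
  have hlc : (Int.castRingHom (ZMod p)) D.leadingCoeff ≠ 0 := by
    intro h0
    apply hA
    have h1 : (p : ℤ) ∣ D.leadingCoeff := by
      rw [← ZMod.intCast_zmod_eq_zero_iff_dvd D.leadingCoeff p]
      simpa using h0
    obtain ⟨E, hE⟩ := hDA
    rw [hE, leadingCoeff_mul]
    exact h1.mul_right _
  have hd1 : (D.map (Int.castRingHom (ZMod p))).natDegree = D.natDegree :=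
    natDegree_map_of_leadingCoeff_ne_zero _ hlc
  have hd0 : D.natDegree = 0 := by
    rw [← hd1]
    exact natDegree_eq_zero_of_isUnit hu
  apply hgu
  rw [isUnit_iff_degree_eq_zero, degree_eq_natDegree hg0, ← hdeg, hd0]
  rfl

end Pool.Agent.Helper38.SP
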