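import Pool.Agent.Helper30.AV.SpreadCore

/-!
# Project SP: a Frobenius element at a given prime

BLUEPRINT. Let `M` be the splitting field in `AlgebraicClosure ℚ` of the product of the nonzero
elements of `S` (a Galois number field; see `Pool.TP.Roots.main` in `Pool/Agent/TP/Roots.lean`),
`P` a prime ideal of `𝓞 M` over `p`, `σ` a Frobenius element at `P`
(`Pool.Agent.Helper30.AV.exists_frob`: `σ • x - x ^ p ∈ P`), `τ` a lift of `σ` to the closure
(`AlgEquiv.liftNormal`). Let `h ∈ S` with `L = h.leadingCoeff` prime to `p` and `α` a zero of `h`;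
`β = L α` is integral, an element of `𝓞 M`, and a zero of `h₁ = integralNormalization h` (or work
with `L^n h(β/L)` directly). `h₁` mod `p` has the zeros `L z`, `z` a zero of `h` mod `p`.
(a) If `h` mod `p` has `natDegree h` distinct zeros in `F_p`, then `h₁` mod `p` is the product of
the `X - L z`, so `β ≡ L z mod P` for one of them, hence `σ β ≡ β^p ≡ β`, and if `σ β ≠ β` then
`h₁ = (X - β)(X - σ β) q` over `𝓞 M` would have a double zero mod `P` (or Taylor expansion as in
`Pool.Agent.Helper30.AV.fixed_of_simple`, which is nearly this statement), impossible as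
`h₁` mod `p` is separable. So `σ β = β` and `τ α = α`.
(b) If `h` has no zero mod `p` and `τ α = α` then `σ β = β`, so `β^p ≡ β mod P`, `β` is congruent
mod `P` to an integer `n` (zeros of `X^p - X` in the field `𝓞 M ⧸ P`, see `card_roots` in
`Pool/Agent/TP/Roots.lean`), and `n` is a zero of `h₁` mod `p`, so `n / L` is a zero of `h` mod `p`:
contradiction.
-/

set_option autoImplicit false

open Polynomial

namespace Pool.Agent.Helper38.SP

open NumberField in
/-- a zero of an integral polynomial with distinct zeros in the prime field modulo `p` is fixed by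
a Frobenius element -/
theorem frob_fix {M : Type} [Field M] [NumberField M] (p : ℕ) [Fact p.Prime] (P : Ideal (𝓞 M))
    [hP : P.IsPrime] (hpP : (p : 𝓞 M) ∈ P) (σ : M ≃ₐ[ℚ] M) (hσ : ∀ x : 𝓞 M, σ • x - x ^ p ∈ P)
    (f : ℤ[X]) (Z : Finset (ZMod p))
    (hZ : f.map (Int.castRingHom (ZMod p)) = ∏ z ∈ Z, (X - C z)) (β : 𝓞 M)
    (hβ : aeval β f = 0) : σ • β = β := by
  classical
  obtain ⟨-, k, _, π, ρ, hπ⟩ := Pool.Agent.Helper30.AV.residue p P hpP
  have hβs : aeval (σ • β) f = 0 := by
    have h4 := aeval_algHom_apply (MulSemiringAction.toAlgHom ℤ (𝓞 M) σ) β f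
    rw [hβ, map_zero] at h4
    exact h4
  by_contra hne
  set F : (𝓞 M)[X] := f.map (Int.castRingHom (𝓞 M)) with hF
  have hFβ : F.eval β = 0 := by
    rw [hF, eval_map]
    exact hβ
  have hFs : F.eval (σ • β) = 0 := by
    rw [hF, eval_map]
    exact hβs
  obtain ⟨q, hq⟩ := dvd_iff_isRoot.2 hFβ
  have hqs : q.eval (σ • β) = 0 := by
    rw [hq, eval_mul, eval_sub, eval_X, eval_C] at hFs
    exact (mul_eq_zero.1 hFs).resolve_left (sub_ne_zero.2 hne)
  have hFπ : F.map π = ∏ z ∈ Z, (X - C (ρ z)) := by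
    have h1 : F.map π = (f.map (Int.castRingHom (ZMod p))).map ρ := by
      rw [hF, map_map, map_map]
      congr 1
      exact RingHom.ext_int _ _
    rw [h1, hZ, Polynomial.map_prod]
    refine Finset.prod_congr rfl fun z _ => ?_
    rw [Polynomial.map_sub, map_X, map_C]
  have h2 : (F.map π).eval (π β) = 0 := by
    rw [eval_map, eval₂_at_apply, hFβ, map_zero]
  rw [hFπ, eval_prod, Finset.prod_eq_zero_iff] at h2
  obtain ⟨z₀, hz₀, h3⟩ := h2
  rw [eval_sub, eval_X, eval_C, sub_eq_zero] at h3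
  have h4 : π (σ • β) = π β := by
    have h5 := (hπ _).2 (hσ β)
    rw [map_sub, map_pow, sub_eq_zero] at h5
    rw [h5, h3, ← map_pow, ZMod.pow_card]
  have h5 : (q.map π).eval (π β) = 0 := by
    rw [← h4, eval_map, eval₂_at_apply, hqs, map_zero]
  have h6 : (X - C (ρ z₀)) * q.map π = (X - C (ρ z₀)) * ∏ z ∈ Z.erase z₀, (X - C (ρ z)) := by
    rw [Finset.mul_prod_erase Z (fun z => X - C (ρ z)) hz₀, ← hFπ, hq, Polynomial.map_mul,
      Polynomial.map_sub, map_X, map_C, h3]
  have h7 := mul_left_cancel₀ (X_sub_C_ne_zero _) h6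
  rw [h7, h3, eval_prod, Finset.prod_eq_zero_iff] at h5
  obtain ⟨z, hz, h8⟩ := h5
  rw [eval_sub, eval_X, eval_C, sub_eq_zero] at h8
  exact (Finset.mem_erase.1 hz).1 (ρ.injective h8).symm

open NumberField in
/-- a zero of an integral polynomial without zeros in the prime field modulo `p` is moved by
a Frobenius element -/
theorem frob_move {M : Type} [Field M] [NumberField M] (p : ℕ) [Fact p.Prime] (P : Ideal (𝓞 M))
    [hP : P.IsPrime] (hpP : (p : 𝓞 M) ∈ P) (σ : M ≃ₐ[ℚ] M) (hσ : ∀ x : 𝓞 M, σ • x - x ^ p ∈ P)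
    (f : ℤ[X]) (hf : ∀ z : ZMod p, (f.map (Int.castRingHom (ZMod p))).eval z ≠ 0) (β : 𝓞 M)
    (hβ : aeval β f = 0) : σ • β ≠ β := by
  intro hfix
  obtain ⟨-, k, _, π, ρ, hπ⟩ := Pool.Agent.Helper30.AV.residue p P hpP
  have hcp : CharP k p := charP_of_injective_ringHom ρ.injective p
  have h1 : (π β) ^ p = π β := by
    have h5 := (hπ _).2 (hσ β)
    rw [map_sub, map_pow, sub_eq_zero, hfix] at h5
    exact h5.symm
  obtain ⟨n, hn⟩ := (mem_bot_iff_intCast p k).1 ((Subfield.mem_bot_iff_pow_eq_self k p).2 h1)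
  apply hf (n : ZMod p)
  apply ρ.injective
  rw [map_zero]
  have h2 : ρ ((f.map (Int.castRingHom (ZMod p))).eval (n : ZMod p)) =
      eval₂ (Int.castRingHom k) (π β) f := by
    rw [eval_map, hom_eval₂, map_intCast, hn]
    congr 1
    exact RingHom.ext_int _ _
  have h3 : eval₂ (Int.castRingHom k) (π β) f = π (aeval β f) := by
    rw [aeval_def, hom_eval₂]
    congr 1
    exact RingHom.ext_int _ _
  rw [h2, h3, hβ, map_zero]

/-- the normalised polynomial modulo `p` -/
theorem norm_split (p : ℕ) [Fact p.Prime] (h : ℤ[X]) (hL : ¬ (p : ℤ) ∣ h.leadingCoeff)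
    (hn : 1 ≤ h.natDegree) (Z : Finset (ZMod p)) (hZ : Z.card = h.natDegree)
    (hz : ∀ z ∈ Z, (h.map (Int.castRingHom (ZMod p))).eval z = 0) :
    ∃ Z' : Finset (ZMod p),
      h.integralNormalization.map (Int.castRingHom (ZMod p)) = ∏ z ∈ Z', (X - C z) := by
  classical
  have hL' : Int.castRingHom (ZMod p) h.leadingCoeff ≠ 0 := by
    rw [eq_intCast]
    intro h0
    exact hL ((ZMod.intCast_zmod_eq_zero_iff_dvd _ _).1 h0)
  have h0 : h ≠ 0 := by
    rintro rfl
    simp at hn
  set g := h.integralNormalization.map (Int.castRingHom (ZMod p)) with hg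
  have hgm : g.Monic := (monic_integralNormalization h0).map _
  have hgd : g.natDegree = h.natDegree := by
    rw [hg, (monic_integralNormalization h0).natDegree_map, natDegree_integralNormalization]
  refine ⟨Z.image fun z => Int.castRingHom (ZMod p) h.leadingCoeff * z, ?_⟩
  set Z' := Z.image fun z => Int.castRingHom (ZMod p) h.leadingCoeff * z with hZ'
  have hcard : Z'.card = h.natDegree := by
    rw [hZ', Finset.card_image_of_injective _ (mul_right_injective₀ hL'), hZ]
  have h1 : Z'.val ≤ g.roots := by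
    rw [Multiset.le_iff_subset Z'.nodup]
    intro y hy
    obtain ⟨z, hzZ, rfl⟩ := Finset.mem_image.1 (Finset.mem_def.2 hy)
    rw [mem_roots hgm.ne_zero, IsRoot.def, hg, eval_map,
      integralNormalization_eval₂_leadingCoeff_mul hn, ← eval_map, hz z hzZ, mul_zero]
  have h2 : g.roots.card ≤ g.natDegree := card_roots' _
  have h3 := Multiset.card_le_card h1
  have h4 : Z'.val.card = h.natDegree := hcard
  have h5 : g.roots = Z'.val := (Multiset.eq_of_le_of_card_le h1 (by omega)).symm
  have h6 : g.roots.card = g.natDegree := by rw [h5]; omega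
  have h7 := prod_multiset_X_sub_C_of_monic_of_roots_card_eq hgm h6
  rw [h5] at h7
  exact h7.symm

theorem norm_noroot (p : ℕ) [Fact p.Prime] (h : ℤ[X]) (hL : ¬ (p : ℤ) ∣ h.leadingCoeff)
    (hn : 1 ≤ h.natDegree) (hz : ∀ z : ZMod p, (h.map (Int.castRingHom (ZMod p))).eval z ≠ 0)
    (z : ZMod p) : (h.integralNormalization.map (Int.castRingHom (ZMod p))).eval z ≠ 0 := by
  have hL' : Int.castRingHom (ZMod p) h.leadingCoeff ≠ 0 := by
    rw [eq_intCast]
    intro h0
    exact hL ((ZMod.intCast_zmod_eq_zero_iff_dvd _ _).1 h0)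
  have h1 : z = Int.castRingHom (ZMod p) h.leadingCoeff *
      ((Int.castRingHom (ZMod p) h.leadingCoeff)⁻¹ * z) := by
    rw [mul_inv_cancel_left₀ hL']
  rw [h1, eval_map, integralNormalization_eval₂_leadingCoeff_mul hn]
  refine mul_ne_zero (pow_ne_zero _ hL') ?_
  rw [← eval_map]
  exact hz _

open NumberField in
/-- a prime of a number field over `p` -/
theorem exists_prime_over (M : Type) [Field M] [NumberField M] (p : ℕ) [Fact p.Prime] :
    ∃ P : Ideal (𝓞 M), P.IsPrime ∧ (p : 𝓞 M) ∈ P := by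
  have h1 : Ideal.span {(p : 𝓞 M)} ≠ ⊤ := by
    rw [Ne, Ideal.span_singleton_eq_top]
    intro hu
    have := Algebra.IsIntegral.isLocalHom ℤ (𝓞 M)
    have h2 : IsUnit (p : ℤ) := isUnit_of_map_unit (algebraMap ℤ (𝓞 M)) _ (by simpa using hu)
    exact (Nat.prime_iff_prime_int.1 (Fact.out : p.Prime)).not_isUnit h2
  obtain ⟨P, hP, hle⟩ := Ideal.exists_le_maximal _ h1
  exact ⟨P, hP.isPrime, hle (Ideal.mem_span_singleton_self _)⟩

theorem normal_rat : Normal ℚ (AlgebraicClosure ℚ) := by
  have : IsAlgClosure ℚ (AlgebraicClosure ℚ) := @AlgebraicClosure.instIsAlgClosure ℚ _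
  exact IsAlgClosure.normal ℚ (AlgebraicClosure ℚ)

/-- a Frobenius element at `p` -/
theorem exists_frob_at (S : Finset ℤ[X]) (p : ℕ) [Fact p.Prime] :
    ∃ τ : AlgebraicClosure ℚ ≃ₐ[ℚ] AlgebraicClosure ℚ, ∀ h ∈ S, ¬ (p : ℤ) ∣ h.leadingCoeff →
      ((∃ Z : Finset (ZMod p), Z.card = h.natDegree ∧
          ∀ z ∈ Z, (h.map (Int.castRingHom (ZMod p))).eval z = 0) →
        ∀ α : AlgebraicClosure ℚ, aeval α h = 0 → τ α = α) ∧
      ((∀ z : ZMod p, (h.map (Int.castRingHom (ZMod p))).eval z ≠ 0) →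
        ∀ α : AlgebraicClosure ℚ, aeval α h = 0 → τ α ≠ α) := by
  classical
  let F : ℚ[X] := ∏ h ∈ S.filter (fun h => h ≠ 0), h.map (Int.castRingHom ℚ)
  have hF0 : F ≠ 0 := Finset.prod_ne_zero_iff.2 fun h hh =>
    (Polynomial.map_ne_zero_iff (Int.castRingHom ℚ).injective_int).2 (Finset.mem_filter.1 hh).2
  let M : IntermediateField ℚ (AlgebraicClosure ℚ) :=
    IntermediateField.adjoin ℚ (F.rootSet (AlgebraicClosure ℚ))
  have hspl : IsSplittingField ℚ M F :=
    IntermediateField.adjoin_rootSet_isSplittingField (IsAlgClosed.splits _)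
  have hfd : FiniteDimensional ℚ M := IsSplittingField.finiteDimensional M F
  have hnorm : Normal ℚ M := Normal.of_isSplittingField F
  have hgal : IsGalois ℚ M := ⟨⟩
  have hnf : NumberField M := ⟨⟩
  have hnΩ : Normal ℚ (AlgebraicClosure ℚ) := normal_rat
  have haev : ∀ (h : ℤ[X]) (β : AlgebraicClosure ℚ),
      aeval β (h.map (Int.castRingHom ℚ)) = aeval β h := by
    intro h β
    exact aeval_map_algebraMap ℚ β h
  have hroots : ∀ h ∈ S, h ≠ 0 → ∀ β : AlgebraicClosure ℚ, aeval β h = 0 → β ∈ M := by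
    intro h hh hh0 β hβ
    apply IntermediateField.subset_adjoin
    rw [mem_rootSet]
    refine ⟨hF0, ?_⟩
    obtain ⟨q, hq⟩ : h.map (Int.castRingHom ℚ) ∣ F :=
      Finset.dvd_prod_of_mem (fun h : ℤ[X] => h.map (Int.castRingHom ℚ))
        (Finset.mem_filter.2 ⟨hh, hh0⟩)
    rw [hq, map_mul, haev, hβ, zero_mul]
  obtain ⟨P, hP, hpP⟩ := exists_prime_over M p
  obtain ⟨σ, hσ⟩ := Pool.Agent.Helper30.AV.exists_frob p P hpP
  let τ : AlgebraicClosure ℚ ≃ₐ[ℚ] AlgebraicClosure ℚ := σ.liftNormal (AlgebraicClosure ℚ)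
  have hτ : ∀ x : M, τ (x : AlgebraicClosure ℚ) = ((σ x : M) : AlgebraicClosure ℚ) := fun x =>
    AlgEquiv.liftNormal_commutes σ (AlgebraicClosure ℚ) x
  refine ⟨τ, fun h hh hL => ?_⟩
  have h0 : h ≠ 0 := by
    rintro rfl
    exact hL (by simp)
  have hL0 : ((h.leadingCoeff : ℤ) : AlgebraicClosure ℚ) ≠ 0 := by
    rw [Ne, Int.cast_eq_zero, leadingCoeff_eq_zero]
    exact h0
  -- the integral element
  have key : ∀ α : AlgebraicClosure ℚ, aeval α h = 0 → 1 ≤ h.natDegree ∧ ∃ β : NumberField.RingOfIntegers M,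
      aeval β h.integralNormalization = 0 ∧ (τ α = α ↔ σ • β = β) := by
    intro α hα
    have hn : 1 ≤ h.natDegree := by
      by_contra hn
      have hn0 : h.natDegree = 0 := by omega
      rw [eq_C_of_natDegree_eq_zero hn0, aeval_C, eq_intCast (algebraMap ℤ (AlgebraicClosure ℚ)),
        Int.cast_eq_zero] at hα
      apply h0
      rw [eq_C_of_natDegree_eq_zero hn0, hα, C_0]
    refine ⟨hn, ?_⟩
    have h1 : aeval (((h.leadingCoeff : ℤ) : AlgebraicClosure ℚ) * α) h.integralNormalization = 0 := by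
      have h2 := integralNormalization_aeval_eq_zero hα
        (fun x hx => by
          rw [eq_intCast (algebraMap ℤ (AlgebraicClosure ℚ)), Int.cast_eq_zero] at hx
          exact hx)
      rw [eq_intCast (algebraMap ℤ (AlgebraicClosure ℚ))] at h2
      exact h2
    have hαM : α ∈ M := hroots h hh h0 α hα
    let b : M := ((h.leadingCoeff : ℤ) : M) * ⟨α, hαM⟩
    have hb : ((b : M) : AlgebraicClosure ℚ) = ((h.leadingCoeff : ℤ) : AlgebraicClosure ℚ) * α := by
      simp [b]
    have hb0 : aeval b h.integralNormalization = 0 := by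
      apply (algebraMap M (AlgebraicClosure ℚ)).injective
      rw [map_zero, ← aeval_algebraMap_apply]
      have : algebraMap M (AlgebraicClosure ℚ) b = ((h.leadingCoeff : ℤ) : AlgebraicClosure ℚ) * α :=
        hb
      rw [this]
      exact h1
    have hint : IsIntegral ℤ b := ⟨h.integralNormalization, monic_integralNormalization h0, hb0⟩
    refine ⟨⟨b, hint⟩, ?_, ?_⟩
    · apply FaithfulSMul.algebraMap_injective (NumberField.RingOfIntegers M) M
      rw [map_zero, ← aeval_algebraMap_apply]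
      exact hb0
    · have h3 : σ • (⟨b, hint⟩ : NumberField.RingOfIntegers M) = ⟨b, hint⟩ ↔ σ b = b := by
        constructor
        · intro h4
          exact congrArg (fun x : NumberField.RingOfIntegers M => (x : M)) h4
        · intro h4
          exact NumberField.RingOfIntegers.ext h4
      refine Iff.trans ?_ h3.symm
      have h5 : τ (b : AlgebraicClosure ℚ) = ((h.leadingCoeff : ℤ) : AlgebraicClosure ℚ) * τ α := by
        rw [hb, map_mul, map_intCast]
      constructor
      · intro h6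
        rw [h6, ← hb, hτ] at h5
        exact Subtype.ext h5
      · intro h6
        rw [hτ, h6, hb] at h5
        exact (mul_left_cancel₀ hL0 h5).symm
  constructor
  · rintro ⟨Z, hZ, hz⟩ α hα
    obtain ⟨hn, β, hβ, hiff⟩ := key α hα
    obtain ⟨Z', hZ'⟩ := norm_split p h hL hn Z hZ hz
    exact hiff.2 (frob_fix p P hpP σ hσ _ Z' hZ' β hβ)
  · intro hz α hα
    obtain ⟨hn, β, hβ, hiff⟩ := key α hα
    intro h6
    exact frob_move p P hpP σ hσ _ (norm_noroot p h hL hn hz) β hβ (hiff.1 h6)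

end Pool.Agent.Helper38.SP
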