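import Pool.Agent.TP.Roots

/-!
# Project SP: the Frobenius density theorem for polynomials that need not be monic

BLUEPRINT. For `h` with leading coefficient `L` and degree `n ≥ 1` let `h₁` be
`integralNormalization h` (monic, `L^(n-1) h(x) = h₁(L x)`; look at the Mathlib lemmas on
`Polynomial.integralNormalization`); if `n = 0` then `h` is a nonzero constant, nothing to do
(`h` has no zeros in the closure, and none modulo `p` unless `p ∣ L`; take `h₁ = 1`).
`x ↦ L x` is a bijection from the zeros of `h` to the zeros of `h₁` in `AlgebraicClosure ℚ`,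
compatible with `τ`, and in `ZMod p` if `p ∤ L`. `h₁` is separable over `ℚ` as `h` is (e.g. the
number of the roots in the closure is the degree, or scaling). Apply `Pool.TP.frobenius_roots` to
the set of the `h₁` and remove the finitely many primes dividing one of the leading coefficients
(`h ≠ 0` as `h` is separable).
-/

set_option autoImplicit false

open Polynomial

namespace Pool.Agent.Helper38.SP

theorem rnm_zero_iff {A : Type*} [Field A] (φ : ℤ →+* A) (h : ℤ[X])
    (hL : φ h.leadingCoeff ≠ 0) (x : A) :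
    h.integralNormalization.eval₂ φ (φ h.leadingCoeff * x) = 0 ↔ h.eval₂ φ x = 0 := by
  rcases Nat.eq_zero_or_pos h.natDegree with hd | hd
  · have h0 : h.leadingCoeff ≠ 0 := fun h0 => hL (by rw [h0, map_zero])
    have h1 : h = C h.leadingCoeff := by
      rw [leadingCoeff, hd]
      exact eq_C_of_natDegree_eq_zero hd
    have h2 : h.integralNormalization = 1 := by
      rw [h1]
      exact integralNormalization_C h0
    have h3 : h.eval₂ φ x = φ h.leadingCoeff := by
      conv_lhs => rw [h1]
      rw [eval₂_C]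
    rw [h2, h3, eval₂_one]
    constructor
    · intro h4
      exact absurd h4 one_ne_zero
    · intro h4
      exact absurd h4 hL
  · rw [integralNormalization_eval₂_leadingCoeff_mul hd, mul_eq_zero]
    constructor
    · rintro (h1 | h1)
      · exact absurd h1 (pow_ne_zero _ hL)
      · exact h1
    · exact Or.inr

theorem rnm_card {A : Type*} [Field A] (φ : ℤ →+* A) (h : ℤ[X])
    (hL : φ h.leadingCoeff ≠ 0) (Q : A → Prop) (hQ : ∀ x, Q (φ h.leadingCoeff * x) ↔ Q x) :
    Nat.card {x : A // h.eval₂ φ x = 0 ∧ Q x} =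
      Nat.card {x : A // h.integralNormalization.eval₂ φ x = 0 ∧ Q x} := by
  refine Nat.card_congr (Equiv.subtypeEquiv (Equiv.mulLeft₀ _ hL) fun x => ?_)
  have h1 : (Equiv.mulLeft₀ (φ h.leadingCoeff) hL) x = φ h.leadingCoeff * x := rfl
  rw [h1, rnm_zero_iff φ h hL, hQ]

theorem rnm_separable (h : ℤ[X]) (hs : (h.map (Int.castRingHom ℚ)).Separable) :
    (h.integralNormalization.map (Int.castRingHom ℚ)).Separable := by
  have hne : h ≠ 0 := by
    rintro rfl
    rw [Polynomial.map_zero] at hs
    exact not_separable_zero hs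
  have hL0 : h.leadingCoeff ≠ 0 := leadingCoeff_ne_zero.2 hne
  have hL : (Int.castRingHom ℚ) h.leadingCoeff ≠ 0 := by
    rw [eq_intCast]
    exact_mod_cast hL0
  set L : ℚ := (Int.castRingHom ℚ) h.leadingCoeff with hLdef
  rcases Nat.eq_zero_or_pos h.natDegree with hd | hd
  · have h1 : h = C h.leadingCoeff := by
      rw [leadingCoeff, hd]
      exact eq_C_of_natDegree_eq_zero hd
    have h2 : h.integralNormalization = 1 := by
      rw [h1]
      exact integralNormalization_C hL0
    rw [h2, Polynomial.map_one]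
    exact separable_one
  · have h1 := integralNormalization_eval₂_leadingCoeff_mul (p := h) hd
      ((C : ℚ →+* ℚ[X]).comp (Int.castRingHom ℚ)) X
    have h2 : h.eval₂ ((C : ℚ →+* ℚ[X]).comp (Int.castRingHom ℚ)) X =
        h.map (Int.castRingHom ℚ) := rfl
    rw [h2, RingHom.comp_apply, ← hLdef, ← eval₂_map] at h1
    set g : ℚ[X] := h.integralNormalization.map (Int.castRingHom ℚ) with hg
    have h3 : g.comp (C L * X) = C L ^ (h.natDegree - 1) * h.map (Int.castRingHom ℚ) := h1
    have h4 : (g.comp (C L * X)).Separable := by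
      rw [h3]
      rw [← C_pow]
      have hu : IsUnit (C (L ^ (h.natDegree - 1))) :=
        isUnit_C.2 (isUnit_iff_ne_zero.2 (pow_ne_zero _ hL))
      obtain ⟨u, hu⟩ := hu
      rw [← hu]
      exact (Polynomial.separable_def _).2 (by
        have := (Polynomial.separable_def _).1 hs
        rw [hu, derivative_C_mul]
        rw [isCoprime_mul_unit_left_left, isCoprime_mul_unit_left_right]
        · exact this
        · exact isUnit_C.2 (isUnit_iff_ne_zero.2 (pow_ne_zero _ hL))
        · exact isUnit_C.2 (isUnit_iff_ne_zero.2 (pow_ne_zero _ hL)))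
    have h5 : IsCoprime (g.comp (C L * X)) ((derivative g).comp (C L * X)) := by
      have h6 := (Polynomial.separable_def _).1 h4
      rw [derivative_comp, derivative_C_mul, derivative_X, mul_one] at h6
      exact h6.of_mul_right_right
    have h7 := h5.map (compRingHom (C L⁻¹ * X))
    have h8 : ∀ f : ℚ[X], compRingHom (C L⁻¹ * X) (f.comp (C L * X)) = f := by
      intro f
      rw [coe_compRingHom_apply, comp_assoc]
      have : (C L * X : ℚ[X]).comp (C L⁻¹ * X) = X := by
        rw [mul_comp, C_comp, X_comp, ← mul_assoc, ← C_mul, mul_inv_cancel₀ hL, C_1, one_mul]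
      rw [this, comp_X]
    rw [h8, h8] at h7
    exact (Polynomial.separable_def _).2 h7

/-- Frobenius density theorem (existence part), not necessarily monic polynomials -/
theorem frobenius_roots_nm (S : Finset ℤ[X])
    (hS : ∀ h ∈ S, (h.map (Int.castRingHom ℚ)).Separable)
    (τ : AlgebraicClosure ℚ ≃ₐ[ℚ] AlgebraicClosure ℚ) :
    {p : ℕ | p.Prime ∧ ∀ h ∈ S, ¬ (p : ℤ) ∣ h.leadingCoeff ∧
      Nat.card {r : ZMod p // (h.map (Int.castRingHom (ZMod p))).eval r = 0} =
      Nat.card {α : AlgebraicClosure ℚ // aeval α h = 0 ∧ τ α = α}}.Infinite := by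
  classical
  have hne : ∀ h ∈ S, h ≠ 0 := by
    rintro h hh rfl
    have := hS 0 hh
    rw [Polynomial.map_zero] at this
    exact not_separable_zero this
  have hinf := Pool.TP.frobenius_roots (S.image integralNormalization) (by
    intro g hg
    obtain ⟨h, hh, rfl⟩ := Finset.mem_image.1 hg
    exact ⟨monic_integralNormalization (hne h hh), rnm_separable h (hS h hh)⟩) τ
  have hbad : {p : ℕ | ∃ h ∈ S, (p : ℤ) ∣ h.leadingCoeff}.Finite := by
    have h1 : {p : ℕ | ∃ h ∈ S, (p : ℤ) ∣ h.leadingCoeff} =
        ⋃ h ∈ S, {p : ℕ | (p : ℤ) ∣ h.leadingCoeff} := by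
      ext p
      simp
    rw [h1]
    refine S.finite_toSet.biUnion fun h hh => ?_
    have h2 : h.leadingCoeff.natAbs ≠ 0 :=
      Int.natAbs_ne_zero.2 (leadingCoeff_ne_zero.2 (hne h hh))
    refine (Set.finite_le_nat h.leadingCoeff.natAbs).subset fun p hp => ?_
    exact Nat.le_of_dvd (Nat.pos_of_ne_zero h2) (Int.natCast_dvd.1 hp)
  refine (hinf.sdiff hbad).mono ?_
  rintro p ⟨⟨hp, hcard⟩, hpb⟩
  have : Fact p.Prime := ⟨hp⟩
  refine ⟨hp, fun h hh => ?_⟩
  have hpL : ¬ (p : ℤ) ∣ h.leadingCoeff := fun hd => hpb ⟨h, hh, hd⟩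
  refine ⟨hpL, ?_⟩
  have h1 := hcard _ (Finset.mem_image_of_mem integralNormalization hh)
  have h2 : (Int.castRingHom (ZMod p)) h.leadingCoeff ≠ 0 := by
    rw [eq_intCast, Ne, ZMod.intCast_zmod_eq_zero_iff_dvd]
    exact hpL
  have h3 := rnm_card (Int.castRingHom (ZMod p)) h h2 (fun _ => True) (fun _ => Iff.rfl)
  have h4 : (algebraMap ℤ (AlgebraicClosure ℚ)) h.leadingCoeff ≠ 0 := by
    rw [eq_intCast]
    exact_mod_cast leadingCoeff_ne_zero.2 (hne h hh)
  have h5 := rnm_card (algebraMap ℤ (AlgebraicClosure ℚ)) h h4 (fun x => τ x = x) (fun x => by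
    rw [map_mul, eq_intCast, map_intCast]
    constructor
    · intro h6
      rw [eq_intCast] at h4
      exact mul_left_cancel₀ h4 h6
    · intro h6
      rw [h6])
  simp only [and_true] at h3
  simp only [eval_map] at h1 ⊢
  rw [h3, h1]
  exact h5.symm

end Pool.Agent.Helper38.SP
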