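import Pool.Agent.Helper38.SP.Defs
import Pool.Agent.Helper38.SP.Coprime
import Pool.Agent.Helper38.SP.RootsNM
import Pool.Agent.Helper38.SP.FrobAt

/-!
# Project SP: good at one prime implies good at infinitely many primes

BLUEPRINT. Put `A_i = derivative (f i)`, `B_i = (derivative (f i)).comp (f i)` in `ℤ[X]`. Since
`f i` mod `p₀` has degree `d ≥ natDegree (f i)`, `natDegree (f i) = d`, `p₀ ∤` its leading
coefficient; since `A_i` mod `p₀` has degree `d - 1` (`Good.derivative_eq`), `A_i` has degree
`d - 1` and `p₀ ∤ A_i.leadingCoeff`; also `p₀ ∤ B_i.leadingCoeff` (`leadingCoeff_comp`).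
Separability over `ℚ`: `A_i` mod `p₀` is a constant times a product of distinct linear factors, so
separable, `coprime_of_mod` with `A = A_i`, `B = derivative A_i`. `B_i`: its derivative is
`(A_i' ∘ f_i) * A_i`; `(A_i, A_i')` coprime over `ℚ` gives `(A_i ∘ f_i, A_i' ∘ f_i)` coprime (compose
the Bezout identity), and `(A_i, B_i)` is coprime over `ℚ` by `coprime_of_mod`: mod `p₀` the zeros
of `A_i` are in `F_p₀` and not zeros of `B_i` by `Good`. Now `exists_frob_at` for
`S = {A_i} ∪ {B_i}` at `p₀` gives `τ` fixing all zeros of `A_i` (there are `d - 1` of them in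
`AlgebraicClosure ℚ`, separable) and no zero of `B_i`. `frobenius_roots_nm` gives infinitely many
`p` with `p ∤` leading coefficients, `d - 1` zeros of `A_i` in `F_p` and no zero of `B_i` in `F_p`:
`Good p d` (`natDegree` of `f i` mod `p` is `d`: `p ∤ d * lc(f i) = lc(A_i)`).
-/

set_option autoImplicit false

open Polynomial

namespace Pool.Agent.Helper38.SP

/-- the degrees and the leading coefficients -/
private theorem tr_lead (d : ℕ) (hd : 2 ≤ d) (f : ℤ[X]) (hf : f.natDegree ≤ d)
    (p : ℕ) [Fact p.Prime] (h : Good p d (f.map (Int.castRingHom (ZMod p)))) :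
    f.natDegree = d ∧ (derivative f).natDegree = d - 1 ∧
      ¬ (p : ℤ) ∣ (derivative f).leadingCoeff ∧
      ¬ (p : ℤ) ∣ ((derivative f).comp f).leadingCoeff := by
  obtain ⟨Z, -, hdeg, -⟩ := h.derivative_eq
  rw [derivative_map] at hdeg
  have h1 : f.natDegree = d := by
    have h2 : (f.map (Int.castRingHom (ZMod p))).natDegree ≤ f.natDegree := natDegree_map_le
    have h3 := h.1
    omega
  have h2 : (derivative f).natDegree = d - 1 := by
    have h3 : ((derivative f).map (Int.castRingHom (ZMod p))).natDegree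
      ≤ (derivative f).natDegree := natDegree_map_le
    have h4 := natDegree_derivative_le f
    omega
  have h0 : (derivative f).map (Int.castRingHom (ZMod p)) ≠ 0 := by
    rw [← derivative_map]
    exact h.derivative_ne_zero
  have h3 : ¬ (p : ℤ) ∣ (derivative f).leadingCoeff := by
    intro hdvd
    have h4 : ((derivative f).map (Int.castRingHom (ZMod p))).leadingCoeff = 0 := by
      rw [leadingCoeff, hdeg, coeff_map, ← h2]
      change ((((derivative f).leadingCoeff : ℤ)) : ZMod p) = 0
      exact (ZMod.intCast_zmod_eq_zero_iff_dvd _ p).2 hdvd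
    exact h0 (leadingCoeff_eq_zero.1 h4)
  have hp : Prime (p : ℤ) := Nat.prime_iff_prime_int.1 (Fact.out)
  refine ⟨h1, h2, h3, ?_⟩
  have h4 : (derivative f).leadingCoeff = f.leadingCoeff * d := by
    rw [leadingCoeff, h2, coeff_derivative, leadingCoeff, h1]
    have h5 : d - 1 + 1 = d := by omega
    rw [h5]
    have h6 : (((d - 1 : ℕ) : ℤ) + 1) = (d : ℤ) := by omega
    rw [h6]
  have h5 : ¬ (p : ℤ) ∣ f.leadingCoeff := by
    intro hdvd
    apply h3
    rw [h4]
    exact hdvd.mul_right _
  rw [leadingCoeff_comp (by omega)]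
  intro hdvd
  rcases hp.dvd_or_dvd hdvd with h6 | h6
  · exact h3 h6
  · exact h5 (hp.dvd_of_dvd_pow h6)

private theorem tr_sepA (d : ℕ) (hd : 2 ≤ d) (f : ℤ[X]) (hf : f.natDegree ≤ d)
    (p : ℕ) [Fact p.Prime] (h : Good p d (f.map (Int.castRingHom (ZMod p)))) :
    IsCoprime ((derivative f).map (Int.castRingHom ℚ))
      ((derivative (derivative f)).map (Int.castRingHom ℚ)) := by
  obtain ⟨-, -, h3, -⟩ := tr_lead d hd f hf p h
  apply coprime_of_mod p _ _ h3
  obtain ⟨Z, -, -, heq⟩ := h.derivative_eq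
  have hc : (derivative (f.map (Int.castRingHom (ZMod p)))).leadingCoeff ≠ 0 :=
    leadingCoeff_ne_zero.2 h.derivative_ne_zero
  have h7 : (derivative (derivative f)).map (Int.castRingHom (ZMod p))
      = derivative (derivative (f.map (Int.castRingHom (ZMod p)))) := by
    rw [derivative_map, derivative_map]
  rw [h7, ← derivative_map]
  generalize (derivative (f.map (Int.castRingHom (ZMod p)))).leadingCoeff = c at heq hc
  rw [heq, derivative_C_mul, isCoprime_mul_unit_left (isUnit_C.2 hc.isUnit)]
  have h5 : (∏ z ∈ Z, (X - C z)).Separable := by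
    rw [separable_prod_X_sub_C_iff']
    intro x _ y _ hxy
    exact hxy
  exact h5

private theorem tr_copAB (d : ℕ) (hd : 2 ≤ d) (f : ℤ[X]) (hf : f.natDegree ≤ d)
    (p : ℕ) [Fact p.Prime] (h : Good p d (f.map (Int.castRingHom (ZMod p)))) :
    IsCoprime ((derivative f).map (Int.castRingHom ℚ))
      (((derivative f).comp f).map (Int.castRingHom ℚ)) := by
  obtain ⟨-, -, h3, -⟩ := tr_lead d hd f hf p h
  apply coprime_of_mod p _ _ h3
  obtain ⟨Z, -, -, heq⟩ := h.derivative_eq
  have hc : (derivative (f.map (Int.castRingHom (ZMod p)))).leadingCoeff ≠ 0 :=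
    leadingCoeff_ne_zero.2 h.derivative_ne_zero
  have hB : ((derivative f).comp f).map (Int.castRingHom (ZMod p))
      = (derivative (f.map (Int.castRingHom (ZMod p)))).comp
        (f.map (Int.castRingHom (ZMod p))) := by
    rw [Polynomial.map_comp, derivative_map]
  rw [hB, ← derivative_map]
  have h6 : ∀ z : ZMod p, ((derivative (f.map (Int.castRingHom (ZMod p)))).comp
      (f.map (Int.castRingHom (ZMod p)))).eval z ≠ 0 := by
    intro z
    rw [eval_comp]
    exact h.2.2 z
  generalize (derivative (f.map (Int.castRingHom (ZMod p)))).comp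
      (f.map (Int.castRingHom (ZMod p))) = B at h6
  generalize (derivative (f.map (Int.castRingHom (ZMod p)))).leadingCoeff = c at heq hc
  rw [heq]
  apply IsCoprime.mul_left
  · exact ⟨C c⁻¹, 0, by rw [← C_mul, inv_mul_cancel₀ hc]; simp⟩
  · apply IsCoprime.prod_left
    intro z _
    rw [(irreducible_X_sub_C z).coprime_iff_not_dvd, dvd_iff_isRoot]
    exact h6 z

private theorem tr_sepB (d : ℕ) (hd : 2 ≤ d) (f : ℤ[X]) (hf : f.natDegree ≤ d)
    (p : ℕ) [Fact p.Prime] (h : Good p d (f.map (Int.castRingHom (ZMod p)))) :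
    (((derivative f).comp f).map (Int.castRingHom ℚ)).Separable := by
  have h1 := tr_sepA d hd f hf p h
  have h2 := tr_copAB d hd f hf p h
  have h3 := h1.map (compRingHom (f.map (Int.castRingHom ℚ)))
  rw [coe_compRingHom_apply, coe_compRingHom_apply] at h3
  rw [Separable, Polynomial.map_comp, derivative_comp, derivative_map, derivative_map]
  rw [Polynomial.map_comp] at h2
  exact (h2.symm).mul_right h3

private theorem tr_card (A : ℤ[X]) (hA : (A.map (Int.castRingHom ℚ)).Separable)
    (τ : AlgebraicClosure ℚ ≃ₐ[ℚ] AlgebraicClosure ℚ)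
    (hτ : ∀ α : AlgebraicClosure ℚ, aeval α A = 0 → τ α = α) :
    Nat.card {α : AlgebraicClosure ℚ // aeval α A = 0 ∧ τ α = α} = A.natDegree := by
  have h0 : A.map (Int.castRingHom ℚ) ≠ 0 := hA.ne_zero
  have h1 := card_rootSet_eq_natDegree (K := AlgebraicClosure ℚ) hA
    (IsAlgClosed.splits _)
  rw [natDegree_map_eq_of_injective (Int.castRingHom ℚ).injective_int] at h1
  rw [← h1, ← Nat.card_eq_fintype_card]
  apply Nat.card_congr
  apply Equiv.subtypeEquivRight
  intro α
  rw [mem_rootSet_of_ne h0]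
  have h2 : aeval α (A.map (Int.castRingHom ℚ)) = aeval α A := by
    rw [← algebraMap_int_eq, aeval_map_algebraMap]
  rw [h2]
  exact ⟨fun h => h.1, fun h => ⟨h, hτ α h⟩⟩

/-- good at one prime implies good at infinitely many primes -/
theorem infinite_good (N d : ℕ) (hd : 2 ≤ d) (f : Fin N → ℤ[X]) (hf : ∀ i, (f i).natDegree ≤ d)
    (p₀ : ℕ) (hp₀ : p₀.Prime) (h : ∀ i, Good p₀ d ((f i).map (Int.castRingHom (ZMod p₀)))) :
    {p : ℕ | p.Prime ∧ ∀ i, Good p d ((f i).map (Int.castRingHom (ZMod p)))}.Infinite := by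
  classical
  haveI : Fact p₀.Prime := ⟨hp₀⟩
  have hl := fun i => tr_lead d hd (f i) (hf i) p₀ (h i)
  obtain ⟨τ, hτ⟩ := exists_frob_at
    (Finset.univ.image (fun i => derivative (f i))
      ∪ Finset.univ.image (fun i => (derivative (f i)).comp (f i))) p₀
  have memA : ∀ i, derivative (f i) ∈ Finset.univ.image (fun i => derivative (f i))
      ∪ Finset.univ.image (fun i => (derivative (f i)).comp (f i)) := fun i =>
    Finset.mem_union_left _ (Finset.mem_image_of_mem _ (Finset.mem_univ i))
  have memB : ∀ i, (derivative (f i)).comp (f i) ∈ Finset.univ.image (fun i => derivative (f i))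
      ∪ Finset.univ.image (fun i => (derivative (f i)).comp (f i)) := fun i =>
    Finset.mem_union_right _ (Finset.mem_image_of_mem _ (Finset.mem_univ i))
  have hτA : ∀ i, ∀ α : AlgebraicClosure ℚ, aeval α (derivative (f i)) = 0 → τ α = α := by
    intro i
    apply (hτ _ (memA i) (hl i).2.2.1).1
    obtain ⟨Z, hZ, hZ0⟩ := (h i).2.1
    refine ⟨Z, ?_, ?_⟩
    · rw [hZ, (hl i).2.1]
    · rw [← derivative_map]
      exact hZ0
  have hτB : ∀ i, ∀ α : AlgebraicClosure ℚ, aeval α ((derivative (f i)).comp (f i)) = 0 →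
      τ α ≠ α := by
    intro i
    apply (hτ _ (memB i) (hl i).2.2.2).2
    intro z
    rw [Polynomial.map_comp, eval_comp, ← derivative_map]
    exact (h i).2.2 z
  have hsep : ∀ g ∈ Finset.univ.image (fun i => derivative (f i))
      ∪ Finset.univ.image (fun i => (derivative (f i)).comp (f i)),
      (g.map (Int.castRingHom ℚ)).Separable := by
    intro g hg
    rcases Finset.mem_union.1 hg with hg | hg
    · obtain ⟨i, -, rfl⟩ := Finset.mem_image.1 hg
      have h1 := tr_sepA d hd (f i) (hf i) p₀ (h i)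
      rw [Separable, derivative_map]
      exact h1
    · obtain ⟨i, -, rfl⟩ := Finset.mem_image.1 hg
      exact tr_sepB d hd (f i) (hf i) p₀ (h i)
  refine (frobenius_roots_nm _ hsep τ).mono ?_
  rintro p ⟨hp, hroots⟩
  refine ⟨hp, fun i => ?_⟩
  haveI : Fact p.Prime := ⟨hp⟩
  obtain ⟨hA1, hA2⟩ := hroots _ (memA i)
  obtain ⟨-, hB2⟩ := hroots _ (memB i)
  have h4 : (derivative (f i)).leadingCoeff = (f i).leadingCoeff * d := by
    rw [leadingCoeff, (hl i).2.1, coeff_derivative, leadingCoeff, (hl i).1]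
    have h5 : d - 1 + 1 = d := by omega
    rw [h5]
    have h6 : (((d - 1 : ℕ) : ℤ) + 1) = (d : ℤ) := by omega
    rw [h6]
  refine ⟨?_, ?_, ?_⟩
  · rw [natDegree_map_of_leadingCoeff_ne_zero]
    · exact (hl i).1
    · intro h0
      apply hA1
      rw [h4]
      apply Dvd.dvd.mul_right
      exact (ZMod.intCast_zmod_eq_zero_iff_dvd _ p).1 h0
  · have h5 : Nat.card {r : ZMod p // ((derivative (f i)).map
        (Int.castRingHom (ZMod p))).eval r = 0} = d - 1 := by
      rw [hA2, tr_card _ (hsep _ (memA i)) τ (hτA i), (hl i).2.1]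
    refine ⟨Finset.univ.filter (fun r : ZMod p => ((derivative (f i)).map
        (Int.castRingHom (ZMod p))).eval r = 0), ?_, ?_⟩
    · rw [← h5, Nat.card_eq_fintype_card, Fintype.card_subtype]
    · intro z hz
      rw [derivative_map]
      exact (Finset.mem_filter.1 hz).2
  · intro x hx
    have h5 : Nat.card {r : ZMod p // (((derivative (f i)).comp (f i)).map
        (Int.castRingHom (ZMod p))).eval r = 0} = 0 := by
      rw [hB2]
      haveI : IsEmpty {α : AlgebraicClosure ℚ //
          aeval α ((derivative (f i)).comp (f i)) = 0 ∧ τ α = α} :=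
        ⟨fun α => hτB i α.1 α.2.1 α.2.2⟩
      exact Nat.card_of_isEmpty
    rw [Nat.card_eq_fintype_card, Fintype.card_eq_zero_iff] at h5
    apply h5.false
    refine ⟨x, ?_⟩
    rw [Polynomial.map_comp, eval_comp, ← derivative_map]
    exact hx

end Pool.Agent.Helper38.SP
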