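import Pool.Agent.Helper37.DvrPadic

/-!
# Project SP: independent p-adic integers at which a given polynomial is a unit

BLUEPRINT. Let `D : MvPolynomial (Fin r) ℤ` be nonzero. Exclude the primes `p ≤ totalDegree D`
(any bound on the degree in each variable) and those dividing all coefficients of `D` (finitely
many). Then `D` mod `p` is a nonzero polynomial over `F_p` of degree `< p` in each variable, so
there is `t : Fin r → ZMod p` with `D(t) ≠ 0` (`MvPolynomial.funext` needs an infinite field; use
`MvPolynomial.exists_eval_ne_zero_of_totalDegree_le_card_sub_one`, the Schwartz-Zippel lemma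
`MvPolynomial.schwartz_zippel_...` or the Combinatorial Nullstellensatz of Mathlib, whatever fits).
`Pool.Agent.Helper37.exists_algebraicIndependent_padic p r` gives independent `s' : Fin r → ℚ_[p]`;
multiply by a power of `p` to get norm `< 1` and add integers `n_i` lifting `t_i`: still
algebraically independent over `ℚ` (compose with an automorphism of the polynomial ring, or use
that independence can be tested by transcendence degree of the same field), norms `≤ 1`. Then
`D(s) ≡ D(t)` mod `p` is a unit of `ℤ_[p]`, i.e. has norm 1.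
(Here: an integer point `t` with `D(t) ≠ 0`, and the excluded primes are the divisors of `D(t)`.)
-/

set_option autoImplicit false

namespace Pool.Agent.Helper38.SP

/-- an affine change of the variables keeps algebraic independence -/
private theorem dvrPt_affine {r : ℕ} {K : Type*} [Field K] [Algebra ℚ K] (s' : Fin r → K)
    (h : AlgebraicIndependent ℚ s') (t c : Fin r → ℚ) (hc : ∀ i, c i ≠ 0) :
    AlgebraicIndependent ℚ (fun i => algebraMap ℚ K (t i) + algebraMap ℚ K (c i) * s' i) := by
  classical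
  let φ : MvPolynomial (Fin r) ℚ →ₐ[ℚ] MvPolynomial (Fin r) ℚ :=
    MvPolynomial.aeval (fun i => MvPolynomial.C (t i) + MvPolynomial.C (c i) * MvPolynomial.X i)
  let ψ : MvPolynomial (Fin r) ℚ →ₐ[ℚ] MvPolynomial (Fin r) ℚ :=
    MvPolynomial.aeval (fun i => MvPolynomial.C (c i)⁻¹ * (MvPolynomial.X i - MvPolynomial.C (t i)))
  have hψφ : ψ.comp φ = AlgHom.id ℚ _ := by
    apply MvPolynomial.algHom_ext
    intro i
    simp only [φ, ψ, AlgHom.comp_apply, MvPolynomial.aeval_X, map_add, map_mul,
      MvPolynomial.algHom_C, AlgHom.id_apply, MvPolynomial.algebraMap_eq]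
    rw [← mul_assoc, ← MvPolynomial.C_mul, mul_inv_cancel₀ (hc i), MvPolynomial.C_1, one_mul]
    ring
  have hφ : Function.Injective φ := by
    intro x y hxy
    have h1 := congrArg ψ hxy
    have h2 : ∀ z, ψ (φ z) = z := fun z => by
      have := congrArg (fun f : MvPolynomial (Fin r) ℚ →ₐ[ℚ] MvPolynomial (Fin r) ℚ => f z) hψφ
      simpa using this
    rwa [h2, h2] at h1
  have hcomp : (MvPolynomial.aeval (fun i => algebraMap ℚ K (t i) + algebraMap ℚ K (c i) * s' i) :
      MvPolynomial (Fin r) ℚ →ₐ[ℚ] K) = (MvPolynomial.aeval s').comp φ := by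
    apply MvPolynomial.algHom_ext
    intro i
    simp only [φ, AlgHom.comp_apply, MvPolynomial.aeval_X, map_add, map_mul,
      MvPolynomial.algHom_C]
  have h' : Function.Injective (MvPolynomial.aeval s' : MvPolynomial (Fin r) ℚ →ₐ[ℚ] K) := h
  unfold AlgebraicIndependent
  rw [hcomp]
  exact h'.comp hφ

/-- for almost all primes there are algebraically independent p-adic integers at which `D` is a
unit -/
theorem exists_padic_unit_point {r : ℕ} (D : MvPolynomial (Fin r) ℤ) (hD : D ≠ 0) :
    ∃ E : Set ℕ, E.Finite ∧ ∀ (p : ℕ) [Fact p.Prime], p ∉ E →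
      ∃ s : Fin r → ℚ_[p], AlgebraicIndependent ℚ s ∧ (∀ i, ‖s i‖ ≤ 1) ∧
        ‖MvPolynomial.aeval s D‖ = 1 := by
  classical
  obtain ⟨t, ht⟩ : ∃ t : Fin r → ℤ, MvPolynomial.eval t D ≠ 0 := by
    by_contra hcon
    push Not at hcon
    apply hD
    apply MvPolynomial.funext
    intro x
    rw [hcon x, map_zero]
  refine ⟨{p | p ∣ (MvPolynomial.eval t D).natAbs}, ?_, ?_⟩
  · apply Set.Finite.subset ((MvPolynomial.eval t D).natAbs.divisors.finite_toSet)
    intro p hp
    have hp' : p ∣ (MvPolynomial.eval t D).natAbs := hp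
    simp only [Finset.mem_coe, Nat.mem_divisors]
    exact ⟨hp', Int.natAbs_ne_zero.2 ht⟩
  intro p hpf hp
  have hp : ¬ p ∣ (MvPolynomial.eval t D).natAbs := hp
  obtain ⟨s', hs'⟩ := Pool.Agent.Helper37.exists_algebraicIndependent_padic p r
  have hp1 : (1 : ℝ) < p := by exact_mod_cast hpf.out.one_lt
  have hN : ∀ i, ∃ N : ℕ, ‖(p : ℚ_[p]) ^ N * s' i‖ < 1 := by
    intro i
    obtain ⟨N, hN⟩ := exists_pow_lt_of_lt_one (show (0 : ℝ) < 1 / (‖s' i‖ + 1) by positivity)
      (inv_lt_one_of_one_lt₀ hp1)
    refine ⟨N, ?_⟩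
    rw [norm_mul, norm_pow, Padic.norm_p]
    have h0 : 0 < ‖s' i‖ + 1 := by positivity
    rw [lt_div_iff₀ h0] at hN
    have h1 : 0 ≤ ((p : ℝ)⁻¹) ^ N := by positivity
    nlinarith [norm_nonneg (s' i)]
  choose N hN using hN
  let s : Fin r → ℚ_[p] := fun i => algebraMap ℚ ℚ_[p] (t i : ℚ) +
    algebraMap ℚ ℚ_[p] ((p : ℚ) ^ N i) * s' i
  have hs : ∀ i, s i = (t i : ℚ_[p]) + (p : ℚ_[p]) ^ N i * s' i := by
    intro i
    simp [s]
  have hnorm : ∀ i, ‖s i‖ ≤ 1 := by
    intro i
    rw [hs i]
    refine (Padic.nonarchimedean _ _).trans ?_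
    apply max_le
    · exact Padic.norm_int_le_one (t i)
    · exact (hN i).le
  refine ⟨s, ?_, hnorm, ?_⟩
  · apply dvrPt_affine s' hs'
    intro i
    exact pow_ne_zero _ (by exact_mod_cast hpf.out.ne_zero)
  · let σ : Fin r → ℤ_[p] := fun i => ⟨s i, hnorm i⟩
    have h1 : ((MvPolynomial.aeval σ D : ℤ_[p]) : ℚ_[p]) = MvPolynomial.aeval s D := by
      have h2 := MvPolynomial.map_aeval σ (PadicInt.Coe.ringHom (p := p)) D
      have h3 : (PadicInt.Coe.ringHom (p := p)) (MvPolynomial.aeval σ D) =
        ((MvPolynomial.aeval σ D : ℤ_[p]) : ℚ_[p]) := rfl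
      rw [← h3, h2, MvPolynomial.aeval_def]
      congr 1
    have h4 : PadicInt.toZMod (MvPolynomial.aeval σ D) = ((MvPolynomial.eval t D : ℤ) : ZMod p) := by
      have h5 := MvPolynomial.map_aeval σ (PadicInt.toZMod (p := p)) D
      rw [h5]
      have h6 : ∀ i, PadicInt.toZMod (σ i) = ((t i : ℤ) : ZMod p) := by
        intro i
        obtain ⟨w, hw⟩ : ∃ w : ℤ_[p], (w : ℚ_[p]) = (p : ℚ_[p]) ^ N i * s' i :=
          ⟨⟨_, (hN i).le⟩, rfl⟩
        have h7 : σ i = (t i : ℤ_[p]) + w := by
          apply Subtype.ext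
          rw [PadicInt.coe_add, hw, PadicInt.coe_intCast]
          exact hs i
        have h8 : PadicInt.toZMod w = 0 := by
          have h9 : w ∈ RingHom.ker (PadicInt.toZMod (p := p)) := by
            rw [PadicInt.ker_toZMod, IsLocalRing.mem_maximalIdeal, PadicInt.mem_nonunits,
              PadicInt.norm_def, hw]
            exact hN i
          exact h9
        rw [h7, map_add, h8, add_zero, map_intCast]
      have h10 : (fun i => PadicInt.toZMod (σ i)) = fun i => (Int.castRingHom (ZMod p)) (t i) := by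
        funext i
        rw [h6 i]; rfl
      rw [h10]
      have h11 : (PadicInt.toZMod (p := p)).comp (algebraMap ℤ ℤ_[p]) =
          Int.castRingHom (ZMod p) := RingHom.ext_int _ _
      rw [h11]
      have h12 := MvPolynomial.eval₂_comp_left (Int.castRingHom (ZMod p)) (RingHom.id ℤ) t D
      rw [RingHom.comp_id] at h12
      exact h12.symm
    have h5 : PadicInt.toZMod (MvPolynomial.aeval σ D) ≠ 0 := by
      rw [h4]
      intro h
      rw [ZMod.intCast_zmod_eq_zero_iff_dvd] at h
      exact hp (Int.natCast_dvd.1 h)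
    have h6 : ‖(MvPolynomial.aeval σ D : ℤ_[p])‖ = 1 := by
      by_contra hne
      have hlt : ‖(MvPolynomial.aeval σ D : ℤ_[p])‖ < 1 :=
        lt_of_le_of_ne (PadicInt.norm_le_one _) hne
      apply h5
      have h9 : (MvPolynomial.aeval σ D : ℤ_[p]) ∈ RingHom.ker (PadicInt.toZMod (p := p)) := by
        rw [PadicInt.ker_toZMod, IsLocalRing.mem_maximalIdeal, PadicInt.mem_nonunits]
        exact hlt
      exact h9
    rw [← h1]
    exact h6

end Pool.Agent.Helper38.SP
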