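import Pool.Agent.Helper38.Sym.GenPoint

/-!
# Project SP: a common denominator for a complex point

BLUEPRINT. `Pool.Agent.Helper38.Sym.exists_tower_gen ℚ a` gives `t` algebraically independent over
`ℚ` and `L` finite over `ℚ(t) = IntermediateField.adjoin ℚ (Set.range t)` with `a i ∈ L`. So each
`a i` is algebraic over `ℚ(t)`, hence over the subring `ℤ[t]`
(`= (MvPolynomial.aeval t : MvPolynomial (Fin r) ℤ →ₐ[ℤ] ℂ).range`, whose fraction field is `ℚ(t)`;
or clear denominators by hand, or use `isAlgebraic` transfer lemmas such as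
`IsAlgebraic.of_...`/`IsFractionRing.comap_isAlgebraic_iff`). Clearing denominators: there is a
nonzero polynomial `P` over `MvPolynomial (Fin r) ℤ` with
`P.eval₂ (MvPolynomial.aeval t) (a i) = 0`; its leading coefficient `D_i` is nonzero and its value
at `t` is nonzero (`t` is independent). `D = ∏ D_i`.
-/

set_option autoImplicit false

open Polynomial

namespace Pool.Agent.Helper38.SP

/-- a common denominator for a complex point -/
theorem exists_denominator {m : ℕ} (a : Fin m → ℂ) :
    ∃ (r : ℕ) (t : Fin r → ℂ), AlgebraicIndependent ℚ t ∧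
      (∃ L : IntermediateField (IntermediateField.adjoin ℚ (Set.range t)) ℂ,
        FiniteDimensional (IntermediateField.adjoin ℚ (Set.range t)) L ∧ ∀ i, a i ∈ L) ∧
      ∃ D : MvPolynomial (Fin r) ℤ, D ≠ 0 ∧ ∀ i, ∃ P : (MvPolynomial (Fin r) ℤ)[X],
        P.leadingCoeff ∣ D ∧
        P.eval₂ (MvPolynomial.aeval t : MvPolynomial (Fin r) ℤ →ₐ[ℤ] ℂ).toRingHom (a i) = 0 := by
  classical
  obtain ⟨r, t, ht, L, hL, haL⟩ := Sym.exists_tower_gen ℚ a
  refine ⟨r, t, ht, ⟨L, hL, haL⟩, ?_⟩
  let tK : Fin r → IntermediateField.adjoin ℚ (Set.range t) :=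
    fun i => ⟨t i, IntermediateField.subset_adjoin _ _ ⟨i, rfl⟩⟩
  let _ : Algebra (MvPolynomial (Fin r) ℤ) (IntermediateField.adjoin ℚ (Set.range t)) :=
    (MvPolynomial.aeval tK : MvPolynomial (Fin r) ℤ →ₐ[ℤ] _).toRingHom.toAlgebra
  let _ : Algebra (MvPolynomial (Fin r) ℤ) ℂ :=
    (MvPolynomial.aeval t : MvPolynomial (Fin r) ℤ →ₐ[ℤ] ℂ).toRingHom.toAlgebra
  have hmapK : ∀ p, algebraMap (MvPolynomial (Fin r) ℤ)
      (IntermediateField.adjoin ℚ (Set.range t)) p = MvPolynomial.aeval tK p := fun _ => rfl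
  have hmapC : ∀ p, algebraMap (MvPolynomial (Fin r) ℤ) ℂ p = MvPolynomial.aeval t p := fun _ => rfl
  have hval : ∀ i, algebraMap (IntermediateField.adjoin ℚ (Set.range t)) ℂ (tK i) = t i :=
    fun _ => rfl
  have : IsScalarTower (MvPolynomial (Fin r) ℤ) (IntermediateField.adjoin ℚ (Set.range t)) ℂ := by
    refine IsScalarTower.of_algebraMap_eq fun p => ?_
    rw [hmapK, hmapC, MvPolynomial.aeval_def, MvPolynomial.aeval_def, MvPolynomial.hom_eval₂]
    congr 1
  have hX : ∀ i, IsAlgebraic (MvPolynomial (Fin r) ℤ) (tK i) := by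
    intro i
    have h1 : tK i = algebraMap (MvPolynomial (Fin r) ℤ) _ (MvPolynomial.X i) := by
      rw [hmapK, MvPolynomial.aeval_X]
    rw [h1]
    exact isAlgebraic_algebraMap _
  have hZ : ∀ n : ℤ, IsAlgebraic (MvPolynomial (Fin r) ℤ)
      (n : IntermediateField.adjoin ℚ (Set.range t)) := fun n => isAlgebraic_intCast n
  have hQ : ∀ q : ℚ, IsAlgebraic (MvPolynomial (Fin r) ℤ)
      (algebraMap ℚ (IntermediateField.adjoin ℚ (Set.range t)) q) := by
    intro q
    have h1 : algebraMap ℚ (IntermediateField.adjoin ℚ (Set.range t)) q =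
        ((q.num : ℤ) : IntermediateField.adjoin ℚ (Set.range t)) *
          (((q.den : ℤ)) : IntermediateField.adjoin ℚ (Set.range t))⁻¹ := by
      conv_lhs => rw [← Rat.num_div_den q]
      simp [div_eq_mul_inv]
    rw [h1]
    exact (hZ _).mul (hZ _).inv
  have hP : ∀ p : MvPolynomial (Fin r) ℚ, IsAlgebraic (MvPolynomial (Fin r) ℤ)
      (MvPolynomial.aeval tK p) := by
    intro p
    induction p using MvPolynomial.induction_on with
    | C q =>
      rw [MvPolynomial.aeval_C]
      exact hQ q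
    | add p q hp hq =>
      rw [map_add]
      exact hp.add hq
    | mul_X p i hp =>
      rw [map_mul, MvPolynomial.aeval_X]
      exact hp.mul (hX i)
  have : Algebra.IsAlgebraic (MvPolynomial (Fin r) ℤ)
      (IntermediateField.adjoin ℚ (Set.range t)) := by
    refine ⟨fun x => ?_⟩
    obtain ⟨p, q, hpq⟩ := (IntermediateField.mem_adjoin_range_iff ℚ t (x : ℂ)).1 x.2
    have h1 : x = MvPolynomial.aeval tK p * (MvPolynomial.aeval tK q)⁻¹ := by
      apply Subtype.ext
      rw [hpq, div_eq_mul_inv]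
      have h2 : ∀ s : MvPolynomial (Fin r) ℚ, ((MvPolynomial.aeval tK s :
          IntermediateField.adjoin ℚ (Set.range t)) : ℂ) = MvPolynomial.aeval t s := by
        intro s
        have h3 := MvPolynomial.map_aeval tK (algebraMap
          (IntermediateField.adjoin ℚ (Set.range t)) ℂ) s
        rw [MvPolynomial.aeval_def]
        exact h3
      push_cast
      rw [h2, h2]
    rw [h1]
    exact (hP p).mul (hP q).inv
  have halg : ∀ i, IsAlgebraic (MvPolynomial (Fin r) ℤ) (a i) := by
    intro i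
    have h1 : IsAlgebraic (IntermediateField.adjoin ℚ (Set.range t)) (⟨a i, haL i⟩ : L) :=
      Algebra.IsAlgebraic.isAlgebraic _
    have h2 : IsAlgebraic (IntermediateField.adjoin ℚ (Set.range t)) (a i) :=
      h1.algebraMap (A := ℂ)
    exact h2.restrictScalars (MvPolynomial (Fin r) ℤ)
  choose P hP0 hPa using halg
  refine ⟨∏ i, (P i).leadingCoeff, Finset.prod_ne_zero_iff.2 fun i _ =>
    leadingCoeff_ne_zero.2 (hP0 i), fun i => ⟨P i, Finset.dvd_prod_of_mem _ (Finset.mem_univ i),
      ?_⟩⟩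
  exact hPa i

end Pool.Agent.Helper38.SP
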