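import Pool.Agent.Helper38.SP.DvrInt
import Pool.Agent.Helper38.SP.DvrPt
import Pool.Agent.Helper38.SP.DvrTower

/-!
# Project SP: for almost all primes a complex point is integral at a place over the prime

BLUEPRINT. `r, t, L, D` from `exists_denominator a`, `E` from `exists_padic_unit_point D`. For
`p ∉ E` let `s` be the p-adic point; the independent families `t`, `s` give a field embedding
`ι : ℚ(t) → ℚ_[p]`, `t_i ↦ s_i` (see `Pool.Agent.Helper37.exists_ringHom_adjoin` and the proof of
`Pool.Agent.Helper38.Sym.exists_alg_embedding`: you need the value at `t_i`, so use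
`hs.aevalEquivField`, `ht.aevalEquivField` directly). `R₀ = Pool.Agent.Helper37.padicRing p ι`
(`Pool/Agent/Helper37/DvrPadic.lean`) is a discrete valuation ring with fraction field `ℚ(t)` and
residue field of order `p`; `t_i ∈ R₀`, and `D(t)` is a unit of `R₀` (its image has norm 1). So
`P_i` gives an integral equation of `a i` over `R₀`: divide by the leading coefficient, a divisor
of `D`, whose value at `t` is a unit of `R₀` (`aeval s` of it has norm `≤ 1` and so has the
cofactor, the product has norm 1); e.g. use `IsIntegral`/`IsIntegralElem` for `C u * P` with `u`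
the inverse. `exists_dvr_int` gives `R` with fraction field `L`, and `j = (L → ℂ) ∘ (R → L)`.
-/

set_option autoImplicit false

open Pool.Agent.Helper37

namespace Pool.Agent.Helper38.SP

/-- the map of a purely transcendental extension with given values at the variables -/
theorem dvrFin_ringHom_adjoin {F E E' ι : Type*} [Field F] [Field E] [Field E'] [Algebra F E]
    [Algebra F E'] (x : ι → E) (y : ι → E') (hx : AlgebraicIndependent F x)
    (hy : AlgebraicIndependent F y) :
    ∃ f : IntermediateField.adjoin F (Set.range x) →+* E',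
      ∀ i, f ⟨x i, IntermediateField.subset_adjoin F _ ⟨i, rfl⟩⟩ = y i := by
  refine ⟨((IntermediateField.adjoin F (Set.range y)).val.toRingHom.comp
    (hy.aevalEquivField.toRingEquiv.toRingHom.comp
      hx.aevalEquivField.symm.toRingEquiv.toRingHom)), fun i => ?_⟩
  have h1 : hx.aevalEquivField (algebraMap (MvPolynomial ι F)
      (FractionRing (MvPolynomial ι F)) (MvPolynomial.X i))
      = ⟨x i, IntermediateField.subset_adjoin F _ ⟨i, rfl⟩⟩ := by
    apply Subtype.ext
    simp
  rw [← h1]
  change ((hy.aevalEquivField (hx.aevalEquivField.symm (hx.aevalEquivField _)) :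
    IntermediateField.adjoin F (Set.range y)) : E') = y i
  rw [AlgEquiv.symm_apply_apply]
  simp

/-- for almost all primes `p` the coordinates of a complex point lie in a discrete valuation ring
over `p` with finite residue field -/
theorem exists_dvr_point {m : ℕ} (a : Fin m → ℂ) :
    ∃ E : Set ℕ, E.Finite ∧ ∀ p : ℕ, p.Prime → p ∉ E →
      ∃ (R : Type) (_ : CommRing R) (_ : IsDomain R) (_ : CharZero R)
        (_ : IsDiscreteValuationRing R) (j : R →+* ℂ),
        Finite (IsLocalRing.ResidueField R) ∧ (p : R) ∈ IsLocalRing.maximalIdeal R ∧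
        Function.Injective j ∧ ∀ i, a i ∈ Set.range j := by
  classical
  obtain ⟨r, t, ht, ⟨L, hL, haL⟩, D, hD0, hP⟩ := exists_denominator a
  obtain ⟨E, hE, hpt⟩ := exists_padic_unit_point D hD0
  refine ⟨E, hE, fun p hp hpE => ?_⟩
  have hpf : Fact p.Prime := ⟨hp⟩
  obtain ⟨s, hs, hs1, hsD⟩ := hpt p hpE
  obtain ⟨ι, hι⟩ := dvrFin_ringHom_adjoin t s ht hs
  let s' : Fin r → ℤ_[p] := fun i => ⟨s i, hs1 i⟩
  -- values of integral polynomials
  have hint : ∀ Q : MvPolynomial (Fin r) ℤ, ‖MvPolynomial.aeval s Q‖ ≤ 1 := by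
    intro Q
    have h1 : MvPolynomial.aeval s Q
        = ((MvPolynomial.aeval s' Q : ℤ_[p]) : ℚ_[p]) := by
      have h2 : (MvPolynomial.aeval s : MvPolynomial (Fin r) ℤ →ₐ[ℤ] ℚ_[p]).toRingHom
          = (PadicInt.Coe.ringHom).comp
            (MvPolynomial.aeval s' : MvPolynomial (Fin r) ℤ →ₐ[ℤ] ℤ_[p]).toRingHom := by
        apply MvPolynomial.ringHom_ext
        · intro n
          simp
        · intro i
          simp [s']
      exact congrArg (fun f : MvPolynomial (Fin r) ℤ →+* ℚ_[p] => f Q) h2
    rw [h1]
    exact PadicInt.norm_le_one _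
  let tK : Fin r → IntermediateField.adjoin ℚ (Set.range t) :=
    fun i => ⟨t i, IntermediateField.subset_adjoin ℚ _ ⟨i, rfl⟩⟩
  have hιQ : ∀ Q : MvPolynomial (Fin r) ℤ, ι (MvPolynomial.aeval tK Q) = MvPolynomial.aeval s Q := by
    intro Q
    have h2 : ι.comp (MvPolynomial.aeval tK :
          MvPolynomial (Fin r) ℤ →ₐ[ℤ] IntermediateField.adjoin ℚ (Set.range t)).toRingHom
        = (MvPolynomial.aeval s : MvPolynomial (Fin r) ℤ →ₐ[ℤ] ℚ_[p]).toRingHom := by
      apply MvPolynomial.ringHom_ext
      · intro n
        simp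
      · intro i
        simp [tK, hι]
    exact congrArg (fun f : MvPolynomial (Fin r) ℤ →+* ℚ_[p] => f Q) h2
  have hmem : ∀ Q : MvPolynomial (Fin r) ℤ, MvPolynomial.aeval tK Q ∈ padicRing p ι := by
    intro Q
    rw [mem_padicRing, hιQ]
    exact hint Q
  let τ : MvPolynomial (Fin r) ℤ →+* padicRing p ι :=
    RingHom.codRestrict (MvPolynomial.aeval tK :
      MvPolynomial (Fin r) ℤ →ₐ[ℤ] IntermediateField.adjoin ℚ (Set.range t)).toRingHom _ hmem
  obtain ⟨R, _, _, _, _, _, hFrac, hpR, hfin, hrange⟩ := exists_dvr_int p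
    (R₀ := padicRing p ι) (K₀ := IntermediateField.adjoin ℚ (Set.range t)) (K := L)
    (p_mem_maximalIdeal p _) (card_residueField_padicRing p _)
  refine ⟨R, inferInstance, inferInstance, inferInstance, inferInstance,
    (algebraMap L ℂ).comp (algebraMap R L), hfin, hpR,
    (algebraMap L ℂ).injective.comp (IsFractionRing.injective R L), fun i => ?_⟩
  obtain ⟨P, hPD, hP0⟩ := hP i
  obtain ⟨c, hc⟩ := hPD
  -- the leading coefficient is a unit
  have hl : ‖MvPolynomial.aeval s P.leadingCoeff‖ = 1 := by
    have h1 := hint P.leadingCoeff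
    have h2 := hint c
    have h3 : ‖MvPolynomial.aeval s P.leadingCoeff‖ * ‖MvPolynomial.aeval s c‖ = 1 := by
      rw [← norm_mul, ← map_mul, ← hc, hsD]
    nlinarith [norm_nonneg (MvPolynomial.aeval s P.leadingCoeff),
      norm_nonneg (MvPolynomial.aeval s c)]
  have hlu : IsUnit (τ P.leadingCoeff) := by
    rw [isUnit_padicRing_iff]
    change ‖ι (MvPolynomial.aeval tK P.leadingCoeff)‖ = 1
    rw [hιQ, hl]
  obtain ⟨u, hu⟩ := hlu.exists_left_inv
  have hx : ((algebraMap (IntermediateField.adjoin ℚ (Set.range t)) L).comp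
      (algebraMap (padicRing p ι) (IntermediateField.adjoin ℚ (Set.range t)))).IsIntegralElem
      (⟨a i, haL i⟩ : L) := by
    refine ⟨Polynomial.C u * P.map τ, ?_, ?_⟩
    · refine Polynomial.monic_of_natDegree_le_of_coeff_eq_one P.natDegree ?_ ?_
      · exact (Polynomial.natDegree_C_mul_le _ _).trans Polynomial.natDegree_map_le
      · rw [Polynomial.coeff_C_mul, Polynomial.coeff_map]
        exact hu
    · rw [Polynomial.eval₂_mul, Polynomial.eval₂_map]
      apply mul_eq_zero_of_right
      apply (algebraMap L ℂ).injective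
      rw [map_zero, Polynomial.hom_eval₂]
      have h2 : (algebraMap L ℂ).comp
          ((((algebraMap (IntermediateField.adjoin ℚ (Set.range t)) L).comp
      (algebraMap (padicRing p ι) (IntermediateField.adjoin ℚ (Set.range t)))).comp τ))
          = (MvPolynomial.aeval t : MvPolynomial (Fin r) ℤ →ₐ[ℤ] ℂ).toRingHom := by
        apply MvPolynomial.ringHom_ext
        · intro n
          simp
        · intro i
          have h3 : (((τ (MvPolynomial.X i) : padicRing p ι) :
              IntermediateField.adjoin ℚ (Set.range t)) : ℂ) = t i := by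
            change ((MvPolynomial.aeval tK (MvPolynomial.X i : MvPolynomial (Fin r) ℤ) :
              IntermediateField.adjoin ℚ (Set.range t)) : ℂ) = t i
            rw [MvPolynomial.aeval_X]
          have h4 : (MvPolynomial.aeval t : MvPolynomial (Fin r) ℤ →ₐ[ℤ] ℂ).toRingHom
              (MvPolynomial.X i) = t i := by
            simp
          rw [h4]
          exact h3
      rw [h2]
      exact hP0
  obtain ⟨y, hy⟩ := hrange _ hx
  refine ⟨y, ?_⟩
  rw [RingHom.comp_apply, hy]
  rfl

end Pool.Agent.Helper38.SP
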