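import Mathlib

/-!
# Project SP (MP_b15c9e_ag): split polynomial maps, definitions

Full Dynamical Mordell-Lang for 100 per cent of the split maps
`[X_0^d : F_1(X_0, X_1) : ... : F_N(X_0, X_N)]`.
-/

set_option autoImplicit false

open Polynomial Finset

namespace Pool.Agent.Helper38.SP

/-- the polynomial with the given coefficients -/
noncomputable def pol {R : Type*} [CommRing R] {d : ℕ} (c : Fin (d + 1) → R) : R[X] :=
  ∑ j : Fin (d + 1), C (c j) * X ^ (j : ℕ)

/-- `f` has degree `d`, its derivative has `d - 1` distinct zeros in `F_p`, and none of them is a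
value of `f` on `F_p` -/
def Good (p d : ℕ) (f : (ZMod p)[X]) : Prop :=
  f.natDegree = d ∧
    (∃ Z : Finset (ZMod p), Z.card = d - 1 ∧ ∀ z ∈ Z, (derivative f).eval z = 0) ∧
    ∀ x : ZMod p, (derivative f).eval (f.eval x) ≠ 0

theorem pol_coeff {R : Type*} [CommRing R] {d : ℕ} (c : Fin (d + 1) → R) (j : Fin (d + 1)) :
    (pol c).coeff j = c j := by
  classical
  rw [pol, finsetSum_coeff]
  simp only [coeff_C_mul, coeff_X_pow]
  rw [Finset.sum_eq_single j]
  · simp
  · intro i _ hij
    rw [if_neg, mul_zero]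
    intro h
    exact hij (Fin.ext h.symm)
  · intro h
    exact absurd (Finset.mem_univ j) h

theorem pol_natDegree_le {R : Type*} [CommRing R] {d : ℕ} (c : Fin (d + 1) → R) :
    (pol c).natDegree ≤ d := by
  rw [pol]
  refine natDegree_sum_le_of_forall_le _ _ fun j _ => ?_
  exact (natDegree_C_mul_X_pow_le _ _).trans (Nat.lt_succ_iff.1 j.2)

theorem map_pol {R S : Type*} [CommRing R] [CommRing S] (φ : R →+* S) {d : ℕ}
    (c : Fin (d + 1) → R) : (pol c).map φ = pol (fun j => φ (c j)) := by
  rw [pol, pol, Polynomial.map_sum]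
  refine Finset.sum_congr rfl fun j _ => ?_
  rw [Polynomial.map_mul, Polynomial.map_pow, map_C, map_X]

theorem pol_eval {R : Type*} [CommRing R] {d : ℕ} (c : Fin (d + 1) → R) (x : R) :
    (pol c).eval x = ∑ j : Fin (d + 1), c j * x ^ (j : ℕ) := by
  rw [pol, eval_finsetSum]
  refine Finset.sum_congr rfl fun j _ => ?_
  rw [eval_mul, eval_C, eval_pow, eval_X]

theorem pol_of_coeff {R : Type*} [CommRing R] {d : ℕ} (f : R[X]) (hf : f.natDegree ≤ d) :
    pol (fun j : Fin (d + 1) => f.coeff j) = f := by
  ext n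
  by_cases hn : n < d + 1
  · exact pol_coeff (fun j : Fin (d + 1) => f.coeff j) ⟨n, hn⟩
  · rw [coeff_eq_zero_of_natDegree_lt, coeff_eq_zero_of_natDegree_lt]
    · omega
    · have := pol_natDegree_le (fun j : Fin (d + 1) => f.coeff j)
      omega

section good

variable {p d : ℕ} [Fact p.Prime] {f : (ZMod p)[X]}

theorem Good.derivative_ne_zero (h : Good p d f) : derivative f ≠ 0 := by
  intro h0
  apply h.2.2 0
  rw [h0, eval_zero]

theorem Good.natDegree_derivative_le (h : Good p d f) : (derivative f).natDegree ≤ d - 1 := by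
  rw [← h.1]
  exact Polynomial.natDegree_derivative_le f

/-- the derivative of a good polynomial is a constant times a product of distinct linear factors -/
theorem Good.derivative_eq (h : Good p d f) :
    ∃ Z : Finset (ZMod p), Z.card = d - 1 ∧ (derivative f).natDegree = d - 1 ∧
      derivative f = C (derivative f).leadingCoeff * ∏ z ∈ Z, (X - C z) := by
  obtain ⟨Z, hZ, hZ0⟩ := h.2.1
  have h0 := h.derivative_ne_zero
  have h1 : Z.val ≤ (derivative f).roots := by
    rw [Multiset.le_iff_subset Z.nodup]
    intro z hz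
    exact (mem_roots h0).2 (hZ0 z hz)
  have h2 : (derivative f).roots.card ≤ (derivative f).natDegree := card_roots' _
  have h3 := Multiset.card_le_card h1
  have h4 : Z.val.card = d - 1 := hZ
  have h5 := h.natDegree_derivative_le
  have h6 : (derivative f).roots = Z.val := (Multiset.eq_of_le_of_card_le h1 (by omega)).symm
  refine ⟨Z, hZ, by omega, ?_⟩
  have h7 : (derivative f).roots.card = (derivative f).natDegree := by rw [h6]; omega
  have h8 := C_leadingCoeff_mul_prod_multiset_X_sub_C h7
  rw [h6] at h8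
  exact h8.symm

/-- a zero of the derivative of a good polynomial in an extension lies in the prime field -/
theorem Good.exists_of_root (h : Good p d f) {k : Type*} [Field k] (φ : ZMod p →+* k) (y : k)
    (hy : (derivative f).eval₂ φ y = 0) : ∃ z : ZMod p, φ z = y ∧ (derivative f).eval z = 0 := by
  obtain ⟨Z, hZ, hdeg, hf⟩ := h.derivative_eq
  have hl : (derivative f).leadingCoeff ≠ 0 := leadingCoeff_ne_zero.2 h.derivative_ne_zero
  rw [hf, eval₂_mul, eval₂_C, eval₂_finsetProd, mul_eq_zero] at hy
  have h1 := hy.resolve_left (fun h => hl ((map_eq_zero φ).1 h))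
  obtain ⟨z, hz, h2⟩ := Finset.prod_eq_zero_iff.1 h1
  rw [eval₂_sub, eval₂_X, eval₂_C, sub_eq_zero] at h2
  refine ⟨z, h2.symm, ?_⟩
  rw [hf, eval_mul, eval_prod, Finset.prod_eq_zero hz (by simp), mul_zero]

end good

end Pool.Agent.Helper38.SP
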