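import Pool.Agent.Helper38.Sym.GenPoint

/-!
# Project SP: a dominating discrete valuation ring containing the integral elements

BLUEPRINT. Copy the proof of `Pool.Agent.Helper38.Sym.exists_dvr_dom`
(`Pool/Agent/Helper38/Sym/GenPoint.lean`): there `R` is the localization at a maximal ideal of
`S = integralClosure R₀ K`, `S → R → K` a scalar tower, so every integral element is in the range
of `algebraMap R K`.
-/

set_option autoImplicit false

open Module Function

namespace Pool.Agent.Helper38.SP

/-- Let `R₀` be a discrete valuation ring of characteristic zero with fraction field `K₀` and `p`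
elements in its residue field and let `K` be a finite extension of `K₀`; some discrete valuation
ring of `K` dominates `R₀`, has a finite residue field and contains all elements of `K` which are
integral over `R₀`. -/
theorem exists_dvr_int (p : ℕ) [Fact p.Prime] {R₀ K₀ : Type*} {K : Type} [CommRing R₀] [IsDomain R₀]
    [CharZero R₀] [IsDiscreteValuationRing R₀]
    (hp : (p : R₀) ∈ IsLocalRing.maximalIdeal R₀)
    (hcard : Nat.card (IsLocalRing.ResidueField R₀) = p)
    [Field K₀] [Field K] [Algebra R₀ K₀] [IsFractionRing R₀ K₀] [Algebra K₀ K]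
    [FiniteDimensional K₀ K] :
    ∃ (R : Type) (_ : CommRing R) (_ : IsDomain R) (_ : CharZero R)
      (_ : IsDiscreteValuationRing R) (_ : Algebra R K),
      IsFractionRing R K ∧ (p : R) ∈ IsLocalRing.maximalIdeal R ∧
      Finite (IsLocalRing.ResidueField R) ∧
      ∀ x : K, ((algebraMap K₀ K).comp (algebraMap R₀ K₀)).IsIntegralElem x →
        x ∈ Set.range (algebraMap R K) := by
  classical
  have : CharZero K₀ := charZero_of_injective_algebraMap (IsFractionRing.injective R₀ K₀)
  let _ : Algebra R₀ K := ((algebraMap K₀ K).comp (algebraMap R₀ K₀)).toAlgebra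
  have : IsScalarTower R₀ K₀ K := IsScalarTower.of_algebraMap_eq (fun _ => rfl)
  let S := integralClosure R₀ K
  have hDed : IsDedekindDomain S := integralClosure.isDedekindDomain R₀ K₀ K
  have hFrac : IsFractionRing S K := IsIntegralClosure.isFractionRing_of_finite_extension R₀ K₀ K S
  have hFin : Module.Finite R₀ S := IsIntegralClosure.finite R₀ K₀ K S
  have : IsTorsionFree R₀ K := by
    have hinj : Function.Injective (algebraMap R₀ K) :=
      (algebraMap K₀ K).injective.comp (IsFractionRing.injective R₀ K₀)
    exact Module.IsTorsionFree.of_smul_eq_zero (by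
      intro r x hrx
      rw [Algebra.smul_def] at hrx
      rcases mul_eq_zero.1 hrx with h | h
      · left; exact hinj (by rw [h, map_zero])
      · right; exact h)
  have hFree : Module.Free R₀ S := IsIntegralClosure.module_free R₀ K₀ K S
  have hrank : finrank R₀ S = finrank K₀ K := IsIntegralClosure.rank R₀ K₀ K S
  let P := IsLocalRing.maximalIdeal R₀
  have : _root_.Finite (P.primesOver S) := Algebra.QuasiFinite.finite_primesOver P
  let _ := Fintype.ofFinite (P.primesOver S)
  have hsum := Ideal.sum_ramification_inertia_eq_finrank P S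
  have hpos : 0 < finrank K₀ K := finrank_pos
  obtain ⟨q, _, hq⟩ : ∃ q : P.primesOver S, q ∈ Finset.univ ∧
      q.1.ramificationIdx R₀ * q.1.inertiaDeg R₀ ≠ 0 := by
    apply Finset.exists_ne_zero_of_sum_ne_zero
    rw [hsum, hrank]
    exact hpos.ne'
  have hqmax : q.1.IsMaximal := inferInstance
  have hqlies : q.1.LiesOver P := q.2.2
  have hq0 : q.1 ≠ ⊥ := by
    intro h
    have h1 : P = ⊥ := by
      have := hqlies.over
      rw [this, h]
      exact Ideal.under_bot _ _
    exact IsDiscreteValuationRing.not_a_field R₀ h1
  let R := Localization.AtPrime q.1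
  have hDVR : IsDiscreteValuationRing R :=
    IsLocalization.AtPrime.isDiscreteValuationRing_of_dedekind_domain S hq0 R
  let _ : Algebra R K := IsLocalization.localizationAlgebraOfSubmonoidLe R K q.1.primeCompl
    (nonZeroDivisors S) q.1.primeCompl_le_nonZeroDivisors
  have : IsScalarTower S R K := IsLocalization.localization_isScalarTower_of_submonoid_le R K
    q.1.primeCompl (nonZeroDivisors S) q.1.primeCompl_le_nonZeroDivisors
  have hFR : IsFractionRing R K :=
    IsFractionRing.isFractionRing_of_isDomain_of_isLocalization q.1.primeCompl R K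
  have hS0 : CharZero S := charZero_of_injective_algebraMap (R := R₀)
    (FaithfulSMul.algebraMap_injective R₀ S)
  have hchar : CharZero R := charZero_of_injective_algebraMap (R := S)
    (IsLocalization.injective R q.1.primeCompl_le_nonZeroDivisors)
  have hdom : ∀ x ∈ IsLocalRing.maximalIdeal R₀,
      ((algebraMap S R).comp (algebraMap R₀ S)) x ∈ IsLocalRing.maximalIdeal R := by
    intro x hx
    have h1 : algebraMap R₀ S x ∈ q.1 := by
      have h0 : P = Ideal.under R₀ q.1 := hqlies.over
      have h1 : x ∈ Ideal.under R₀ q.1 := by rw [← h0]; exact hx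
      exact h1
    have h2 : algebraMap S R (algebraMap R₀ S x) ∈ IsLocalRing.maximalIdeal R := by
      rw [← Ideal.mem_under, IsLocalization.AtPrime.under_maximalIdeal R q.1]
      exact h1
    exact h2
  refine ⟨R, inferInstance, inferInstance, hchar, hDVR, inferInstance, hFR, ?_, ?_, ?_⟩
  · have h1 := hdom p hp
    simpa using h1
  · apply Nat.finite_of_card_ne_zero
    have h1 : Nat.card (IsLocalRing.ResidueField R) = Nat.card (S ⧸ q.1) :=
      Nat.card_congr (IsLocalization.AtPrime.equivQuotMaximalIdeal q.1 R).symm.toEquiv
    have h2 : Nat.card (R₀ ⧸ P) = p := hcard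
    rw [h1, Pool.Agent.Helper37.natCard_quotient_eq_pow P q.1, h2]
    exact pow_ne_zero _ (Fact.out : p.Prime).ne_zero
  · intro x hx
    have hx' : IsIntegral R₀ x := hx
    refine ⟨algebraMap S R ⟨x, hx'⟩, ?_⟩
    rw [← IsScalarTower.algebraMap_apply S R K]
    rfl

end Pool.Agent.Helper38.SP
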