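import Pool.Agent.Helper37.ReturnSet

/-!
# Project SP: the p-adic engine for split affine maps

BLUEPRINT. `Pool.Agent.Helper37.returnSet_progressions` with
`F i = Polynomial.aeval (MvPolynomial.X i) (f i)`: `step F x = fun i => (f i).eval (x i)`, and the
Jacobian matrix at `x` is diagonal with entries `(derivative (f i)).eval (x i)`, so its
determinant is a product of units along the orbit of the `n₁`-th point. That gives progressions
for the shifted orbit; add the `n < n₁` by hand (see the end of the proof of `dml_dvr_general` in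
`Pool/Agent/Helper38/Sym/GenEngine.lean`).
-/

set_option autoImplicit false

open Polynomial

namespace Pool.Agent.Helper38.SP

/-- the split map as a tuple of polynomials in several variables -/
noncomputable def splitMap {σ : Type} {R : Type} [CommRing R] (f : σ → R[X]) :
    σ → MvPolynomial σ R :=
  fun i => Polynomial.aeval (MvPolynomial.X i : MvPolynomial σ R) (f i)

theorem step_splitMap {σ : Type} {R : Type} [CommRing R] (f : σ → R[X]) (y : σ → R) :
    Pool.Agent.Helper37.step (splitMap f) y = fun i => (f i).eval (y i) := by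
  funext i
  simp only [Pool.Agent.Helper37.step, splitMap]
  rw [← Polynomial.aeval_algHom_apply, MvPolynomial.aeval_X, Polynomial.coe_aeval_eq_eval]

theorem iterate_step_splitMap {σ : Type} {R : Type} [CommRing R] (f : σ → R[X]) (n : ℕ)
    (y : σ → R) :
    (Pool.Agent.Helper37.step (splitMap f))^[n] y
      = fun i => (fun z => (f i).eval z)^[n] (y i) := by
  induction n generalizing y with
  | zero => rfl
  | succ n ih =>
    rw [Function.iterate_succ_apply, ih, step_splitMap]
    funext i
    rw [Function.iterate_succ_apply]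

theorem jac_splitMap {σ : Type} [Fintype σ] [DecidableEq σ] {R : Type} [CommRing R]
    (f : σ → R[X]) (y : σ → R) :
    Pool.Agent.Helper37.jac (splitMap f) y
      = Matrix.diagonal (fun i => (derivative (f i)).eval (y i)) := by
  ext i k
  simp only [Pool.Agent.Helper37.jac, Matrix.of_apply, Matrix.diagonal_apply, splitMap]
  rw [Derivation.map_aeval, smul_eq_mul, MvPolynomial.eval_mul]
  have h1 : MvPolynomial.eval y (Polynomial.aeval (MvPolynomial.X i : MvPolynomial σ R)
      (derivative (f i))) = (derivative (f i)).eval (y i) := by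
    rw [← MvPolynomial.aeval_eq_eval, ← Polynomial.aeval_algHom_apply, MvPolynomial.aeval_X,
      Polynomial.coe_aeval_eq_eval]
  rw [h1]
  by_cases h : i = k
  · subst h
    rw [MvPolynomial.pderiv_X_self, map_one, mul_one, if_pos rfl]
  · rw [MvPolynomial.pderiv_X_of_ne (fun h' => h h'), map_zero, mul_zero, if_neg h]

/-- return sets of split affine maps over a discrete valuation ring -/
theorem dml_affine {σ : Type} [Fintype σ] [DecidableEq σ] (p : ℕ) (hp : p.Prime) {R : Type}
    [CommRing R] [IsDomain R] [CharZero R] [IsDiscreteValuationRing R]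
    [Finite (IsLocalRing.ResidueField R)] (hpR : (p : R) ∈ IsLocalRing.maximalIdeal R)
    (j : R →+* ℂ) (hj : Function.Injective j) (f : σ → R[X]) (x : σ → R) (n₁ : ℕ)
    (hu : ∀ n, n₁ ≤ n → ∀ i, IsUnit ((derivative (f i)).eval ((fun y => (f i).eval y)^[n] (x i))))
    (S : Set (MvPolynomial σ ℂ)) :
    ∃ T : Finset (ℕ × ℕ),
      {n : ℕ | ∀ g ∈ S, MvPolynomial.eval (fun i => j ((fun y => (f i).eval y)^[n] (x i))) g = 0}
        = {n : ℕ | ∃ q ∈ T, ∃ m : ℕ, n = q.1 * m + q.2} := by
  classical
  letI : Algebra R ℂ := j.toAlgebra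
  have hRL : Function.Injective (algebraMap R ℂ) := hj
  have hmap : ∀ r : R, algebraMap R ℂ r = j r := fun r => rfl
  set x₁ : σ → R := fun i => (fun y => (f i).eval y)^[n₁] (x i) with hx₁
  have hjac : ∀ n, IsUnit (Pool.Agent.Helper37.jac (splitMap f)
      ((Pool.Agent.Helper37.step (splitMap f))^[n] x₁)).det := by
    intro n
    rw [jac_splitMap, Matrix.det_diagonal, iterate_step_splitMap]
    refine IsUnit.prod_iff.2 fun i _ => ?_
    have h1 := hu (n + n₁) (by omega) i
    rw [Function.iterate_add_apply] at h1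
    exact h1
  obtain ⟨T, hT⟩ := Pool.Agent.Helper37.returnSet_progressions p hp hpR hRL (splitMap f) x₁ hjac S
  set P : ℕ → Prop := fun n =>
    ∀ g ∈ S, MvPolynomial.eval (fun i => j ((fun y => (f i).eval y)^[n] (x i))) g = 0 with hP
  have hT' : ∀ n, P (n + n₁) ↔ ∃ q ∈ T, ∃ m : ℕ, n = q.1 * m + q.2 := by
    intro n
    have h1 := Set.ext_iff.1 hT n
    simp only [Set.mem_ofPred_eq] at h1
    rw [← h1]
    simp only [hP, iterate_step_splitMap, hmap, hx₁, Function.iterate_add_apply]
  refine ⟨((Finset.range n₁).filter P).image (fun n => (0, n)) ∪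
    T.image (fun q => (q.1, q.2 + n₁)), ?_⟩
  ext n
  simp only [Set.mem_ofPred_eq, Finset.mem_union, Finset.mem_image, Finset.mem_filter,
    Finset.mem_range]
  constructor
  · intro h
    by_cases hn : n < n₁
    · exact ⟨(0, n), Or.inl ⟨n, ⟨hn, h⟩, rfl⟩, 0, by simp⟩
    · obtain ⟨l, rfl⟩ := Nat.exists_eq_add_of_le' (not_lt.1 hn)
      obtain ⟨q, hq, s, hs⟩ := (hT' l).1 h
      exact ⟨(q.1, q.2 + n₁), Or.inr ⟨q, hq, rfl⟩, s, by simp only; omega⟩
  · rintro ⟨q, (⟨l, ⟨_, hl⟩, rfl⟩ | ⟨q', hq', rfl⟩), s, hs⟩
    · simp only [zero_mul, zero_add] at hs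
      rw [hs]
      exact hl
    · simp only at hs
      have h1 := (hT' (q'.1 * s + q'.2)).2 ⟨q', hq', s, rfl⟩
      rw [hs, ← add_assoc]
      exact h1

end Pool.Agent.Helper38.SP
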