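import Pool.Agent.Helper38.SP.Proj
import Pool.Agent.Helper38.SP.Dens

/-!
# Project SP: the main theorem
-/

set_option autoImplicit false

open Polynomial Finset

namespace Pool.Agent.Helper38.SP

/-- `F` has no nontrivial common zero and the Dynamical Mordell-Lang property in full -/
def Full {m : ℕ} (F : Fin m → MvPolynomial (Fin m) ℂ) : Prop :=
  (∀ x : Fin m → ℂ, (∀ i, MvPolynomial.eval x (F i) = 0) → x = 0) ∧
    ∀ a : Fin m → ℂ, a ≠ 0 → ∀ S : Set (MvPolynomial (Fin m) ℂ),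
      (∀ g ∈ S, ∃ e : ℕ, g.IsHomogeneous e) →
        ∃ T : Finset (ℕ × ℕ),
          {n : ℕ | ∀ g ∈ S, MvPolynomial.eval
            ((fun (x : Fin m → ℂ) (i : Fin m) => MvPolynomial.eval x (F i))^[n] a) g = 0}
            = {n : ℕ | ∃ q ∈ T, ∃ k : ℕ, n = q.1 * k + q.2}

theorem Good.coeff_ne_zero {p d : ℕ} {c : Fin (d + 1) → ℤ} (hd : 2 ≤ d)
    (h : Good p d (pol (fun j => (c j : ZMod p)))) : c (Fin.last d) ≠ 0 := by
  intro h0
  have h1 : (pol (fun j => (c j : ZMod p))).coeff d = 0 := by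
    have h2 := pol_coeff (fun j => (c j : ZMod p)) (Fin.last d)
    rw [Fin.val_last] at h2
    rw [h2, h0, Int.cast_zero]
  have h2 : (pol (fun j => (c j : ZMod p))).leadingCoeff = 0 := by
    rw [leadingCoeff, h.1, h1]
  rw [leadingCoeff_eq_zero] at h2
  have h3 := h.1
  rw [h2, natDegree_zero] at h3
  omega

/-- **The criterion at one prime.** -/
theorem full_of_good {N d : ℕ} (hd : 2 ≤ d) (c : Fin N → Fin (d + 1) → ℤ) (p₀ : ℕ)
    (hp₀ : p₀.Prime) (h : ∀ i, Good p₀ d (pol (fun j => (c i j : ZMod p₀)))) : Full (Phi c) := by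
  have hc : ∀ i, c i (Fin.last d) ≠ 0 := fun i => (h i).coeff_ne_zero hd
  have hmap : ∀ (p : ℕ) (i : Fin N), (pol (c i)).map (Int.castRingHom (ZMod p))
      = pol (fun j => (c i j : ZMod p)) := by
    intro p i
    rw [map_pol]
    rfl
  have hinf := infinite_good N d hd (fun i => pol (c i)) (fun i => pol_natDegree_le _) p₀ hp₀
    (fun i => by rw [hmap]; exact h i)
  simp only [hmap] at hinf
  refine ⟨fun x hx => no_common_zero hd c hc x hx, fun a _ S hS => ?_⟩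
  by_cases ha : a 0 = 0
  · exact dml_infinity hd c hc a ha S
  · exact dml_finite hd c hinf a ha S hS

/-- **Main theorem.** -/
theorem main (k d : ℕ) (hd : 2 ≤ d) (ε : ℝ) (hε : 0 < ε) :
    ∃ H₀ : ℕ, ∀ H : ℕ, H₀ ≤ H →
      ({c : Fin k → Fin (d + 1) → ℤ | (∀ i j, |c i j| ≤ (H : ℤ)) ∧
          ¬ ∀ (N : ℕ) (s : Fin N → Fin k), Full (Phi (fun i => c (s i)))}.ncard : ℝ)
        ≤ ε * ({c : Fin k → Fin (d + 1) → ℤ | ∀ i j, |c i j| ≤ (H : ℤ)}.ncard : ℝ) := by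
  obtain ⟨H₀, hH₀⟩ := density k d hd ε hε
  refine ⟨H₀, fun H hH => le_trans ?_ (hH₀ H hH)⟩
  have hfin : {c : Fin k → Fin (d + 1) → ℤ | ∀ i j, |c i j| ≤ (H : ℤ)}.Finite := by
    refine (Set.Finite.pi' (ι := Fin k) (κ := fun _ => Fin (d + 1) → ℤ)
      (t := fun _ => {v | ∀ j, |v j| ≤ (H : ℤ)}) fun i => ?_).subset fun c hc i => hc i
    refine (Set.Finite.pi' (ι := Fin (d + 1)) (κ := fun _ => ℤ)
      (t := fun _ => Set.Icc (-(H : ℤ)) H) fun j => Set.finite_Icc _ _).subset fun v hv j => ?_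
    exact Set.mem_Icc.2 (abs_le.1 (hv j))
  have h1 := Set.ncard_le_ncard (s := {c : Fin k → Fin (d + 1) → ℤ | (∀ i j, |c i j| ≤ (H : ℤ)) ∧
          ¬ ∀ (N : ℕ) (s : Fin N → Fin k), Full (Phi (fun i => c (s i)))})
    (t := {c : Fin k → Fin (d + 1) → ℤ | (∀ i j, |c i j| ≤ (H : ℤ)) ∧
          ¬ ∃ p : ℕ, p.Prime ∧ ∀ i, Good p d (pol (fun j => (c i j : ZMod p)))})
    (fun c hc => ⟨hc.1, fun hg => hc.2 fun N s => by
      obtain ⟨p, hp, hg⟩ := hg
      exact full_of_good hd (fun i => c (s i)) p hp (fun i => hg (s i))⟩)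
    (hfin.subset fun c hc => hc.1)
  exact_mod_cast h1

end Pool.Agent.Helper38.SP
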