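import Pool.Agent.Helper38.SP.Defs

/-!
# Project SP: good polynomials have unit derivatives along the tails of orbits

BLUEPRINT. Let `k` be the residue field of `R` (finite, characteristic `p`), `F i` the reduction of
`f i` to `k`. The map `y ↦ (F i (y i))_i` of the finite set `Fin N → k` has a preperiodic orbit, so
there is `n₁` such that for `n ≥ n₁` the reduction `y_i(n)` of the `n`-th iterate of `x i` is a
periodic point of `F i` for every `i` (for each `i` separately by finiteness of `k`; `n₁` = maximum
or use `Pool.Agent.Helper38.Dml.exists_iterate_mem_periodicPts`). A periodic point `y` of `F i` is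
not a zero of `F i'`: otherwise by `Good.exists_of_root` `y = φ z` with `z : ZMod p`,
`φ : ZMod p → k`; the iterates of `y` are the images of those of `z`; the last point of the cycle
before `y` is `φ w`, `f i (w) = z` in `ZMod p` (`φ` injective), so
`(derivative f).eval (f.eval w) = 0`, contradicting `Good`. So the derivative is a unit in `R`.
-/

set_option autoImplicit false

open Polynomial

namespace Pool.Agent.Helper38.SP

/-- the tail of every orbit of a self map of a finite set consists of periodic points -/
theorem exists_tail_periodic {k : Type*} [Finite k] (F : k → k) (a : k) :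
    ∃ m : ℕ, ∀ n, m ≤ n → F^[n] a ∈ Function.periodicPts F := by
  obtain ⟨m, n, hne, h⟩ := Finite.exists_ne_map_eq_of_infinite fun n : ℕ => F^[n] a
  wlog hmn : m < n generalizing m n
  · exact this n m (Ne.symm hne) h.symm (lt_of_le_of_ne (not_lt.1 hmn) (Ne.symm hne))
  refine ⟨m, fun l hl => ⟨n - m, Nat.sub_pos_of_lt hmn, ?_⟩⟩
  have h1 : Function.IsPeriodicPt F (n - m) (F^[m] a) := by
    unfold Function.IsPeriodicPt Function.IsFixedPt
    rw [← Function.iterate_add_apply, Nat.sub_add_cancel hmn.le]
    exact h.symm
  have h2 : F^[l] a = F^[l - m] (F^[m] a) := by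
    rw [← Function.iterate_add_apply, Nat.sub_add_cancel hl]
  rw [h2]
  exact h1.apply_iterate (l - m)

/-- periodic points in extensions of `F_p` are not critical -/
theorem eval_derivative_ne_of_periodic {p d : ℕ} [Fact p.Prime] {g : (ZMod p)[X]}
    (h : Good p d g) {k : Type*} [Field k] (φ : ZMod p →+* k) (y : k)
    (hy : y ∈ Function.periodicPts fun t : k => (g.map φ).eval t) :
    (derivative (g.map φ)).eval y ≠ 0 := by
  intro h0
  rw [derivative_map, eval_map] at h0
  obtain ⟨z, rfl, hz⟩ := h.exists_of_root φ y h0
  obtain ⟨m, hm, hper⟩ := hy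
  have key : ∀ n : ℕ, (fun t : k => (g.map φ).eval t)^[n] (φ z) =
      φ ((fun t : ZMod p => g.eval t)^[n] z) := by
    intro n
    induction n with
    | zero => rfl
    | succ n ih =>
      rw [Function.iterate_succ_apply', Function.iterate_succ_apply', ih]
      exact eval_map_apply _ _
  have h1 : φ ((fun t : ZMod p => g.eval t)^[m] z) = φ z := by
    rw [← key m]
    exact hper
  have h2 := φ.injective h1
  obtain ⟨m', rfl⟩ := Nat.exists_eq_succ_of_ne_zero (Nat.pos_iff_ne_zero.1 hm)
  rw [Function.iterate_succ_apply'] at h2
  apply h.2.2 ((fun t : ZMod p => g.eval t)^[m'] z)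
  have h3 : g.eval ((fun t : ZMod p => g.eval t)^[m'] z) = z := h2
  rw [h3]
  exact hz

/-- unit derivatives along tails of orbits -/
theorem exists_unit_tail {N : ℕ} (d p : ℕ) [Fact p.Prime] (f : Fin N → ℤ[X])
    (hf : ∀ i, Good p d ((f i).map (Int.castRingHom (ZMod p)))) {R : Type} [CommRing R]
    [IsLocalRing R] [Finite (IsLocalRing.ResidueField R)]
    (hpR : (p : R) ∈ IsLocalRing.maximalIdeal R) (x : Fin N → R) :
    ∃ n₁ : ℕ, ∀ n, n₁ ≤ n → ∀ i,
      IsUnit ((derivative ((f i).map (Int.castRingHom R))).eval
        ((fun y => ((f i).map (Int.castRingHom R)).eval y)^[n] (x i))) := by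
  classical
  set k := IsLocalRing.ResidueField R with hk
  have hp0 : ((p : ℕ) : k) = 0 := by
    have h1 := (IsLocalRing.residue_eq_zero_iff (R := R) (p : R)).2 hpR
    rwa [map_natCast] at h1
  haveI : CharP k p := (CharP.charP_iff_prime_eq_zero (Fact.out : p.Prime)).2 hp0
  let φ : ZMod p →+* k := ZMod.castHom (dvd_refl p) k
  have hmap : ∀ i, ((f i).map (Int.castRingHom R)).map (IsLocalRing.residue R) =
      ((f i).map (Int.castRingHom (ZMod p))).map φ := by
    intro i
    rw [Polynomial.map_map, Polynomial.map_map]
    congr 1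
    exact Subsingleton.elim _ _
  have hit : ∀ i, ∀ n : ℕ,
      IsLocalRing.residue R ((fun y => ((f i).map (Int.castRingHom R)).eval y)^[n] (x i)) =
        (fun t : k => (((f i).map (Int.castRingHom (ZMod p))).map φ).eval t)^[n]
          (IsLocalRing.residue R (x i)) := by
    intro i n
    induction n with
    | zero => rfl
    | succ n ih =>
      rw [Function.iterate_succ_apply', Function.iterate_succ_apply', ← ih, ← hmap i]
      exact (eval_map_apply _ _).symm
  choose m hm using fun i : Fin N => exists_tail_periodic
    (fun t : k => (((f i).map (Int.castRingHom (ZMod p))).map φ).eval t)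
    (IsLocalRing.residue R (x i))
  refine ⟨Finset.univ.sup m, fun n hn i => ?_⟩
  have h1 := hm i n ((Finset.le_sup (Finset.mem_univ i)).trans hn)
  rw [← hit i n] at h1
  have h2 := eval_derivative_ne_of_periodic (hf i) φ _ h1
  rw [← IsLocalRing.residue_ne_zero_iff_isUnit]
  intro h3
  apply h2
  rw [← hmap i, derivative_map, eval_map_apply]
  exact h3

end Pool.Agent.Helper38.SP
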