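import Pool.Agent.Helper38.SP.Defs
import Pool.Agent.Helper38.SP.DvrFin
import Pool.Agent.Helper38.SP.Engine
import Pool.Agent.Helper38.SP.Tail

/-!
# Project SP: products of projective lines
-/

set_option autoImplicit false

open Polynomial Finset

namespace Pool.Agent.Helper38.SP

/-- the homogeneous lift of `f = sum c_j x^j` -/
noncomputable def lift1 {d : ℕ} (c : Fin (d + 1) → ℤ) (v : Fin 2 → ℂ) : Fin 2 → ℂ :=
  ![∑ j : Fin (d + 1), (c j : ℂ) * v 0 ^ (j : ℕ) * v 1 ^ (d - (j : ℕ)), v 1 ^ d]

/-- the lift of the product map of `(P^1)^N` -/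
noncomputable def lift {N d : ℕ} (c : Fin N → Fin (d + 1) → ℤ) (v : Fin N → Fin 2 → ℂ) :
    Fin N → Fin 2 → ℂ :=
  fun i => lift1 (c i) (v i)

theorem lift1_affine {d : ℕ} (c : Fin (d + 1) → ℤ) (t y : ℂ) :
    lift1 c ![t * y, t] = ![t ^ d * ((pol c).map (Int.castRingHom ℂ)).eval y, t ^ d] := by
  funext i
  fin_cases i
  · simp only [lift1, Fin.zero_eta, Matrix.cons_val_zero, Matrix.cons_val_one]
    rw [map_pol, pol_eval, Finset.mul_sum]
    refine Finset.sum_congr rfl fun j _ => ?_
    have h1 : (j : ℕ) ≤ d := Nat.lt_succ_iff.1 j.2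
    have h2 : t ^ d = t ^ (j : ℕ) * t ^ (d - (j : ℕ)) := by
      rw [← pow_add, Nat.add_sub_cancel' h1]
    rw [h2, mul_pow]
    simp only [eq_intCast]
    ring
  · simp [lift1]

theorem lift1_infinity {d : ℕ} (hd : 2 ≤ d) (c : Fin (d + 1) → ℤ) (t : ℂ) :
    lift1 c ![t, 0] = ![(c (Fin.last d) : ℂ) * t ^ d, 0] := by
  funext i
  fin_cases i
  · simp only [lift1, Fin.zero_eta, Matrix.cons_val_zero, Matrix.cons_val_one]
    rw [Finset.sum_eq_single (Fin.last d)]
    · simp
    · intro j _ hj
      have h1 : (j : ℕ) < d := by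
        have h2 : (j : ℕ) ≤ d := Nat.lt_succ_iff.1 j.2
        rcases h2.lt_or_eq with h | h
        · exact h
        · exact absurd (Fin.ext (by rw [h]; rfl)) hj
      rw [zero_pow (by omega), mul_zero]
    · intro h
      exact absurd (Finset.mem_univ _) h
  · simp only [lift1, Fin.mk_one, Matrix.cons_val_one, Matrix.cons_val_zero]
    exact zero_pow (by omega)

open Classical in
/-- normalised coordinates -/
noncomputable def wv {N : ℕ} (I : Finset (Fin N)) (y : Fin N → ℂ) (i : Fin N) : Fin 2 → ℂ :=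
  if i ∈ I then ![y i, 1] else ![1, 0]

open Classical in
/-- normalised coordinates as polynomials -/
noncomputable def wp {N : ℕ} (I : Finset (Fin N)) (q : Fin N × Fin 2) : MvPolynomial (Fin N) ℂ :=
  if q.1 ∈ I then (![MvPolynomial.X q.1, 1] : Fin 2 → MvPolynomial (Fin N) ℂ) q.2
    else (![1, 0] : Fin 2 → MvPolynomial (Fin N) ℂ) q.2

theorem eval_wp {N : ℕ} (I : Finset (Fin N)) (y : Fin N → ℂ) (q : Fin N × Fin 2) :
    MvPolynomial.eval y (wp I q) = wv I y q.1 q.2 := by
  classical
  obtain ⟨i, l⟩ := q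
  by_cases hi : i ∈ I
  · fin_cases l <;> simp [wp, wv, hi]
  · fin_cases l <;> simp [wp, wv, hi]

/-- **Products of projective lines.** -/
theorem dml_p1n {N d M : ℕ} (hd : 2 ≤ d) (c : Fin N → Fin (d + 1) → ℤ)
    (hc : ∀ i, c i (Fin.last d) ≠ 0)
    (hinf : {p : ℕ | p.Prime ∧ ∀ i, Good p d (pol (fun j => (c i j : ZMod p)))}.Infinite)
    (v : Fin N → Fin 2 → ℂ) (hv : ∀ i, v i ≠ 0) (e : Fin N → ℕ)
    (P : Fin M → MvPolynomial (Fin N × Fin 2) ℂ)
    (hP : ∀ (t : Fin N → ℂ) (w : Fin N → Fin 2 → ℂ) (l : Fin M),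
      MvPolynomial.eval (fun q : Fin N × Fin 2 => t q.1 * w q.1 q.2) (P l)
        = (∏ i, t i ^ e i) * MvPolynomial.eval (fun q : Fin N × Fin 2 => w q.1 q.2) (P l))
    (S : Set (MvPolynomial (Fin M) ℂ)) (hS : ∀ g ∈ S, ∃ e : ℕ, g.IsHomogeneous e) :
    ∃ T : Finset (ℕ × ℕ), {n : ℕ | ∀ g ∈ S, MvPolynomial.eval (fun l =>
        MvPolynomial.eval (fun q : Fin N × Fin 2 => (lift c)^[n] v q.1 q.2) (P l)) g = 0}
      = {n : ℕ | ∃ q ∈ T, ∃ m : ℕ, n = q.1 * m + q.2} := by
  classical
  set I : Finset (Fin N) := univ.filter (fun i => v i 1 ≠ 0) with hI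
  obtain ⟨E, hE, hdvr⟩ := exists_dvr_point (fun i : Fin N => v i 0 / v i 1)
  obtain ⟨p, hp, hpE⟩ := (hinf.sdiff hE).nonempty
  obtain ⟨R, _, _, _, _, j, hfin, hpR, hj, hx⟩ := hdvr p hp.1 hpE
  have : Fact p.Prime := ⟨hp.1⟩
  choose x hx using hx
  have hgood : ∀ i, Good p d ((pol (c i)).map (Int.castRingHom (ZMod p))) := by
    intro i
    rw [map_pol]
    exact hp.2 i
  obtain ⟨n₁, hn₁⟩ := exists_unit_tail d p (fun i => pol (c i)) hgood hpR x
  set f : Fin N → R[X] := fun i => if i ∈ I then (pol (c i)).map (Int.castRingHom R) else X with hf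
  have hu : ∀ n, n₁ ≤ n → ∀ i,
      IsUnit ((derivative (f i)).eval ((fun y => (f i).eval y)^[n] (x i))) := by
    intro n hn i
    by_cases hi : i ∈ I
    · simp only [hf, if_pos hi]
      exact hn₁ n hn i
    · simp only [hf, if_neg hi, derivative_X, eval_one, isUnit_one]
  obtain ⟨T, hT⟩ := dml_affine p hp.1 hpR j hj f x n₁ hu
    ((fun g => MvPolynomial.bind₁ (fun l => MvPolynomial.bind₁ (wp I) (P l)) g) '' S)
  refine ⟨T, ?_⟩
  rw [← hT]
  -- the affine orbit
  set y : ℕ → Fin N → ℂ := fun n i => j ((fun y => (f i).eval y)^[n] (x i)) with hy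
  have hys : ∀ n, ∀ i ∈ I, y (n + 1) i = ((pol (c i)).map (Int.castRingHom ℂ)).eval (y n i) := by
    intro n i hi
    simp only [hy, Function.iterate_succ_apply', hf, if_pos hi]
    rw [Polynomial.eval_map, Polynomial.eval_map, Polynomial.hom_eval₂]
    congr 1
    exact RingHom.ext_int _ _
  have hscale : ∀ n, ∃ t : Fin N → ℂ, (∀ i, t i ≠ 0) ∧
      ∀ i, (lift c)^[n] v i = t i • wv I (y n) i := by
    intro n
    induction n with
    | zero =>
      refine ⟨fun i => if i ∈ I then v i 1 else v i 0, fun i => ?_, fun i => ?_⟩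
      · by_cases hi : i ∈ I
        · simp only [if_pos hi]
          exact (Finset.mem_filter.1 hi).2
        · simp only [if_neg hi]
          have h1 : v i 1 = 0 := by
            by_contra h
            exact hi (Finset.mem_filter.2 ⟨Finset.mem_univ _, h⟩)
          intro h0
          apply hv i
          funext l
          fin_cases l
          · exact h0
          · exact h1
      · by_cases hi : i ∈ I
        · have h1 : v i 1 ≠ 0 := (Finset.mem_filter.1 hi).2
          simp only [if_pos hi, wv]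
          funext l
          fin_cases l
          · simp only [Function.iterate_zero, id, Fin.zero_eta, Pi.smul_apply,
              Matrix.cons_val_zero, smul_eq_mul, hy, hx]
            field_simp
          · simp
        · have h1 : v i 1 = 0 := by
            by_contra h
            exact hi (Finset.mem_filter.2 ⟨Finset.mem_univ _, h⟩)
          simp only [if_neg hi, wv]
          funext l
          fin_cases l
          · simp
          · simp [h1]
    | succ n ih =>
      obtain ⟨t, ht, hv'⟩ := ih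
      refine ⟨fun i => if i ∈ I then t i ^ d else (c i (Fin.last d) : ℂ) * t i ^ d,
        fun i => ?_, fun i => ?_⟩
      · by_cases hi : i ∈ I
        · simp only [if_pos hi]
          exact pow_ne_zero _ (ht i)
        · simp only [if_neg hi]
          exact mul_ne_zero (by exact_mod_cast hc i) (pow_ne_zero _ (ht i))
      · rw [Function.iterate_succ_apply']
        change lift1 (c i) ((lift c)^[n] v i) = _
        rw [hv' i]
        by_cases hi : i ∈ I
        · have h1 : t i • wv I (y n) i = ![t i * y n i, t i] := by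
            simp only [wv, if_pos hi]
            funext l
            fin_cases l <;> simp
          rw [h1, lift1_affine, ← hys n i hi]
          simp only [if_pos hi, wv]
          funext l
          fin_cases l <;> simp
        · have h1 : t i • wv I (y n) i = ![t i, 0] := by
            simp only [wv, if_neg hi]
            funext l
            fin_cases l <;> simp
          rw [h1, lift1_infinity hd]
          simp only [if_neg hi, wv]
          funext l
          fin_cases l <;> simp
  ext n
  simp only [Set.mem_ofPred_eq, Set.forall_mem_image]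
  obtain ⟨t, ht, hv'⟩ := hscale n
  have hval : ∀ g : MvPolynomial (Fin M) ℂ, MvPolynomial.eval (y n)
      (MvPolynomial.bind₁ (fun l => MvPolynomial.bind₁ (wp I) (P l)) g)
      = MvPolynomial.eval (fun l => MvPolynomial.eval
        (fun q : Fin N × Fin 2 => wv I (y n) q.1 q.2) (P l)) g := by
    intro g
    rw [← MvPolynomial.coe_aeval_eq_eval, ← MvPolynomial.coe_aeval_eq_eval]
    simp only [RingHom.coe_coe]
    rw [MvPolynomial.aeval_bind₁]
    congr 1
    apply congrArg
    funext l
    rw [MvPolynomial.aeval_bind₁, ← MvPolynomial.coe_aeval_eq_eval]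
    simp only [RingHom.coe_coe]
    congr 1
    apply congrArg
    funext q
    rw [MvPolynomial.aeval_eq_eval]
    exact eval_wp I (y n) q
  have hsc : (fun l => MvPolynomial.eval (fun q : Fin N × Fin 2 => (lift c)^[n] v q.1 q.2) (P l))
      = (∏ i, t i ^ e i) • (fun l => MvPolynomial.eval
        (fun q : Fin N × Fin 2 => wv I (y n) q.1 q.2) (P l)) := by
    funext l
    rw [Pi.smul_apply, smul_eq_mul, ← hP]
    congr 1
    apply congrArg
    funext q
    rw [hv' q.1]
    rfl
  have hprod : (∏ i, t i ^ e i) ≠ 0 := Finset.prod_ne_zero_iff.2 fun i _ => pow_ne_zero _ (ht i)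
  constructor
  · intro h g hg
    obtain ⟨E, hE⟩ := hS g hg
    have h1 := h g hg
    rw [hsc, Pool.Agent.Helper38.Dml.eval_smul_of_homog hE] at h1
    rw [hval]
    exact (mul_eq_zero.1 h1).resolve_left (pow_ne_zero _ hprod)
  · intro h g hg
    obtain ⟨E, hE⟩ := hS g hg
    have h1 := h hg
    rw [hval] at h1
    rw [hsc, Pool.Agent.Helper38.Dml.eval_smul_of_homog hE, h1, mul_zero]

end Pool.Agent.Helper38.SP
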