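import Pool.Agent.Helper38.SP.P1N

/-!
# Project SP: the symmetric products of a polynomial map
-/

set_option autoImplicit false

open Polynomial Finset

namespace Pool.Agent.Helper38.SP

section res

variable {R : Type*} [CommRing R]

/-- multiplicativity of resultants with formal degrees -/
theorem res_mul (f₁ f₂ g : R[X]) (m₁ m₂ n : ℕ) (h₁ : f₁.natDegree ≤ m₁) (h₂ : f₂.natDegree ≤ m₂)
    (hn : g.natDegree ≤ n) :
    resultant (f₁ * f₂) g (m₁ + m₂) n = resultant f₁ g m₁ n * resultant f₂ g m₂ n := by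
  obtain ⟨k₁, rfl⟩ := Nat.exists_eq_add_of_le h₁
  obtain ⟨k₂, rfl⟩ := Nat.exists_eq_add_of_le h₂
  have h3 : f₁.natDegree + k₁ + (f₂.natDegree + k₂)
      = (f₁.natDegree + f₂.natDegree) + (k₁ + k₂) := by ring
  rw [h3, resultant_add_left_deg _ _ _ _ _ (natDegree_mul_le), resultant_add_left_deg _ _ _ _ _ le_rfl,
    resultant_add_left_deg _ _ _ _ _ le_rfl]
  have h4 := resultant_mul_left f₁ f₂ g n hn
  rw [h4]
  ring

theorem natDegree_lin_le (y x : R) : (C y * X - C x : R[X]).natDegree ≤ 1 := by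
  refine (natDegree_sub_le _ _).trans ?_
  rw [natDegree_C, max_le_iff]
  exact ⟨(natDegree_C_mul_le _ _).trans natDegree_X_le, Nat.zero_le _⟩

theorem natDegree_prod_lin_le {ι : Type*} (s : Finset ι) (y x : ι → R) :
    (∏ i ∈ s, (C (y i) * X - C (x i)) : R[X]).natDegree ≤ s.card := by
  classical
  induction s using Finset.induction_on with
  | empty => simp
  | insert a s ha ih =>
    rw [Finset.prod_insert ha, Finset.card_insert_of_notMem ha, add_comm]
    exact natDegree_mul_le.trans (Nat.add_le_add (natDegree_lin_le _ _) ih)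

theorem res_prod {ι : Type*} (s : Finset ι) (y x : ι → R) (g : R[X]) (n : ℕ)
    (hn : g.natDegree ≤ n) :
    resultant (∏ i ∈ s, (C (y i) * X - C (x i))) g s.card n
      = ∏ i ∈ s, resultant (C (y i) * X - C (x i)) g 1 n := by
  classical
  induction s using Finset.induction_on with
  | empty => simp
  | insert a s ha ih =>
    rw [Finset.prod_insert ha, Finset.prod_insert ha, Finset.card_insert_of_notMem ha, add_comm,
      res_mul _ _ _ _ _ _ (natDegree_lin_le _ _) (natDegree_prod_lin_le s y x) hn, ih]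

end res

/-- the resultant with a linear polynomial -/
theorem res_lin (y x : ℂ) (g : ℂ[X][X]) (d : ℕ) (hg : g.natDegree ≤ d) :
    resultant (C (C y) * X - C (C x)) g 1 d
      = ∑ j ∈ range (d + 1), g.coeff j * C (x ^ j * y ^ (d - j)) := by
  by_cases hy : y = 0
  · rw [hy, C_0, C_0, zero_mul, zero_sub, ← C_neg, resultant_C_left, Finset.sum_eq_single d]
    · simp only [one_mul, pow_one, Nat.sub_self, pow_zero, mul_one, C_pow]
      rw [neg_pow (C x) d]
      have h1 : ((-1 : ℂ[X]) ^ d) * (-1) ^ d = 1 := by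
        rw [← mul_pow]
        simp
      calc (-1 : ℂ[X]) ^ d * g.coeff d * ((-1) ^ d * C x ^ d)
          = ((-1 : ℂ[X]) ^ d * (-1) ^ d) * (g.coeff d * C x ^ d) := by ring
        _ = _ := by rw [h1, one_mul]
    · intro j hj hjd
      rw [mem_range] at hj
      rw [zero_pow (by omega), mul_zero, C_0, mul_zero]
    · intro h
      exact absurd (mem_range.2 (Nat.lt_succ_self d)) h
  · have h1 : (C (C y) * X - C (C x) : ℂ[X][X]) = C (C y) * (X - C (C (x / y))) := by
      rw [mul_sub, ← C_mul, ← C_mul, mul_div_cancel₀ x hy]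
    rw [h1, resultant_C_mul_left, resultant_X_sub_C_left _ _ _ hg, eval_eq_sum_range' (n := d + 1)
      (by omega), Finset.mul_sum]
    refine Finset.sum_congr rfl fun j hj => ?_
    rw [mem_range] at hj
    rw [mul_left_comm, ← C_pow, ← C_pow, ← C_mul]
    congr 2
    have h2 : d = j + (d - j) := by omega
    rw [div_pow]
    have h3 : y ^ d = y ^ j * y ^ (d - j) := by rw [← pow_add, ← h2]
    rw [h3]
    field_simp

/-- the coefficients of `∏ (y_i x - x_i)` -/
noncomputable def symPi {N : ℕ} (v : Fin N → Fin 2 → ℂ) (l : Fin (N + 1)) : ℂ :=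
  (∏ i, (C (v i 1) * X - C (v i 0)) : ℂ[X]).coeff l

/-- a polynomial which scales like a form is a form -/
theorem homog_of_scale {m d : ℕ} (F : MvPolynomial (Fin m) ℂ)
    (h : ∀ (t : ℂ) (a : Fin m → ℂ), MvPolynomial.eval (t • a) F = t ^ d * MvPolynomial.eval a F) :
    F.IsHomogeneous d := by
  classical
  have hcomp : ∀ (k : ℕ), k ≠ d → MvPolynomial.homogeneousComponent k F = 0 := by
    intro k hk
    apply MvPolynomial.funext
    intro a
    rw [map_zero]
    set D := F.totalDegree + d + k + 1 with hD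
    set Q : ℂ[X] := ∑ i ∈ range D, C (MvPolynomial.eval a (MvPolynomial.homogeneousComponent i F))
      * X ^ i - C (MvPolynomial.eval a F) * X ^ d with hQ
    have hQ0 : Q = 0 := by
      apply Polynomial.funext
      intro t
      rw [hQ, eval_sub, eval_finsetSum, eval_mul, eval_C, eval_pow, eval_X, eval_zero, sub_eq_zero,
        mul_comm, ← h t a]
      conv_rhs => rw [← MvPolynomial.sum_homogeneousComponent F, map_sum]
      have h1 : ∀ i, MvPolynomial.eval (t • a) (MvPolynomial.homogeneousComponent i F)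
          = t ^ i * MvPolynomial.eval a (MvPolynomial.homogeneousComponent i F) := fun i =>
        Pool.Agent.Helper38.Dml.eval_smul_of_homog
          (MvPolynomial.homogeneousComponent_isHomogeneous i F) t a
      rw [← Finset.sum_subset (s₁ := range (F.totalDegree + 1)) (s₂ := range D)]
      · refine Finset.sum_congr rfl fun i _ => ?_
        rw [h1, eval_mul, eval_C, eval_pow, eval_X, mul_comm]
      · intro i hi
        rw [mem_range] at hi ⊢
        omega
      · intro i _ hi
        rw [mem_range, not_lt] at hi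
        rw [MvPolynomial.homogeneousComponent_eq_zero _ _ (by omega), map_zero, C_0, zero_mul,
          eval_zero]
    have h2 : Q.coeff k = MvPolynomial.eval a (MvPolynomial.homogeneousComponent k F) := by
      rw [hQ, coeff_sub, finsetSum_coeff]
      simp only [coeff_C_mul, coeff_X_pow]
      rw [Finset.sum_eq_single k, if_pos rfl, if_neg hk]
      · ring
      · intro b _ hb
        rw [if_neg (fun h => hb h.symm), mul_zero]
      · intro h
        exact absurd (mem_range.2 (by omega)) h
    rw [← h2, hQ0, coeff_zero]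
  have h1 : F = MvPolynomial.homogeneousComponent d F := by
    conv_lhs => rw [← MvPolynomial.sum_homogeneousComponent F]
    by_cases hd : d ∈ range (F.totalDegree + 1)
    · rw [Finset.sum_eq_single_of_mem d hd fun k _ hk => hcomp k hk]
    · rw [Finset.sum_eq_zero fun k hk => hcomp k fun h => hd (h ▸ hk)]
      rw [mem_range, not_lt] at hd
      rw [MvPolynomial.homogeneousComponent_eq_zero _ _ (by omega)]
  rw [h1]
  exact MvPolynomial.homogeneousComponent_isHomogeneous d F

/-- the universal binary form of degree `N` -/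
noncomputable def univ1 (N : ℕ) : (MvPolynomial (Fin (N + 1)) ℂ)[X][X] :=
  ∑ l : Fin (N + 1), C (C (MvPolynomial.X l)) * X ^ (l : ℕ)

/-- the polynomial `f(x) - T` -/
noncomputable def tgt {d : ℕ} (c : Fin (d + 1) → ℤ) (R : Type) [CommRing R] : R[X][X] :=
  (pol c).map (Int.castRingHom R[X]) - C X

theorem natDegree_tgt_le {d : ℕ} (c : Fin (d + 1) → ℤ) (R : Type) [CommRing R] :
    (tgt c R).natDegree ≤ d := by
  refine (natDegree_sub_le _ _).trans ?_
  rw [natDegree_C, max_le_iff]
  exact ⟨natDegree_map_le.trans (pol_natDegree_le c), Nat.zero_le _⟩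

/-- the forms of the symmetric product -/
noncomputable def symF (N : ℕ) {d : ℕ} (c : Fin (d + 1) → ℤ) (l : Fin (N + 1)) :
    MvPolynomial (Fin (N + 1)) ℂ :=
  MvPolynomial.C ((-1) ^ N) *
    (resultant (univ1 N) (tgt c (MvPolynomial (Fin (N + 1)) ℂ)) N d).coeff l

theorem eval_symF {N d : ℕ} (c : Fin (d + 1) → ℤ) (a : Fin (N + 1) → ℂ) (l : Fin (N + 1)) :
    MvPolynomial.eval a (symF N c l) = (-1) ^ N *
      (resultant (∑ l : Fin (N + 1), C (C (a l)) * X ^ (l : ℕ) : ℂ[X][X]) (tgt c ℂ) N d).coeff l := by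
  rw [symF, map_mul, MvPolynomial.eval_C]
  congr 1
  have h1 : (univ1 N).map (mapRingHom (MvPolynomial.eval a))
      = (∑ l : Fin (N + 1), C (C (a l)) * X ^ (l : ℕ) : ℂ[X][X]) := by
    rw [univ1, Polynomial.map_sum]
    refine Finset.sum_congr rfl fun j _ => ?_
    rw [Polynomial.map_mul, Polynomial.map_pow, map_C, map_X, coe_mapRingHom, map_C,
      MvPolynomial.eval_X]
  have h2 : (tgt c (MvPolynomial (Fin (N + 1)) ℂ)).map (mapRingHom (MvPolynomial.eval a))
      = tgt c ℂ := by
    rw [tgt, tgt, Polynomial.map_sub, Polynomial.map_map, map_C, coe_mapRingHom, map_X]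
    congr 2
    exact RingHom.ext_int _ _
  rw [← h1, ← h2, resultant_map_map, coe_mapRingHom, coeff_map]

theorem symF_homog {N d : ℕ} (c : Fin (d + 1) → ℤ) (l : Fin (N + 1)) :
    (symF N c l).IsHomogeneous d := by
  apply homog_of_scale
  intro t a
  rw [eval_symF, eval_symF]
  have h1 : (∑ l : Fin (N + 1), C (C ((t • a) l)) * X ^ (l : ℕ) : ℂ[X][X])
      = C (C t) * ∑ l : Fin (N + 1), C (C (a l)) * X ^ (l : ℕ) := by
    rw [Finset.mul_sum]
    refine Finset.sum_congr rfl fun j _ => ?_
    rw [Pi.smul_apply, smul_eq_mul, C_mul, C_mul, mul_assoc]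
  rw [h1, resultant_C_mul_left, ← C_pow, coeff_C_mul]
  ring

theorem sum_symPi {N : ℕ} (v : Fin N → Fin 2 → ℂ) :
    (∑ l : Fin (N + 1), C (C (symPi v l)) * X ^ (l : ℕ) : ℂ[X][X])
      = ∏ i, (C (C (v i 1)) * X - C (C (v i 0))) := by
  have h1 : (∏ i, (C (v i 1) * X - C (v i 0)) : ℂ[X])
      = ∑ l : Fin (N + 1), C (symPi v l) * X ^ (l : ℕ) := by
    have h2 := natDegree_prod_lin_le (univ : Finset (Fin N)) (fun i => v i 1) (fun i => v i 0)
    rw [Finset.card_univ, Fintype.card_fin] at h2
    exact (pol_of_coeff _ h2).symm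
  have h3 := congrArg (Polynomial.map (C : ℂ →+* ℂ[X])) h1
  rw [Polynomial.map_prod, Polynomial.map_sum] at h3
  simp only [Polynomial.map_mul, Polynomial.map_sub, map_C, map_X, Polynomial.map_pow] at h3
  exact h3.symm

theorem symF_symPi {N d : ℕ} (c : Fin (d + 1) → ℤ) (v : Fin N → Fin 2 → ℂ) (l : Fin (N + 1)) :
    MvPolynomial.eval (symPi v) (symF N c l) = symPi (fun i => lift1 c (v i)) l := by
  rw [eval_symF, sum_symPi]
  have h1 := res_prod (univ : Finset (Fin N)) (fun i => (C (v i 1) : ℂ[X]))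
    (fun i => (C (v i 0) : ℂ[X])) (tgt c ℂ) d (natDegree_tgt_le c ℂ)
  rw [Finset.card_univ, Fintype.card_fin] at h1
  rw [h1]
  have h2 : ∀ i : Fin N, resultant (C (C (v i 1)) * X - C (C (v i 0))) (tgt c ℂ) 1 d
      = - (C (lift1 c (v i) 1) * X - C (lift1 c (v i) 0)) := by
    intro i
    rw [res_lin _ _ _ _ (natDegree_tgt_le c ℂ), Finset.sum_range
      (fun j => (tgt c ℂ).coeff j * C (v i 0 ^ j * v i 1 ^ (d - j)))]
    have h3 : ∀ j : Fin (d + 1), (tgt c ℂ).coeff j
        = C (c j : ℂ) - (if (j : ℕ) = 0 then X else 0) := by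
      intro j
      rw [tgt, coeff_sub, coeff_map, pol_coeff, coeff_C]
      simp
    simp only [h3, sub_mul, Finset.sum_sub_distrib]
    have h4 : ∑ j : Fin (d + 1), (if (j : ℕ) = 0 then (X : ℂ[X]) else 0)
        * C (v i 0 ^ (j : ℕ) * v i 1 ^ (d - (j : ℕ))) = C (v i 1 ^ d) * X := by
      rw [Finset.sum_eq_single (0 : Fin (d + 1))]
      · simp [mul_comm]
      · intro j _ hj
        rw [if_neg, zero_mul]
        intro h
        exact hj (Fin.ext h)
      · intro h
        exact absurd (Finset.mem_univ _) h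
    have h5 : ∑ j : Fin (d + 1), C (c j : ℂ) * C (v i 0 ^ (j : ℕ) * v i 1 ^ (d - (j : ℕ)))
        = (C (lift1 c (v i) 0) : ℂ[X]) := by
      simp only [lift1, Matrix.cons_val_zero]
      rw [map_sum]
      refine Finset.sum_congr rfl fun j _ => ?_
      rw [← C_mul, mul_assoc]
    rw [h4, h5]
    simp only [lift1, Matrix.cons_val_one, Matrix.cons_val_zero]
    ring
  simp only [h2]
  rw [Finset.prod_neg, Finset.card_univ, Fintype.card_fin, symPi]
  have h3 : ((-1 : ℂ[X]) ^ N) = C ((-1) ^ N) := by simp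
  rw [h3, coeff_C_mul, ← mul_assoc, ← mul_pow]
  simp

end Pool.Agent.Helper38.SP
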